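import Pool.Agent.TH997.US.Stm

set_option autoImplicit false

/-!
# Integer lists as codes
-/

namespace Pool.Agent.TH997.US

open Polynomial Finset Pool.Agent.H692R2.USS
open scoped Classical

theorem enc_int (z : ℤ) : Encodable.encode z = if 0 ≤ z then 2 * z.toNat else 2 * (-z).toNat - 1 := by
  rcases z with n | n
  · rfl
  · have h1 : Encodable.encode (Int.negSucc n) = 2 * n + 1 := rfl
    rw [h1, if_neg (by omega)]
    omega

theorem primrec_zc : Primrec zc := by
  have h : Primrec fun z : ℤ => if Encodable.encode z % 2 = 0 then
      ((Encodable.encode z / 2, 0) : ℕ × ℕ) else (0, Encodable.encode z / 2 + 1) := by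
    refine Primrec.ite ?_ ?_ ?_
    · exact PrimrecRel.comp Primrec.eq (Primrec.nat_mod.comp Primrec.encode (Primrec.const 2))
        (Primrec.const 0)
    · exact (Primrec.nat_div.comp Primrec.encode (Primrec.const 2)).pair (Primrec.const 0)
    · exact (Primrec.const 0).pair
        (Primrec.succ.comp (Primrec.nat_div.comp Primrec.encode (Primrec.const 2)))
  refine h.of_eq fun z => ?_
  rw [enc_int]
  unfold zc
  by_cases hz : 0 ≤ z
  · rw [if_pos hz, if_pos (by omega)]
    ext <;> simp only <;> omega
  · rw [if_neg hz, if_neg (by omega)]
    ext <;> simp only <;> omega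

/-- the code of a pair of integer lists -/
def cv (p : List ℤ × List ℤ) : List Z × List Z := (p.1.map zc, p.2.map zc)

theorem computable_cv : Computable cv := by
  have h : Primrec cv := by
    refine Primrec.pair ?_ ?_
    · exact Primrec.list_map Primrec.fst (primrec_zc.comp Primrec.snd).to₂
    · exact Primrec.list_map Primrec.snd (primrec_zc.comp Primrec.snd).to₂
  exact h.to_comp

end Pool.Agent.TH997.US
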