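import Pool.Agent.TH997.US.Stm
import Pool.Agent.H692R2.USS.W1

set_option autoImplicit false

/-!
# The certificate check is computable
-/

namespace Pool.Agent.TH997.US

open Polynomial Finset Pool.Agent.H692R2.USS
open scoped Classical

namespace F3

open Pool.Agent.Helper446.RE (cp_eq cp_le cp_lt cp_comp cite)

section gen

variable {α : Type} [Primcodable α]

theorem cfact {f : α → ℕ} (hf : Computable f) : Computable (fun x => (f x).factorial) := by
  have h := cprod (g := fun (_ : α) i => i + 1) (f := f) (by fun_prop) hf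
  exact h.of_eq fun a => Finset.prod_range_add_one_eq_factorial (f a)

attribute [local fun_prop] cfact

theorem cchoose {f g : α → ℕ} (hf : Computable f) (hg : Computable g) :
    Computable (fun x => (f x).choose (g x)) := by
  have h : Computable (fun x => if g x ≤ f x then
      (f x).factorial / ((g x).factorial * (f x - g x).factorial) else 0) :=
    cite (cp_le hg hf) (by fun_prop) (by fun_prop)
  refine h.of_eq fun x => ?_
  split_ifs with hx
  · rw [Nat.choose_eq_factorial_div_factorial hx]
  · rw [Nat.choose_eq_zero_of_lt (by omega)]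

attribute [local fun_prop] cchoose

theorem clc {A : α → List Z} {i : α → ℕ} (hA : Computable A) (hi : Computable i) :
    Computable (fun x => lc (A x) (i x)) := by
  unfold lc
  fun_prop

attribute [local fun_prop] clc

theorem cgc {G : α → List Z} {i : α → ℕ} (hG : Computable G) (hi : Computable i) :
    Computable (fun x => gc (G x) (i x)) := by
  unfold gc
  refine cite (cp_lt hi (by fun_prop)) (by fun_prop) ?_
  exact cite (cp_eq hi (by fun_prop)) (by fun_prop) (by fun_prop)

attribute [local fun_prop] cgc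

attribute [local irreducible] lc gc zm za Nat.choose Nat.factorial

theorem cez {f g : α → Z} (hf : Computable f) (hg : Computable g) :
    ComputablePred (fun x => ez (f x) (g x)) := by
  unfold ez
  exact cp_eq (by fun_prop) (by fun_prop)

theorem clez {f : α → Z} {k : α → ℕ} (hf : Computable f) (hk : Computable k) :
    ComputablePred (fun x => lez (f x) (k x)) := by
  unfold lez
  exact cp_and (cp_le (by fun_prop) (by fun_prop)) (cp_le (by fun_prop) (by fun_prop))

theorem cBez {G Sg Tg : α → List Z} {R : α → Z} {i : α → ℕ} (hG : Computable G)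
    (hS : Computable Sg) (hT : Computable Tg) (hR : Computable R) (hi : Computable i) :
    ComputablePred (fun x => BezAt (G x) (Sg x) (Tg x) (R x) (i x)) := by
  unfold BezAt
  refine cez (cza ?_ ?_) ?_
  · exact czsum (q := fun x a => zm (lc (Sg x) a) (gc (G x) (i x - a))) (by fun_prop)
      (by fun_prop)
  · exact czsum (q := fun x a => zm (lc (Tg x) a) (zm (i x - a + 1, 0)
      (gc (G x) (i x - a + 1)))) (by fun_prop) (by fun_prop)
  · exact cite (cp_eq hi (by fun_prop)) hR (by fun_prop)

theorem cPer {G Q W : α → List Z} {p0 T i : α → ℕ} (hG : Computable G)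
    (hQ : Computable Q) (hW : Computable W) (hp : Computable p0) (hT : Computable T)
    (hi : Computable i) :
    ComputablePred (fun x => PerAt (G x) (Q x) (W x) (p0 x) (T x) (i x)) := by
  unfold PerAt
  refine cez ?_ (cza (cza ?_ ?_) ?_)
  · exact cite (cp_eq hi hT) (by fun_prop) (by fun_prop)
  · exact czsum (q := fun x a => zm (gc (G x) a) (lc (Q x) (i x - a))) (by fun_prop)
      (by fun_prop)
  · fun_prop
  · exact cite (cp_eq hi (by fun_prop)) (by fun_prop) (by fun_prop)

theorem cDec {p : α → List Z × List Z} {m D : α → ℕ} {G : α → List Z} {V : α → List (List Z)}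
    {n : α → ℕ} (hp : Computable p) (hm : Computable m) (hD : Computable D) (hG : Computable G)
    (hV : Computable V) (hn : Computable n) :
    ComputablePred (fun x => DecAt (p x) (m x) (D x) (G x) (V x) (n x)) := by
  unfold DecAt
  refine cez ?_ ?_
  · refine czm (by fun_prop) (crun ?_ (by fun_prop) hn)
    exact Pool.Agent.H884R2.Sko.cFq (by fun_prop)
  · refine czsum (q := fun x j => zm ((n x).choose j, 0)
      (run (G x) ((V x).getD j []) (n x))) ?_ hm
    fun_prop

theorem cChk {p : α → List Z × List Z} {k m D p0 T Vb Bd : α → ℕ}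
    {G Sg Tg Q W : α → List Z} {R : α → Z} {V : α → List (List Z)} (hp : Computable p)
    (hk : Computable k) (hm : Computable m) (hD : Computable D) (hp0 : Computable p0)
    (hT : Computable T) (hVb : Computable Vb) (hBd : Computable Bd) (hG : Computable G)
    (hSg : Computable Sg) (hTg : Computable Tg) (hQ : Computable Q) (hW : Computable W)
    (hR : Computable R) (hV : Computable V) :
    ComputablePred (fun x => Chk (p x) (k x) (m x) (D x) (p0 x) (T x) (Vb x) (Bd x) (G x) (Sg x)
      (Tg x) (Q x) (W x) (R x) (V x)) := by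
  unfold Chk
  refine cp_and (cp_le (by fun_prop) hk) ?_
  refine cp_and (cp_le (by fun_prop) (by fun_prop)) ?_
  refine cp_and (cp_le (by fun_prop) hk) ?_
  refine cp_and ?_ ?_
  · refine cp_all (p := fun x i => lez (lc (G x) i) (k x)) ?_ (by fun_prop)
    exact clez (by fun_prop) (by fun_prop)
  refine cp_and (ComputablePred.not (cp_eq (by fun_prop) (by fun_prop))) ?_
  refine cp_and ?_ ?_
  · refine cp_all (p := fun x i => BezAt (G x) (Sg x) (Tg x) (R x) i) ?_ (by fun_prop)
    exact cBez (by fun_prop) (by fun_prop) (by fun_prop) (by fun_prop) (by fun_prop)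
  refine cp_and (ComputablePred.not (cp_eq (by fun_prop) (by fun_prop))) ?_
  refine cp_and (clez hR hk) ?_
  refine cp_and (cp_le (by fun_prop) hm) ?_
  refine cp_and (cp_le hm hk) ?_
  refine cp_and (cp_le (by fun_prop) hD) ?_
  refine cp_and ?_ ?_
  · refine cp_all (p := fun x j => ((V x).getD j []).length = (G x).length ∧
      ∀ i < (G x).length, lez (lc ((V x).getD j []) i) (Vb x)) ?_ hm
    refine cp_and (cp_eq (by fun_prop) (by fun_prop)) ?_
    refine cp_all (p := fun (x : α × ℕ) i => lez (lc ((V x.1).getD x.2 []) i) (Vb x.1)) ?_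
      (by fun_prop)
    exact clez (by fun_prop) (by fun_prop)
  refine cp_and (cp_lt (by fun_prop) (by fun_prop)) ?_
  refine cp_and ?_ ?_
  · refine cp_all (p := fun x n => DecAt (p x) (m x) (D x) (G x) (V x) n) ?_ (by fun_prop)
    exact cDec (by fun_prop) (by fun_prop) (by fun_prop) (by fun_prop) (by fun_prop)
      (by fun_prop)
  refine cp_and (cp_prime hp0) ?_
  refine cp_and (cp_le (by fun_prop) hp0) ?_
  refine cp_and (cp_le (by fun_prop) hT) ?_
  refine cp_and (cp_le hT hk) ?_
  refine cp_and ?_ ?_
  · refine cp_all (p := fun x i => PerAt (G x) (Q x) (W x) (p0 x) (T x) i) ?_ (by fun_prop)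
    exact cPer (by fun_prop) (by fun_prop) (by fun_prop) (by fun_prop) (by fun_prop)
      (by fun_prop)
  · refine cp_all (p := fun x r => ∃ j < m x, ∃ l < Bd x,
      (run (G x) ((V x).getD j []) (r + T x * l)).1 ≠
        (run (G x) ((V x).getD j []) (r + T x * l)).2 ∧
      ¬ ((run (G x) ((V x).getD j []) (r + T x * l)).2 + 3 ^ (k x / 2) ≤
          (run (G x) ((V x).getD j []) (r + T x * l)).1 ∨
        (run (G x) ((V x).getD j []) (r + T x * l)).1 + 3 ^ (k x / 2) ≤
          (run (G x) ((V x).getD j []) (r + T x * l)).2)) ?_ hT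
    refine cp_ex (p := fun (x : α × ℕ) j => ∃ l < Bd x.1,
      (run (G x.1) ((V x.1).getD j []) (x.2 + T x.1 * l)).1 ≠
        (run (G x.1) ((V x.1).getD j []) (x.2 + T x.1 * l)).2 ∧
      ¬ ((run (G x.1) ((V x.1).getD j []) (x.2 + T x.1 * l)).2 + 3 ^ (k x.1 / 2) ≤
          (run (G x.1) ((V x.1).getD j []) (x.2 + T x.1 * l)).1 ∨
        (run (G x.1) ((V x.1).getD j []) (x.2 + T x.1 * l)).1 + 3 ^ (k x.1 / 2) ≤
          (run (G x.1) ((V x.1).getD j []) (x.2 + T x.1 * l)).2)) ?_ (by fun_prop)
    refine cp_ex (p := fun (x : (α × ℕ) × ℕ) l =>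
      (run (G x.1.1) ((V x.1.1).getD x.2 []) (x.1.2 + T x.1.1 * l)).1 ≠
        (run (G x.1.1) ((V x.1.1).getD x.2 []) (x.1.2 + T x.1.1 * l)).2 ∧
      ¬ ((run (G x.1.1) ((V x.1.1).getD x.2 []) (x.1.2 + T x.1.1 * l)).2 + 3 ^ (k x.1.1 / 2) ≤
          (run (G x.1.1) ((V x.1.1).getD x.2 []) (x.1.2 + T x.1.1 * l)).1 ∨
        (run (G x.1.1) ((V x.1.1).getD x.2 []) (x.1.2 + T x.1.1 * l)).1 + 3 ^ (k x.1.1 / 2) ≤
          (run (G x.1.1) ((V x.1.1).getD x.2 []) (x.1.2 + T x.1.1 * l)).2)) ?_ (by fun_prop)
    have hrun : Computable (fun x : ((α × ℕ) × ℕ) × ℕ =>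
        run (G x.1.1.1) ((V x.1.1.1).getD x.1.2 []) (x.1.1.2 + T x.1.1.1 * x.2)) := by
      fun_prop
    refine cp_and (ComputablePred.not (cp_eq (by fun_prop) (by fun_prop)))
      (ComputablePred.not (cp_or (cp_le (by fun_prop) (by fun_prop))
        (cp_le (by fun_prop) (by fun_prop))))

end gen

end F3

theorem f3 : F3 := by
  unfold F3
  exact F3.cChk (by fun_prop) (by fun_prop) (by fun_prop) (by fun_prop) (by fun_prop)
    (by fun_prop) (by fun_prop) (by fun_prop) (by fun_prop) (by fun_prop) (by fun_prop)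
    (by fun_prop) (by fun_prop) (by fun_prop) (by fun_prop)

end Pool.Agent.TH997.US
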