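import Pool.Agent.TH997.US.Stm

/-!
# Many zeros of a recurrence sequence in a residue class force `p`-adic smallness
-/

set_option autoImplicit false

namespace Pool.Agent.TH997.US

open Polynomial Finset Pool.Agent.H692R2.USS
open scoped Classical

namespace C9

/-- `p`-adic valuation of `i!` for odd `p`. -/
theorem fact_le {p : ℕ} (hp : p.Prime) (h3 : 3 ≤ p) (i : ℕ) :
    2 * i.factorial.factorization p ≤ i := by
  have := Fact.mk hp
  have h := sub_one_mul_padicValNat_factorial (p := p) i
  rw [Nat.factorization_def _ hp]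
  have h2 : 2 * padicValNat p i.factorial ≤ (p - 1) * padicValNat p i.factorial :=
    Nat.mul_le_mul_right _ (by omega)
  omega

/-- The integral form of `p ^ i / i!`. -/
theorem exists_coef {p : ℕ} (hp : p.Prime) (h3 : 3 ≤ p) {i N : ℕ} (hi : i ≤ N) :
    ∃ H : ℤ, H * (i.factorial : ℤ) = ((N.factorial / p ^ N.factorial.factorization p : ℕ) : ℤ) *
      (p : ℤ) ^ i ∧ (p : ℤ) ^ (i - i.factorial.factorization p) ∣ H := by
  have hd : i.factorial / p ^ i.factorial.factorization p ∣
      N.factorial / p ^ N.factorial.factorization p :=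
    Nat.ordCompl_dvd_ordCompl_of_dvd (Nat.factorial_dvd_factorial hi) p
  obtain ⟨c, hc⟩ := hd
  have h1 : p ^ i.factorial.factorization p * (i.factorial / p ^ i.factorial.factorization p) =
      i.factorial := Nat.ordProj_mul_ordCompl_eq_self i.factorial p
  have h2 := fact_le hp h3 i
  refine ⟨(c : ℤ) * (p : ℤ) ^ (i - i.factorial.factorization p), ?_, Dvd.intro_left _ rfl⟩
  rw [hc]
  have h4 : (p : ℤ) ^ i = (p : ℤ) ^ (i - i.factorial.factorization p) *
      (p : ℤ) ^ i.factorial.factorization p := by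
    rw [← pow_add]
    congr 1
    omega
  have h5 : (i.factorial : ℤ) = (p : ℤ) ^ i.factorial.factorization p *
      ((i.factorial / p ^ i.factorial.factorization p : ℕ) : ℤ) := by
    exact_mod_cast h1.symm
  rw [h4]
  generalize i.factorial.factorization p = v at *
  generalize i.factorial / p ^ v = d at *
  rw [h5]
  push_cast
  ring

/-- A polynomial with many roots whose high coefficients are divisible by `m`. -/
theorem dvd_eval {m k : ℕ} (hm : 1 < m) (F : ℤ[X]) (L : Finset ℕ) (hL : k ≤ L.card)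
    (hr : ∀ l ∈ L, F.eval (l : ℤ) = 0) (hF : ∀ i, k ≤ i → (m : ℤ) ∣ F.coeff i) (x : ℤ) :
    (m : ℤ) ∣ F.eval x := by
  have : Fact (1 < m) := ⟨hm⟩
  obtain ⟨L', hL', hc⟩ := Finset.exists_subset_card_eq hL
  set Q : ℤ[X] := ∏ l ∈ L', (X - C (l : ℤ)) with hQ
  have hQm : Q.Monic := monic_prod_of_monic _ _ fun l _ => monic_X_sub_C _
  have hQd : Q.natDegree = k := by
    rw [hQ, natDegree_prod_of_monic _ _ fun l _ => monic_X_sub_C _,
      Finset.sum_congr rfl fun (l : ℕ) _ => natDegree_X_sub_C (l : ℤ), Finset.sum_const, hc,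
      smul_eq_mul, mul_one]
  have hQF : Q ∣ F := by
    by_cases h0 : F = 0
    · rw [h0]
      exact dvd_zero _
    have h1 := (Multiset.prod_X_sub_C_dvd_iff_le_roots h0 (L'.val.map fun l : ℕ => (l : ℤ))).2 (by
      rw [Multiset.le_iff_subset (L'.nodup.map Nat.cast_injective)]
      intro a ha
      obtain ⟨l, hl, rfl⟩ := Multiset.mem_map.1 ha
      exact (mem_roots h0).2 (hr l (hL' hl)))
    rw [Multiset.map_map] at h1
    exact h1
  have hF0 : F.map (Int.castRingHom (ZMod m)) = 0 := by
    by_contra h0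
    refine (hQm.map (Int.castRingHom (ZMod m))).not_dvd_of_degree_lt h0 ?_
      (Polynomial.map_dvd _ hQF)
    rw [degree_eq_natDegree (hQm.map (Int.castRingHom (ZMod m))).ne_zero,
      hQm.natDegree_map, hQd, degree_lt_iff_coeff_zero]
    intro i hi
    rw [coeff_map]
    exact (ZMod.intCast_zmod_eq_zero_iff_dvd _ m).2 (hF i hi)
  have h1 : (Int.castRingHom (ZMod m)) (F.eval x) = 0 := by
    have := Polynomial.eval_map (p := F) (Int.castRingHom (ZMod m)) (x : ZMod m)
    rw [hF0, eval_zero] at this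
    rw [this]
    exact (Polynomial.eval₂_at_apply (p := F) (Int.castRingHom (ZMod m)) x).symm
  exact (ZMod.intCast_zmod_eq_zero_iff_dvd _ m).1 h1

/-- iterated differences along a residue class -/
theorem diff_iter {g q w : ℤ[X]} {p T : ℕ} (h : X ^ T - 1 = g * q + C (p : ℤ) * w)
    (i : ℕ) : ∀ (v : ℕ → ℤ), Ann g v → ∀ r l : ℕ,
    (fwdDiff 1)^[i] (fun l : ℕ => v (r + T * l)) l =
      (p : ℤ) ^ i * ((aeval (E ℤ) w) ^ i) v (r + T * l) := by
  induction i with
  | zero => intro v _ r l; simp
  | succ i ih =>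
    intro v hv r l
    have e1 : fwdDiff 1 (fun l : ℕ => v (r + T * l)) =
        fun l : ℕ => (p : ℤ) * (aeval (E ℤ) w) v (r + T * l) := by
      funext l
      have h1 : aeval (E ℤ) (X ^ T - 1 : ℤ[X]) v =
          aeval (E ℤ) (g * q + C (p : ℤ) * w) v := by rw [h]
      have h2 : aeval (E ℤ) (g * q) v = 0 := hv.mul_right q
      rw [map_add, LinearMap.add_apply, h2, zero_add, map_mul, aeval_C, map_sub, map_pow, aeval_X,
        map_one] at h1
      have h3 := congrFun h1 (r + T * l)
      rw [LinearMap.sub_apply, Pi.sub_apply, E_pow_apply] at h3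
      rw [fwdDiff]
      have h4 : r + T * (l + 1) = r + T * l + T := by ring
      rw [h4]
      refine h3.trans ?_
      rfl
    rw [Function.iterate_succ_apply, e1]
    have hw : Ann g (aeval (E ℤ) w v) := hv.aeval w
    have h5 := ih (aeval (E ℤ) w v) hw r l
    have h6 : (fun l : ℕ => (p : ℤ) * (aeval (E ℤ) w) v (r + T * l)) =
        (p : ℤ) • fun l : ℕ => (aeval (E ℤ) w) v (r + T * l) := rfl
    rw [h6, fwdDiff_iter_const_smul, Pi.smul_apply, h5, smul_eq_mul, pow_succ, pow_succ,
      Module.End.mul_apply]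
    ring

end C9

theorem c9 : C9 := by
  intro g q w p0 T v r k L hg hp h3 hT h hv hk hL l
  by_cases hc : k / 2 = 0
  · by_cases h0 : v (r + T * l) = 0
    · exact Or.inl h0
    · right
      rw [hc, pow_zero]
      exact Int.one_le_abs h0
  set N := l + L.sup id with hN
  set c := k / 2 with hcdef
  -- the coefficients
  choose! H hH hHd using fun (i : ℕ) (hi : i ≤ N) => C9.exists_coef hp h3 hi
  set M : ℤ := ((N.factorial / p0 ^ N.factorial.factorization p0 : ℕ) : ℤ) with hM
  set a : ℕ → ℤ := fun i => ((aeval (E ℤ) w) ^ i) v r with ha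
  set F : ℤ[X] := ∑ i ∈ range (N + 1), C (a i * H i) * descPochhammer ℤ i with hF
  have hz : ∀ x ≤ N, F.eval (x : ℤ) = M * v (r + T * x) := by
    intro x hx
    have h1 := shift_eq_sum_fwdDiff_iter 1 (fun l : ℕ => v (r + T * l)) x 0
    simp only [smul_eq_mul, mul_one, zero_add] at h1
    rw [h1, hF, eval_finsetSum]
    have h2 : ∑ i ∈ range (x + 1), x.choose i • (fwdDiff 1)^[i] (fun l : ℕ => v (r + T * l)) 0 =
        ∑ i ∈ range (N + 1), x.choose i • (fwdDiff 1)^[i] (fun l : ℕ => v (r + T * l)) 0 := by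
      refine Finset.sum_subset (Finset.range_subset_range.2 (by omega)) fun i _ hi => ?_
      rw [Finset.mem_range] at hi
      rw [Nat.choose_eq_zero_of_lt (by omega), zero_smul]
    rw [h2, Finset.mul_sum]
    refine Finset.sum_congr rfl fun i hi => ?_
    rw [Finset.mem_range] at hi
    rw [C9.diff_iter h i v hv r 0, eval_mul, eval_C, descPochhammer_eval_eq_descFactorial,
      Nat.descFactorial_eq_factorial_mul_choose]
    have h3 := hH i (by omega)
    push_cast
    simp only [mul_zero, add_zero, nsmul_eq_mul]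
    calc a i * H i * ((i.factorial : ℤ) * (x.choose i : ℤ)) =
        a i * (x.choose i : ℤ) * (H i * (i.factorial : ℤ)) := by ring
      _ = a i * (x.choose i : ℤ) * (M * (p0 : ℤ) ^ i) := by rw [h3]
      _ = _ := by rw [ha]; ring
  have hp1 : 1 < p0 ^ c := Nat.one_lt_pow hc hp.one_lt
  have hdvd := C9.dvd_eval hp1 F L hk (fun x hx => by
    rw [hz x ((Finset.le_sup (f := id) hx).trans (by omega)), hL x hx, mul_zero])
    (fun i hi => by
      rw [hF, finsetSum_coeff]
      refine Finset.dvd_sum fun j hj => ?_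
      rw [Finset.mem_range] at hj
      rw [coeff_C_mul]
      by_cases hji : j < i
      · rw [coeff_eq_zero_of_natDegree_lt (by rw [descPochhammer_natDegree]; exact hji), mul_zero]
        exact dvd_zero _
      · refine Dvd.dvd.mul_right (Dvd.dvd.mul_left ?_ _) _
        refine dvd_trans ?_ (hHd j (by omega))
        rw [Nat.cast_pow]
        apply pow_dvd_pow
        have := C9.fact_le hp h3 j
        omega) (l : ℤ)
  rw [hz l (by omega)] at hdvd
  have hcop : IsCoprime ((p0 ^ c : ℕ) : ℤ) M := by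
    rw [hM, Nat.isCoprime_iff_coprime]
    exact Nat.Coprime.pow_left _ (Nat.coprime_ordCompl hp (Nat.factorial_ne_zero N))
  have h4 := hcop.dvd_of_dvd_mul_left hdvd
  by_cases h0 : v (r + T * l) = 0
  · exact Or.inl h0
  · right
    have h5 : ((p0 ^ c : ℕ) : ℤ) ≤ |v (r + T * l)| :=
      Int.le_of_dvd (abs_pos.2 h0) ((dvd_abs _ _).2 h4)
    refine le_trans ?_ h5
    rw [Nat.cast_pow]
    exact pow_le_pow_left₀ (by norm_num) (by exact_mod_cast h3) _

end Pool.Agent.TH997.US
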