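import Pool.Agent.H692R2.USS.Basic
import Pool.Agent.H692R2.USS.Code
import Pool.Agent.H884R2.Sko.Algo

set_option autoImplicit false

/-!
# Universal Skolem sets of density one: statements of the remaining parts

The design (`BT`, `InvTot`, `GcdSum`, `Mass`, `Block`, `NonGen`, `GoodDensity`, `iSeq`, `NSeq`,
`lev`, `S`) is the file `Pool/Agent/H692R2/USS/Iface.lean` of the starting library, where
`bt : BT`, `massK`, `splitField` and `good_computable` are proved.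
-/

namespace Pool.Agent.TH997.US

open Polynomial Finset Pool.Agent.H692R2.USS
open scoped Classical

/-! ## A. Almost all `n` are good -/

def A1 : Prop := InvTot
def A2 : Prop := BT → InvTot → GcdSum
def A4 : Prop := ∀ k : ℕ, 1 ≤ k → Mass k → GcdSum → Block k
def A5 : Prop := ∀ k : ℕ, 1 ≤ k → NonGen k
def A6 : Prop := (∀ k : ℕ, 1 ≤ k → Block k) → (∀ k : ℕ, 1 ≤ k → NonGen k) → GoodDensity

/-! ## B. The set `S` -/

def B1 : Prop := GoodDensity → Computable NSeq ∧ ComputablePred (fun n : ℕ => n ∈ S)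
def B2 : Prop := GoodDensity → Filter.Tendsto
  (fun N : ℕ => (((Finset.range N).filter (fun n => n ∉ S)).card : ℝ) / N) Filter.atTop (nhds 0)

/-! ## C. Zeros of recurrence sequences in a residue class -/

def C9 : Prop := ∀ (g q w : ℤ[X]) (p0 T : ℕ) (v : ℕ → ℤ) (r k : ℕ) (L : Finset ℕ),
  g.Monic → p0.Prime → 3 ≤ p0 → 1 ≤ T → X ^ T - 1 = g * q + C (p0 : ℤ) * w → Ann g v →
  k ≤ L.card → (∀ l ∈ L, v (r + T * l) = 0) →
  ∀ l, v (r + T * l) = 0 ∨ (3 : ℤ) ^ (k / 2) ≤ |v (r + T * l)|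

/-! ## D. The key lemma -/

/-- certificate data for the sequence `u` at level `k` -/
structure CD (u : ℕ → ℤ) (k : ℕ) (g s t q w : ℤ[X]) (rr : ℤ) (m D p0 T : ℕ) (v : ℕ → ℕ → ℤ) :
    Prop where
  monic : g.Monic
  deg : g.natDegree ≤ k
  coeff : ∀ i, |g.coeff i| ≤ k
  coeff0 : g.coeff 0 ≠ 0
  bez : s * g + t * derivative g = C rr
  rr0 : rr ≠ 0
  rrk : |rr| ≤ k
  m1 : 1 ≤ m
  mle : m ≤ k
  D1 : 1 ≤ D
  ann : ∀ j < m, Ann g (v j)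
  dec : ∀ n : ℕ, (D : ℤ) * u n = ∑ j ∈ Finset.range m, (n.choose j : ℤ) * v j n
  gro : ∀ j < m, ∀ b : ℕ, (m : ℤ) * m.factorial * |v j b| < 2 ^ (k * (b + 1))
  p0p : p0.Prime
  p03 : 3 ≤ p0
  T1 : 1 ≤ T
  Tk : T ≤ k
  per : X ^ T - 1 = g * q + C (p0 : ℤ) * w

/-- sequences killed by `g` are periodic modulo a prime splitting all small polynomials -/
def Da : Prop := ∀ (k p : ℕ) (g s t : ℤ[X]) (rr : ℤ) (v : ℕ → ℤ), p.Prime → SplitAll k p → k < p →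
  g.Monic → g.natDegree ≤ k → (∀ i, |g.coeff i| ≤ k) → g.coeff 0 ≠ 0 →
  s * g + t * derivative g = C rr → rr ≠ 0 → |rr| ≤ k → Ann g v →
  ∀ n, (p : ℤ) ∣ v (n + (p - 1)) - v n

def Db : Prop := ∀ (k p T : ℕ), p.Prime → SplitAll k p → k < p → 1 ≤ T → T ≤ k → T ∣ p - 1

/-- integer polynomial taking the values `m! ∑ C(n,j) x_j` -/
def Dc : Prop := ∀ (m : ℕ) (x : ℕ → ℤ), ∃ f : ℤ[X], f.natDegree ≤ m - 1 ∧
  (∀ n : ℕ, f.eval (n : ℤ) = m.factorial * ∑ j ∈ Finset.range m, (n.choose j : ℤ) * x j) ∧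
  ∀ i, |f.coeff i| ≤ ∑ j ∈ Finset.range m, (m.factorial : ℤ) * |x j|

def D0 : Prop := C9 → Da → Db → Dc → ∀ (u : ℕ → ℤ) (k : ℕ) (g s t q w : ℤ[X]) (rr : ℤ)
  (m D p0 T : ℕ) (v : ℕ → ℕ → ℤ) (i n : ℕ), CD u k g s t q w rr m D p0 T v → Good i k n →
  u n = 0 → ∀ j < m, ∀ l, v j (n % T + T * l) = 0 ∨ (3 : ℤ) ^ (k / 2) ≤ |v j (n % T + T * l)|

/-! ## E. Existence of certificates -/

def E1 : Prop := ∀ (χ : ℤ[X]) (u : ℕ → ℤ), χ.Monic → χ.coeff 0 ≠ 0 → Ann χ u →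
  ∃ (g s t : ℤ[X]) (rr : ℤ) (m D : ℕ) (v : ℕ → ℕ → ℤ), g.Monic ∧ g.coeff 0 ≠ 0 ∧
    s * g + t * derivative g = C rr ∧ rr ≠ 0 ∧ 1 ≤ m ∧ 1 ≤ D ∧ (∀ j < m, Ann g (v j)) ∧
    ∀ n : ℕ, (D : ℤ) * u n = ∑ j ∈ Finset.range m, (n.choose j : ℤ) * v j n

def E2 : Prop := E1 → ∀ (χ : ℤ[X]) (u : ℕ → ℤ), χ.Monic → χ.coeff 0 ≠ 0 → Ann χ u →
  ∃ (k : ℕ) (g s t q w : ℤ[X]) (rr : ℤ) (m D p0 T : ℕ) (v : ℕ → ℕ → ℤ),
    CD u k g s t q w rr m D p0 T v ∧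
    ∀ r < T, (∀ j < m, ∀ l, v j (r + T * l) = 0) ∨
      ∃ j < m, ∃ l, v j (r + T * l) ≠ 0 ∧ |v j (r + T * l)| < 3 ^ (k / 2)

/-! ## F. Coded certificates (all classes contain a small nonzero value) -/

/-- coded integers, see `iv` -/
abbrev Z := ℕ × ℕ

/-- `i`-th coefficient of the polynomial coded by a list -/
def lc (A : List Z) (i : ℕ) : Z := A.getD i (0, 0)

/-- `i`-th coefficient of `PG G` -/
def gc (G : List Z) (i : ℕ) : Z := if i < G.length then G.getD i (0, 0) else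
  if i = G.length then (1, 0) else (0, 0)

/-- equality of coded integers -/
def ez (x y : Z) : Prop := x.1 + y.2 = y.1 + x.2

/-- `|x| ≤ k` for coded integers -/
def lez (x : Z) (k : ℕ) : Prop := x.1 ≤ x.2 + k ∧ x.2 ≤ x.1 + k

/-- coefficient `i` of `s g + t g' = R` -/
def BezAt (G Sg Tg : List Z) (R : Z) (i : ℕ) : Prop :=
  ez (za (zsum (fun a => zm (lc Sg a) (gc G (i - a))) (i + 1))
    (zsum (fun a => zm (lc Tg a) (zm (i - a + 1, 0) (gc G (i - a + 1)))) (i + 1)))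
    (if i = 0 then R else (0, 0))

/-- coefficient `i` of `X ^ T = g q + p0 w + 1` -/
def PerAt (G Q W : List Z) (p0 T i : ℕ) : Prop :=
  ez (if i = T then (1, 0) else (0, 0))
    (za (za (zsum (fun a => zm (gc G a) (lc Q (i - a))) (i + 1)) (zm (p0, 0) (lc W i)))
      (if i = 0 then (1, 0) else (0, 0)))

/-- the decomposition at `n` -/
def DecAt (p : List Z × List Z) (m D : ℕ) (G : List Z) (V : List (List Z)) (n : ℕ) : Prop :=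
  ez (zm (D, 0) (run (Pool.Agent.H884R2.Sko.Fq p.1) p.2 n))
    (zsum (fun j => zm (n.choose j, 0) (run G (V.getD j []) n)) m)

def Chk (p : List Z × List Z) (k m D p0 T Vb Bd : ℕ) (G Sg Tg Q W : List Z) (R : Z)
    (V : List (List Z)) : Prop :=
  5 ≤ k ∧ 1 ≤ G.length ∧ G.length ≤ k ∧ (∀ i < G.length, lez (lc G i) k) ∧
  (lc G 0).1 ≠ (lc G 0).2 ∧
  (∀ i < G.length + Sg.length + Tg.length + 2, BezAt G Sg Tg R i) ∧
  R.1 ≠ R.2 ∧ lez R k ∧ 1 ≤ m ∧ m ≤ k ∧ 1 ≤ D ∧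
  (∀ j < m, (V.getD j []).length = G.length ∧ ∀ i < G.length, lez (lc (V.getD j []) i) Vb) ∧
  m * m.factorial * Vb < 2 ^ k ∧
  (∀ n < p.1.length + m * G.length, DecAt p m D G V n) ∧
  p0.Prime ∧ 3 ≤ p0 ∧ 1 ≤ T ∧ T ≤ k ∧
  (∀ i < G.length + Q.length + W.length + T + 2, PerAt G Q W p0 T i) ∧
  (∀ r < T, ∃ j < m, ∃ l < Bd, (run G (V.getD j []) (r + T * l)).1 ≠
    (run G (V.getD j []) (r + T * l)).2 ∧
    ¬ ((run G (V.getD j []) (r + T * l)).2 + 3 ^ (k / 2) ≤ (run G (V.getD j []) (r + T * l)).1 ∨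
      (run G (V.getD j []) (r + T * l)).1 + 3 ^ (k / 2) ≤ (run G (V.getD j []) (r + T * l)).2))

/-- the sequence coded by `p` -/
def sq (p : List Z × List Z) (n : ℕ) : ℤ := iv (run (Pool.Agent.H884R2.Sko.Fq p.1) p.2 n)

/-- soundness -/
def F1 : Prop := ∀ (p : List Z × List Z) (k m D p0 T Vb Bd : ℕ) (G Sg Tg Q W : List Z) (R : Z)
    (V : List (List Z)), p.1.length = p.2.length → 1 ≤ p.1.length →
  Chk p k m D p0 T Vb Bd G Sg Tg Q W R V →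
  ∃ (g s t q w : ℤ[X]) (rr : ℤ) (v : ℕ → ℕ → ℤ), CD (sq p) k g s t q w rr m D p0 T v ∧
    ∀ r < T, ∃ j < m, ∃ l, v j (r + T * l) ≠ 0 ∧ |v j (r + T * l)| < 3 ^ (k / 2)

/-- completeness -/
def F2 : Prop := ∀ (p : List Z × List Z) (k : ℕ) (g s t q w : ℤ[X]) (rr : ℤ) (m D p0 T : ℕ)
    (v : ℕ → ℕ → ℤ), p.1.length = p.2.length → 1 ≤ p.1.length →
  CD (sq p) k g s t q w rr m D p0 T v →
  (∀ r < T, ∃ j < m, ∃ l, v j (r + T * l) ≠ 0 ∧ |v j (r + T * l)| < 3 ^ (k / 2)) →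
  ∃ (k' Vb Bd : ℕ) (G Sg Tg Q W : List Z) (R : Z) (V : List (List Z)),
    Chk p k' m D p0 T Vb Bd G Sg Tg Q W R V

/-- computability -/
def F3 : Prop := ComputablePred (fun x : (List Z × List Z) ×
    ((ℕ × ℕ × ℕ × ℕ × ℕ × ℕ × ℕ) × (List Z × List Z × List Z × List Z × List Z) × Z ×
      List (List Z)) =>
  Chk x.1 x.2.1.1 x.2.1.2.1 x.2.1.2.2.1 x.2.1.2.2.2.1 x.2.1.2.2.2.2.1 x.2.1.2.2.2.2.2.1
    x.2.1.2.2.2.2.2.2 x.2.2.1.1 x.2.2.1.2.1 x.2.2.1.2.2.1 x.2.2.1.2.2.2.1 x.2.2.1.2.2.2.2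
    x.2.2.2.1 x.2.2.2.2)

end Pool.Agent.TH997.US
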