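import Pool.Agent.TH997.US.Stm

set_option autoImplicit false

/-!
# Existence of certificates (helper959, job 2915 for helper997)
-/

namespace Pool.Agent.TH997.US

open Polynomial Finset Pool.Agent.H692R2.USS
open scoped Classical

namespace E2

/-- `X` is invertible modulo a polynomial with nonzero constant coefficient -/
lemma coprime_X {K : Type*} [Field K] {g : K[X]} (h0 : g.coeff 0 ≠ 0) : IsCoprime g X := by
  refine ⟨C (g.coeff 0)⁻¹, - (C (g.coeff 0)⁻¹ * g.divX), ?_⟩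
  have h := g.divX_mul_X_add
  have h1 : C (g.coeff 0)⁻¹ * g + -(C (g.coeff 0)⁻¹ * g.divX) * X =
      C (g.coeff 0)⁻¹ * (g - g.divX * X) := by ring
  have h2 : g - g.divX * X = C (g.coeff 0) := by
    nth_rewrite 1 [← h]
    ring
  rw [h1, h2, ← C_mul, inv_mul_cancel₀ h0, C_1]

lemma exists_period {p : ℕ} [Fact p.Prime] {g : (ZMod p)[X]} (hg : g.Monic)
    (h0 : g.coeff 0 ≠ 0) : ∃ T : ℕ, 1 ≤ T ∧ g ∣ X ^ T - 1 := by
  have : Module.Finite (ZMod p) (AdjoinRoot g) := hg.finite_adjoinRoot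
  have : Finite (AdjoinRoot g) := Module.finite_of_finite (ZMod p)
  obtain ⟨a, b, hab, he⟩ := Finite.exists_ne_map_eq_of_infinite
    (fun n : ℕ => AdjoinRoot.mk g (X ^ n))
  have key : ∀ a b : ℕ, a < b → AdjoinRoot.mk g (X ^ a) = AdjoinRoot.mk g (X ^ b) →
      ∃ T : ℕ, 1 ≤ T ∧ g ∣ X ^ T - 1 := by
    intro a b hab he
    refine ⟨b - a, by omega, ?_⟩
    have h1 : AdjoinRoot.mk g (X ^ a * (X ^ (b - a) - 1)) = 0 := by
      rw [mul_sub, ← pow_add, Nat.add_sub_cancel' hab.le, mul_one, map_sub, he, sub_self]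
    rw [AdjoinRoot.mk_eq_zero] at h1
    exact ((coprime_X h0).pow_right).dvd_of_dvd_mul_left h1
  rcases lt_or_gt_of_ne hab with h | h
  · exact key a b h he
  · exact key b a h he.symm

lemma exists_per {g : ℤ[X]} (hg : g.Monic) (h0 : g.coeff 0 ≠ 0) :
    ∃ (p0 T : ℕ) (q w : ℤ[X]), p0.Prime ∧ 3 ≤ p0 ∧ 1 ≤ T ∧
      X ^ T - 1 = g * q + C (p0 : ℤ) * w := by
  obtain ⟨p0, hp1, hp2⟩ := Nat.exists_infinite_primes (max 3 ((g.coeff 0).natAbs + 1))
  have : Fact p0.Prime := ⟨hp2⟩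
  have hp3 : 3 ≤ p0 := (le_max_left _ _).trans hp1
  have hp4 : (g.coeff 0).natAbs < p0 := Nat.lt_of_succ_le ((le_max_right _ _).trans hp1)
  set gb := g.map (Int.castRingHom (ZMod p0)) with hgb
  have hgbm : gb.Monic := hg.map _
  have hgb0 : gb.coeff 0 ≠ 0 := by
    rw [hgb, coeff_map]
    intro h
    have h1 : ((g.coeff 0 : ℤ) : ZMod p0) = 0 := h
    rw [ZMod.intCast_zmod_eq_zero_iff_dvd] at h1
    have h2 := Int.natAbs_dvd_natAbs.2 h1
    rw [Int.natAbs_natCast] at h2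
    have h3 := Nat.le_of_dvd (Int.natAbs_pos.2 h0) h2
    omega
  obtain ⟨T, hT, hd⟩ := exists_period hgbm hgb0
  have h1 := modByMonic_add_div (X ^ T - 1 : ℤ[X]) g
  have h2 : ((X ^ T - 1 : ℤ[X]) %ₘ g).map (Int.castRingHom (ZMod p0)) = 0 := by
    rw [Polynomial.map_modByMonic _ hg]
    rw [(modByMonic_eq_zero_iff_dvd hgbm)]
    simpa using hd
  have h3 : C (p0 : ℤ) ∣ (X ^ T - 1 : ℤ[X]) %ₘ g := by
    rw [C_dvd_iff_dvd_coeff]
    intro i
    have h4 := congrArg (fun f => f.coeff i) h2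
    simp only [coeff_map, coeff_zero] at h4
    rw [← ZMod.intCast_zmod_eq_zero_iff_dvd]
    exact h4
  obtain ⟨w, hw⟩ := h3
  refine ⟨p0, T, (X ^ T - 1) /ₘ g, w, hp2, hp3, hT, ?_⟩
  rw [← hw]
  rw [add_comm]
  exact h1.symm

/-- growth of a recurrence sequence -/
lemma growth {g : ℤ[X]} {v : ℕ → ℤ} (hg : g.Monic) (hv : Ann g v) :
    ∃ A : ℕ, 1 ≤ A ∧ ∀ b, |v b| ≤ (A : ℤ) ^ (b + 1) := by
  set d := g.natDegree with hd
  set M : ℕ := ∑ i ∈ range d, (g.coeff i).natAbs + ∑ i ∈ range d, (v i).natAbs + 1 with hM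
  have hM1 : 1 ≤ M := by omega
  have hM1' : (1 : ℤ) ≤ (M : ℤ) := by exact_mod_cast hM1
  refine ⟨M, hM1, fun b => ?_⟩
  induction b using Nat.strong_induction_on with
  | _ b ih =>
    by_cases hb : b < d
    · have h1 : (v b).natAbs ≤ ∑ i ∈ range d, (v i).natAbs :=
        Finset.single_le_sum (f := fun i => (v i).natAbs) (fun i _ => Nat.zero_le _)
          (mem_range.2 hb)
      have h2 : (v b).natAbs ≤ M := by omega
      have h3 : |v b| ≤ (M : ℤ) := by
        rw [Int.abs_eq_natAbs]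
        exact_mod_cast h2
      refine h3.trans ?_
      exact le_self_pow₀ hM1' (by omega)
    · push Not at hb
      have h := (ann_iff (Nat.lt_succ_self _)).1 hv (b - d)
      rw [Finset.sum_range_succ, hg.coeff_natDegree, one_mul, ← hd, Nat.sub_add_cancel hb] at h
      have h1 : v b = - ∑ i ∈ range d, g.coeff i * v (b - d + i) := by linarith
      rw [h1, abs_neg]
      have h2 : ∀ i ∈ range d, |g.coeff i * v (b - d + i)| ≤
          ((g.coeff i).natAbs : ℤ) * (M : ℤ) ^ b := by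
        intro i hi
        rw [mem_range] at hi
        rw [abs_mul, Int.abs_eq_natAbs (g.coeff i)]
        refine mul_le_mul_of_nonneg_left ?_ (by positivity)
        refine (ih (b - d + i) (by omega)).trans ?_
        exact pow_le_pow_right₀ hM1' (by omega)
      calc |∑ i ∈ range d, g.coeff i * v (b - d + i)| ≤
          ∑ i ∈ range d, |g.coeff i * v (b - d + i)| := Finset.abs_sum_le_sum_abs _ _
        _ ≤ ∑ i ∈ range d, ((g.coeff i).natAbs : ℤ) * (M : ℤ) ^ b := Finset.sum_le_sum h2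
        _ = ((∑ i ∈ range d, (g.coeff i).natAbs : ℕ) : ℤ) * (M : ℤ) ^ b := by
            rw [← Finset.sum_mul]
            push_cast
            rfl
        _ ≤ (M : ℤ) * (M : ℤ) ^ b := by
            refine mul_le_mul_of_nonneg_right ?_ (by positivity)
            have : ∑ i ∈ range d, (g.coeff i).natAbs ≤ M := by omega
            exact_mod_cast this
        _ = (M : ℤ) ^ (b + 1) := by ring

lemma coeff_bound (g : ℤ[X]) : ∃ B : ℕ, ∀ i, |g.coeff i| ≤ (B : ℤ) := by
  refine ⟨∑ i ∈ range (g.natDegree + 1), (g.coeff i).natAbs, fun i => ?_⟩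
  by_cases hi : i < g.natDegree + 1
  · have h1 : (g.coeff i).natAbs ≤ ∑ i ∈ range (g.natDegree + 1), (g.coeff i).natAbs :=
      Finset.single_le_sum (f := fun i => (g.coeff i).natAbs) (fun i _ => Nat.zero_le _)
        (mem_range.2 hi)
    rw [Int.abs_eq_natAbs]
    exact_mod_cast h1
  · rw [coeff_eq_zero_of_natDegree_lt (by omega), abs_zero]
    positivity

end E2

open E2 in
theorem e2 : E2 := by
  intro hE1 χ u hχ hχ0 hu
  obtain ⟨g, s, t, rr, m, D, v, hg, hg0, hbez, hrr, hm, hD, hann, hdec⟩ := hE1 χ u hχ hχ0 hu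
  obtain ⟨p0, T, q, w, hp0, hp3, hT, hper⟩ := exists_per hg hg0
  obtain ⟨B, hB⟩ := coeff_bound g
  -- growth
  have hgro : ∀ᶠ k : ℕ in Filter.atTop, ∀ j ∈ range m, ∀ b : ℕ,
      (m : ℤ) * m.factorial * |v j b| < 2 ^ (k * (b + 1)) := by
    rw [Filter.eventually_all_finset]
    intro j hj
    obtain ⟨A, hA1, hA⟩ := growth hg (hann j (mem_range.1 hj))
    filter_upwards [Filter.eventually_ge_atTop (m * m.factorial * A)] with k hk b
    have hmm : 1 ≤ m * m.factorial := Nat.mul_pos hm (Nat.factorial_pos m)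
    have h1 : (m * m.factorial) * A ^ (b + 1) ≤ (m * m.factorial * A) ^ (b + 1) := by
      rw [mul_pow]
      refine Nat.mul_le_mul_right _ ?_
      exact Nat.le_self_pow (by omega) _
    have h2 : m * m.factorial * A < 2 ^ k := lt_of_le_of_lt hk Nat.lt_two_pow_self
    have h3 : (m * m.factorial * A) ^ (b + 1) < (2 ^ k) ^ (b + 1) :=
      Nat.pow_lt_pow_left h2 (by omega)
    rw [← pow_mul] at h3
    have h4 : ((m * m.factorial * A ^ (b + 1) : ℕ) : ℤ) < ((2 ^ (k * (b + 1)) : ℕ) : ℤ) := by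
      exact_mod_cast lt_of_le_of_lt h1 h3
    push_cast at h4
    refine lt_of_le_of_lt ?_ h4
    exact mul_le_mul_of_nonneg_left (hA b) (by positivity)
  -- witnesses
  have hwit : ∀ᶠ k : ℕ in Filter.atTop, ∀ r ∈ range T, (∀ j < m, ∀ l, v j (r + T * l) = 0) ∨
      ∃ j < m, ∃ l, v j (r + T * l) ≠ 0 ∧ |v j (r + T * l)| < 3 ^ (k / 2) := by
    rw [Filter.eventually_all_finset]
    intro r _
    by_cases h : ∀ j < m, ∀ l, v j (r + T * l) = 0
    · exact Filter.Eventually.of_forall fun k => Or.inl h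
    · push Not at h
      obtain ⟨j, hj, l, hl⟩ := h
      filter_upwards [Filter.eventually_ge_atTop (2 * (v j (r + T * l)).natAbs)] with k hk
      refine Or.inr ⟨j, hj, l, hl, ?_⟩
      have h1 : (v j (r + T * l)).natAbs ≤ k / 2 := by omega
      have h2 : k / 2 < 3 ^ (k / 2) := Nat.lt_pow_self (by norm_num)
      have h3 : (((v j (r + T * l)).natAbs : ℕ) : ℤ) < ((3 ^ (k / 2) : ℕ) : ℤ) := by
        exact_mod_cast lt_of_le_of_lt h1 h2
      push_cast at h3
      exact h3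
  obtain ⟨k, k1, k2, k3, k4, k5, k6, k7⟩ := (hgro.and (hwit.and
    ((Filter.eventually_ge_atTop g.natDegree).and ((Filter.eventually_ge_atTop B).and
    ((Filter.eventually_ge_atTop rr.natAbs).and ((Filter.eventually_ge_atTop m).and
    (Filter.eventually_ge_atTop T))))))).exists
  refine ⟨k, g, s, t, q, w, rr, m, D, p0, T, v, ?_, fun r hr => k2 r (mem_range.2 hr)⟩
  refine ⟨hg, k3, fun i => (hB i).trans (by exact_mod_cast k4), hg0, hbez, hrr, ?_, hm, k6, hD,
    hann, hdec, fun j hj => k1 j (mem_range.2 hj), hp0, hp3, hT, k7, hper⟩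
  rw [Int.abs_eq_natAbs]
  exact_mod_cast k5

end Pool.Agent.TH997.US
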