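import Pool.Agent.TH997.US.Stm

/-!
# Dyadic sums of `1 / φ` are bounded
-/

set_option autoImplicit false

namespace Pool.Agent.TH997.US

open Polynomial Finset Pool.Agent.H692R2.USS
open scoped Classical

namespace A1

lemma tele (N : ℕ) (hN : 1 ≤ N) :
    ∏ m ∈ Finset.Icc 2 N, (1 - ((m : ℝ) ^ 2)⁻¹) = ((N : ℝ) + 1) / (2 * N) := by
  induction N, hN using Nat.le_induction with
  | base => norm_num
  | succ N hN ih =>
    have h0 : (N : ℝ) ≠ 0 := by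
      have : (1 : ℝ) ≤ N := by exact_mod_cast hN
      linarith
    have h1 : (N : ℝ) + 1 ≠ 0 := by
      have : (0 : ℝ) ≤ N := Nat.cast_nonneg N
      linarith
    rw [Finset.prod_Icc_succ_top (by omega), ih]
    push_cast
    field_simp
    ring

lemma fac_nonneg {m : ℕ} (hm : 2 ≤ m) : 0 ≤ 1 - ((m : ℝ) ^ 2)⁻¹ := by
  have h2 : (2 : ℝ) ≤ m := by exact_mod_cast hm
  have h3 : (1 : ℝ) ≤ (m : ℝ) ^ 2 := by nlinarith
  have := inv_le_one_of_one_le₀ h3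
  linarith

lemma fac_le {m : ℕ} : 1 - ((m : ℝ) ^ 2)⁻¹ ≤ 1 := by
  have : 0 ≤ ((m : ℝ) ^ 2)⁻¹ := by positivity
  linarith

lemma half_le (a : ℕ) (ha : 1 ≤ a) :
    (1 / 2 : ℝ) ≤ ∏ p ∈ a.primeFactors, (1 - ((p : ℝ) ^ 2)⁻¹) := by
  have hsub : a.primeFactors ⊆ Finset.Icc 2 a := by
    intro p hp
    rw [Finset.mem_Icc]
    exact ⟨(Nat.prime_of_mem_primeFactors hp).two_le, Nat.le_of_mem_primeFactors hp⟩
  have h1 := tele a ha
  have ha0 : (1 : ℝ) ≤ a := by exact_mod_cast ha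
  have h2 : (1 / 2 : ℝ) ≤ ((a : ℝ) + 1) / (2 * a) := by
    rw [div_le_div_iff₀ (by norm_num) (by linarith)]
    linarith
  rw [← h1, ← Finset.prod_sdiff hsub] at h2
  refine h2.trans (mul_le_of_le_one_left ?_ ?_)
  · exact Finset.prod_nonneg fun p hp => fac_nonneg (Finset.mem_Icc.1 (hsub hp)).1
  · refine Finset.prod_le_one (fun p hp => ?_) fun p _ => fac_le
    exact fac_nonneg (Finset.mem_Icc.1 (Finset.mem_sdiff.1 hp).1).1

/-- `d ↦ 1 / d` -/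
noncomputable def fI : ArithmeticFunction ℝ := ⟨fun d => (d : ℝ)⁻¹, by simp⟩

lemma fI_apply (d : ℕ) : fI d = ((d : ℕ) : ℝ)⁻¹ := rfl

lemma fI_mult : fI.IsMultiplicative :=
  ⟨by rw [fI_apply]; simp, fun {m n} _ => by
    rw [fI_apply, fI_apply, fI_apply, Nat.cast_mul, mul_inv]⟩

lemma S_le (a : ℕ) (ha : a ≠ 0) :
    ∏ p ∈ a.primeFactors, (1 + (p : ℝ)⁻¹) ≤ ∑ d ∈ a.divisors, ((d : ℕ) : ℝ)⁻¹ := by
  have h1 := fI_mult.prodPrimeFactors_one_add_of_squarefree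
    (n := UniqueFactorizationMonoid.radical a) UniqueFactorizationMonoid.squarefree_radical
  rw [Nat.primeFactors_radical] at h1
  simp only [fI_apply] at h1
  rw [h1]
  refine Finset.sum_le_sum_of_subset_of_nonneg
    (Nat.divisors_subset_of_dvd ha UniqueFactorizationMonoid.radical_dvd_self)
    fun d _ _ => by positivity

lemma phi_inv (a : ℕ) (ha : 1 ≤ a) :
    (1 : ℝ) / (Nat.totient a) ≤ 2 * (∑ d ∈ a.divisors, ((d : ℕ) : ℝ)⁻¹) / a := by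
  have ha0 : (0 : ℝ) < a := by exact_mod_cast ha
  have hφ : ((Nat.totient a : ℕ) : ℝ) = a * ∏ p ∈ a.primeFactors, (1 - (p : ℝ)⁻¹) := by
    have h := congrArg (Rat.cast : ℚ → ℝ) (Nat.totient_eq_mul_prod_factors a)
    push_cast at h
    exact h
  set P : ℝ := ∏ p ∈ a.primeFactors, (1 - (p : ℝ)⁻¹) with hP
  set S : ℝ := ∏ p ∈ a.primeFactors, (1 + (p : ℝ)⁻¹) with hS
  have hPS : P * S = ∏ p ∈ a.primeFactors, (1 - ((p : ℝ) ^ 2)⁻¹) := by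
    rw [hP, hS, ← Finset.prod_mul_distrib]
    refine Finset.prod_congr rfl fun p _ => ?_
    rw [← inv_pow]
    ring
  have hP0 : 0 < P := by
    refine Finset.prod_pos fun p hp => ?_
    have h2 : (2 : ℝ) ≤ p := by exact_mod_cast (Nat.prime_of_mem_primeFactors hp).two_le
    have := inv_lt_one_of_one_lt₀ (by linarith : (1 : ℝ) < p)
    linarith
  have h1 := half_le a ha
  rw [← hPS] at h1
  have h2 := S_le a (by omega)
  rw [← hS] at h2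
  rw [hφ, div_le_div_iff₀ (mul_pos ha0 hP0) ha0, one_mul]
  have h3 : P * S ≤ P * ∑ d ∈ a.divisors, ((d : ℕ) : ℝ)⁻¹ := mul_le_mul_of_nonneg_left h2 hP0.le
  nlinarith

lemma div_sum (N : ℕ) :
    ∑ a ∈ Finset.Ioc 0 N, ∑ d ∈ a.divisors, ((d : ℕ) : ℝ)⁻¹ ≤ 2 * N := by
  have h1 : ∑ a ∈ Finset.Ioc 0 N, ∑ d ∈ a.divisors, ((d : ℕ) : ℝ)⁻¹ =
      ∑ a ∈ Finset.Ioc 0 N, ∑ d ∈ Finset.Ioc 0 N, if d ∣ a then ((d : ℕ) : ℝ)⁻¹ else 0 := by
    refine Finset.sum_congr rfl fun a ha => ?_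
    rw [← Finset.sum_filter]
    refine Finset.sum_congr ?_ fun _ _ => rfl
    ext d
    rw [Finset.mem_Ioc] at ha
    rw [Nat.mem_divisors, Finset.mem_filter, Finset.mem_Ioc]
    constructor
    · rintro ⟨h, _⟩
      exact ⟨⟨Nat.pos_of_dvd_of_pos h ha.1, (Nat.le_of_dvd ha.1 h).trans ha.2⟩, h⟩
    · rintro ⟨_, h⟩
      exact ⟨h, by omega⟩
  rw [h1, Finset.sum_comm]
  have h2 : ∀ d ∈ Finset.Ioc 0 N, ∑ a ∈ Finset.Ioc 0 N, (if d ∣ a then ((d : ℕ) : ℝ)⁻¹ else 0) ≤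
      N * ((d : ℝ) ^ 2)⁻¹ := by
    intro d hd
    rw [Finset.mem_Ioc] at hd
    rw [← Finset.sum_filter, Finset.sum_const, Nat.Ioc_filter_dvd_card_eq_div, nsmul_eq_mul]
    have hd0 : (0 : ℝ) < d := by exact_mod_cast hd.1
    have h3 : ((N / d : ℕ) : ℝ) ≤ (N : ℝ) / d := Nat.cast_div_le
    calc ((N / d : ℕ) : ℝ) * ((d : ℕ) : ℝ)⁻¹ ≤ (N : ℝ) / d * ((d : ℕ) : ℝ)⁻¹ :=
          mul_le_mul_of_nonneg_right h3 (by positivity)
      _ = N * ((d : ℝ) ^ 2)⁻¹ := by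
          field_simp
  refine (Finset.sum_le_sum h2).trans ?_
  rw [← Finset.mul_sum]
  have h4 := sum_Ioo_inv_sq_le (α := ℝ) 0 (N + 1)
  have h5 : Finset.Ioo 0 (N + 1) = Finset.Ioc 0 N := by
    ext x
    rw [Finset.mem_Ioo, Finset.mem_Ioc]
    omega
  rw [h5] at h4
  have h6 : (0 : ℝ) ≤ N := Nat.cast_nonneg N
  norm_num at h4
  nlinarith

end A1

theorem a1 : A1 := by
  refine ⟨8, by norm_num, fun r => ?_⟩
  have h1 : ∀ a ∈ Finset.Ico (2 ^ r) (2 ^ (r + 1)), (1 : ℝ) / (Nat.totient a) ≤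
      2 / 2 ^ r * ∑ d ∈ a.divisors, ((d : ℕ) : ℝ)⁻¹ := by
    intro a ha
    rw [Finset.mem_Ico] at ha
    have hp : 1 ≤ 2 ^ r := Nat.one_le_two_pow
    refine (A1.phi_inv a (by omega)).trans ?_
    have h2 : ((2 : ℝ) ^ r) ≤ a := by exact_mod_cast ha.1
    have h3 : (0 : ℝ) < 2 ^ r := by positivity
    have h4 : 0 ≤ ∑ d ∈ a.divisors, ((d : ℕ) : ℝ)⁻¹ := Finset.sum_nonneg fun _ _ => by positivity
    rw [div_mul_eq_mul_div]
    exact div_le_div_of_nonneg_left (mul_nonneg (by norm_num) h4) h3 h2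
  refine (Finset.sum_le_sum h1).trans ?_
  rw [← Finset.mul_sum]
  have h2 : ∑ a ∈ Finset.Ico (2 ^ r) (2 ^ (r + 1)), ∑ d ∈ a.divisors, ((d : ℕ) : ℝ)⁻¹ ≤
      ∑ a ∈ Finset.Ioc 0 (2 ^ (r + 1)), ∑ d ∈ a.divisors, ((d : ℕ) : ℝ)⁻¹ := by
    refine Finset.sum_le_sum_of_subset_of_nonneg ?_ fun a _ _ =>
      Finset.sum_nonneg fun _ _ => by positivity
    intro a ha
    rw [Finset.mem_Ico] at ha
    rw [Finset.mem_Ioc]
    have hp : 1 ≤ 2 ^ r := Nat.one_le_two_pow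
    omega
  have h3 := A1.div_sum (2 ^ (r + 1))
  have h4 : (0 : ℝ) < 2 ^ r := by positivity
  refine (mul_le_mul_of_nonneg_left (h2.trans h3) (by positivity)).trans (le_of_eq ?_)
  push_cast
  rw [pow_succ]
  field_simp
  norm_num

end Pool.Agent.TH997.US
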