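import Pool.Agent.TH997.US.Stm

set_option autoImplicit false

/-!
# The gcd sum over pairs of primes

`gcd (p - 1, p' - 1) = ∑ φ(d)` over the common divisors `d`; the sum over `p = d a + 1`,
`p' = d b + 1` is split into dyadic blocks of `d`, `a`, `b`, and each block is bounded with the
Brun-Titchmarsh bound in two ways (the totients cancel).
-/

namespace Pool.Agent.TH997.US.A2

lemma sum_le_inj {ι κ : Type} (s : Finset ι) (t : Finset κ) (e : ι → κ) (f : ι → ℝ) (g : κ → ℝ)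
    (he : ∀ i ∈ s, e i ∈ t) (hinj : ∀ i ∈ s, ∀ j ∈ s, e i = e j → i = j)
    (hg : ∀ x ∈ t, 0 ≤ g x) (hfg : ∀ i ∈ s, f i ≤ g (e i)) :
    ∑ i ∈ s, f i ≤ ∑ x ∈ t, g x := by
  classical
  calc ∑ i ∈ s, f i ≤ ∑ i ∈ s, g (e i) := Finset.sum_le_sum hfg
    _ = ∑ x ∈ s.image e, g x :=
        (Finset.sum_image (fun i hi j hj h => hinj i hi j hj h)).symm
    _ ≤ ∑ x ∈ t, g x :=
        Finset.sum_le_sum_of_subset_of_nonneg (Finset.image_subset_iff.2 he)
          (fun x hx _ => hg x hx)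

/-- indicator of the primes -/
noncomputable def ind (n : ℕ) : ℝ := if n.Prime then 1 else 0

lemma ind_nonneg (n : ℕ) : 0 ≤ ind n := by unfold ind; split_ifs <;> norm_num

/-- dyadic blocks -/
def D (r : ℕ) : Finset ℕ := Finset.Ico (2 ^ r) (2 ^ (r + 1))

lemma D_pos {r a : ℕ} (h : a ∈ D r) : 1 ≤ a := by
  unfold D at h
  rw [Finset.mem_Ico] at h
  exact le_trans Nat.one_le_two_pow h.1

lemma D_le {r a : ℕ} (h : a ∈ D r) : (2 : ℝ) ^ r ≤ a := by
  unfold D at h
  rw [Finset.mem_Ico] at h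
  exact_mod_cast h.1

lemma mem_D_log {a : ℕ} (h : 1 ≤ a) : a ∈ D (Nat.log 2 a) := by
  unfold D
  rw [Finset.mem_Ico]
  exact ⟨Nat.pow_log_le_self 2 (by omega), Nat.lt_pow_succ_log_self (by norm_num) a⟩

/-- the summand -/
noncomputable def h (d a b : ℕ) : ℝ :=
  ind (d * a + 1) * ind (d * b + 1) * (Nat.totient d : ℝ) / (((d : ℝ) * a) * ((d : ℝ) * b))

lemma h_nonneg (d a b : ℕ) : 0 ≤ h d a b := by
  unfold h
  have := ind_nonneg (d * a + 1)
  have := ind_nonneg (d * b + 1)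
  positivity

lemma tot_pos {d : ℕ} (hd : 1 ≤ d) : (0 : ℝ) < (Nat.totient d : ℝ) := by
  exact_mod_cast Nat.totient_pos.2 hd

lemma sumA {C : ℝ} (hC : ∀ q l : ℕ, 1 ≤ q →
    (((Finset.Ico (2 ^ l) (2 ^ (l + 1))).filter (fun k => (q * k + 1).Prime)).card : ℝ) ≤
      C * ((q : ℝ) / (Nat.totient q)) * 2 ^ l / ((l : ℝ) + 1)) (q l : ℕ) (hq : 1 ≤ q) :
    ∑ a ∈ D l, ind (q * a + 1) / (a : ℝ) ≤ C * ((q : ℝ) / (Nat.totient q)) / ((l : ℝ) + 1) := by
  have h2 : (0 : ℝ) < 2 ^ l := by positivity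
  calc ∑ a ∈ D l, ind (q * a + 1) / (a : ℝ) ≤ ∑ a ∈ D l, ind (q * a + 1) / (2 : ℝ) ^ l := by
        apply Finset.sum_le_sum
        intro a ha
        exact div_le_div_of_nonneg_left (ind_nonneg _) h2 (D_le ha)
    _ = (∑ a ∈ D l, ind (q * a + 1)) / (2 : ℝ) ^ l := by rw [Finset.sum_div]
    _ = (((Finset.Ico (2 ^ l) (2 ^ (l + 1))).filter (fun k => (q * k + 1).Prime)).card : ℝ) /
          (2 : ℝ) ^ l := by
        congr 1
        unfold ind D
        rw [Finset.sum_boole]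
    _ ≤ (C * ((q : ℝ) / (Nat.totient q)) * 2 ^ l / ((l : ℝ) + 1)) / (2 : ℝ) ^ l :=
        div_le_div_of_nonneg_right (hC q l hq) h2.le
    _ = C * ((q : ℝ) / (Nat.totient q)) / ((l : ℝ) + 1) := by
        field_simp

/-- block sums -/
noncomputable def Bl (r l m : ℕ) : ℝ := ∑ d ∈ D r, ∑ a ∈ D l, ∑ b ∈ D m, h d a b

lemma Bl_eq (r l m : ℕ) : Bl r l m = ∑ d ∈ D r, (Nat.totient d : ℝ) / (d : ℝ) ^ 2 *
    ((∑ a ∈ D l, ind (d * a + 1) / (a : ℝ)) * (∑ b ∈ D m, ind (d * b + 1) / (b : ℝ))) := by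
  unfold Bl
  apply Finset.sum_congr rfl
  intro d hd
  rw [Finset.sum_mul_sum, Finset.mul_sum]
  apply Finset.sum_congr rfl
  intro a ha
  rw [Finset.mul_sum]
  apply Finset.sum_congr rfl
  intro b hb
  unfold h
  have h1 : (0 : ℝ) < d := by exact_mod_cast D_pos hd
  have h2 : (0 : ℝ) < a := by exact_mod_cast D_pos ha
  have h3 : (0 : ℝ) < b := by exact_mod_cast D_pos hb
  field_simp

lemma Bl1 {C C' : ℝ} (hC0 : 0 < C) (hC : ∀ q l : ℕ, 1 ≤ q →
    (((Finset.Ico (2 ^ l) (2 ^ (l + 1))).filter (fun k => (q * k + 1).Prime)).card : ℝ) ≤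
      C * ((q : ℝ) / (Nat.totient q)) * 2 ^ l / ((l : ℝ) + 1))
    (hI : ∀ r : ℕ, ∑ a ∈ Finset.Ico (2 ^ r) (2 ^ (r + 1)), (1 : ℝ) / (Nat.totient a) ≤ C')
    (r l m : ℕ) : Bl r l m ≤ C ^ 2 * C' / (((l : ℝ) + 1) * ((m : ℝ) + 1)) := by
  rw [Bl_eq]
  have hl : (0 : ℝ) < (l : ℝ) + 1 := by positivity
  have hm : (0 : ℝ) < (m : ℝ) + 1 := by positivity
  calc ∑ d ∈ D r, (Nat.totient d : ℝ) / (d : ℝ) ^ 2 *
      ((∑ a ∈ D l, ind (d * a + 1) / (a : ℝ)) * (∑ b ∈ D m, ind (d * b + 1) / (b : ℝ)))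
      ≤ ∑ d ∈ D r, C ^ 2 / (((l : ℝ) + 1) * ((m : ℝ) + 1)) * (1 / (Nat.totient d : ℝ)) := by
        apply Finset.sum_le_sum
        intro d hd
        have h1 : (0 : ℝ) < d := by exact_mod_cast D_pos hd
        have h2 := tot_pos (D_pos hd)
        have h3 := sumA hC d l (D_pos hd)
        have h4 := sumA hC d m (D_pos hd)
        have h5 : 0 ≤ ∑ b ∈ D m, ind (d * b + 1) / (b : ℝ) :=
          Finset.sum_nonneg fun b _ => div_nonneg (ind_nonneg _) (by positivity)
        calc (Nat.totient d : ℝ) / (d : ℝ) ^ 2 *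
            ((∑ a ∈ D l, ind (d * a + 1) / (a : ℝ)) * (∑ b ∈ D m, ind (d * b + 1) / (b : ℝ)))
            ≤ (Nat.totient d : ℝ) / (d : ℝ) ^ 2 *
              ((C * ((d : ℝ) / (Nat.totient d)) / ((l : ℝ) + 1)) *
                (C * ((d : ℝ) / (Nat.totient d)) / ((m : ℝ) + 1))) := by
              apply mul_le_mul_of_nonneg_left _ (by positivity)
              exact mul_le_mul h3 h4 h5 (by positivity)
          _ = C ^ 2 / (((l : ℝ) + 1) * ((m : ℝ) + 1)) * (1 / (Nat.totient d : ℝ)) := by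
              field_simp
    _ = C ^ 2 / (((l : ℝ) + 1) * ((m : ℝ) + 1)) * ∑ d ∈ D r, (1 / (Nat.totient d : ℝ)) := by
        rw [Finset.mul_sum]
    _ ≤ C ^ 2 / (((l : ℝ) + 1) * ((m : ℝ) + 1)) * C' :=
        mul_le_mul_of_nonneg_left (hI r) (by positivity)
    _ = C ^ 2 * C' / (((l : ℝ) + 1) * ((m : ℝ) + 1)) := by ring

lemma Bl2 {C C' : ℝ} (hC0 : 0 < C) (hC : ∀ q l : ℕ, 1 ≤ q →
    (((Finset.Ico (2 ^ l) (2 ^ (l + 1))).filter (fun k => (q * k + 1).Prime)).card : ℝ) ≤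
      C * ((q : ℝ) / (Nat.totient q)) * 2 ^ l / ((l : ℝ) + 1))
    (hI : ∀ r : ℕ, ∑ a ∈ Finset.Ico (2 ^ r) (2 ^ (r + 1)), (1 : ℝ) / (Nat.totient a) ≤ C')
    (r l m : ℕ) : Bl r l m ≤ C ^ 2 * C' / (((r : ℝ) + 1) * ((m : ℝ) + 1)) := by
  rw [Bl_eq]
  have hr : (0 : ℝ) < (r : ℝ) + 1 := by positivity
  have hm : (0 : ℝ) < (m : ℝ) + 1 := by positivity
  calc ∑ d ∈ D r, (Nat.totient d : ℝ) / (d : ℝ) ^ 2 *
      ((∑ a ∈ D l, ind (d * a + 1) / (a : ℝ)) * (∑ b ∈ D m, ind (d * b + 1) / (b : ℝ)))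
      ≤ ∑ d ∈ D r, ∑ a ∈ D l, C / ((m : ℝ) + 1) * ((1 / (a : ℝ)) * (ind (a * d + 1) / (d : ℝ))) := by
        apply Finset.sum_le_sum
        intro d hd
        have h1 : (0 : ℝ) < d := by exact_mod_cast D_pos hd
        have h2 := tot_pos (D_pos hd)
        have h4 := sumA hC d m (D_pos hd)
        have h5 : 0 ≤ ∑ a ∈ D l, ind (d * a + 1) / (a : ℝ) :=
          Finset.sum_nonneg fun b _ => div_nonneg (ind_nonneg _) (by positivity)
        calc (Nat.totient d : ℝ) / (d : ℝ) ^ 2 *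
            ((∑ a ∈ D l, ind (d * a + 1) / (a : ℝ)) * (∑ b ∈ D m, ind (d * b + 1) / (b : ℝ)))
            ≤ (Nat.totient d : ℝ) / (d : ℝ) ^ 2 *
              ((∑ a ∈ D l, ind (d * a + 1) / (a : ℝ)) *
                (C * ((d : ℝ) / (Nat.totient d)) / ((m : ℝ) + 1))) := by
              apply mul_le_mul_of_nonneg_left _ (by positivity)
              exact mul_le_mul_of_nonneg_left h4 h5
          _ = C / ((m : ℝ) + 1) * (1 / (d : ℝ)) * (∑ a ∈ D l, ind (d * a + 1) / (a : ℝ)) := by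
              field_simp
          _ = ∑ a ∈ D l, C / ((m : ℝ) + 1) * ((1 / (a : ℝ)) * (ind (a * d + 1) / (d : ℝ))) := by
              rw [Finset.mul_sum]
              apply Finset.sum_congr rfl
              intro a ha
              rw [mul_comm a d]
              ring
    _ = ∑ a ∈ D l, C / ((m : ℝ) + 1) * ((1 / (a : ℝ)) * ∑ d ∈ D r, ind (a * d + 1) / (d : ℝ)) := by
        rw [Finset.sum_comm]
        apply Finset.sum_congr rfl
        intro a _
        rw [Finset.mul_sum, Finset.mul_sum]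
    _ ≤ ∑ a ∈ D l, C ^ 2 / (((r : ℝ) + 1) * ((m : ℝ) + 1)) * (1 / (Nat.totient a : ℝ)) := by
        apply Finset.sum_le_sum
        intro a ha
        have h1 : (0 : ℝ) < a := by exact_mod_cast D_pos ha
        have h2 := tot_pos (D_pos ha)
        calc C / ((m : ℝ) + 1) * ((1 / (a : ℝ)) * ∑ d ∈ D r, ind (a * d + 1) / (d : ℝ))
            ≤ C / ((m : ℝ) + 1) * ((1 / (a : ℝ)) *
              (C * ((a : ℝ) / (Nat.totient a)) / ((r : ℝ) + 1))) := by
              apply mul_le_mul_of_nonneg_left _ (by positivity)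
              exact mul_le_mul_of_nonneg_left (sumA hC a r (D_pos ha)) (by positivity)
          _ = C ^ 2 / (((r : ℝ) + 1) * ((m : ℝ) + 1)) * (1 / (Nat.totient a : ℝ)) := by
              field_simp
    _ = C ^ 2 / (((r : ℝ) + 1) * ((m : ℝ) + 1)) * ∑ d ∈ D l, (1 / (Nat.totient d : ℝ)) := by
        rw [Finset.mul_sum]
    _ ≤ C ^ 2 / (((r : ℝ) + 1) * ((m : ℝ) + 1)) * C' :=
        mul_le_mul_of_nonneg_left (hI l) (by positivity)
    _ = C ^ 2 * C' / (((r : ℝ) + 1) * ((m : ℝ) + 1)) := by ring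

/-- the weight -/
noncomputable def w (r l m : ℕ) : ℝ :=
  1 / (((max r l : ℕ) : ℝ) + 1) / ((m : ℝ) + 1) / ((r : ℝ) + m + 1)

lemma sq_sum (n : ℕ) : ∑ r ∈ Finset.range n, ∑ l ∈ Finset.range n,
    1 / (((max r l : ℕ) : ℝ) + 1) ≤ 2 * n := by
  induction n with
  | zero => simp
  | succ n ih =>
    have h0 : (0 : ℝ) < (n : ℝ) + 1 := by positivity
    have h1 : ∑ r ∈ Finset.range n, ∑ l ∈ Finset.range (n + 1), 1 / (((max r l : ℕ) : ℝ) + 1) =
        ∑ r ∈ Finset.range n, ∑ l ∈ Finset.range n, 1 / (((max r l : ℕ) : ℝ) + 1) +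
          n * (1 / ((n : ℝ) + 1)) := by
      simp only [Finset.sum_range_succ]
      rw [Finset.sum_add_distrib]
      congr 1
      rw [Finset.sum_congr rfl (g := fun _ => 1 / ((n : ℝ) + 1))]
      · simp
      · intro r hr
        rw [Finset.mem_range] at hr
        rw [max_eq_right hr.le]
    have h2 : ∑ l ∈ Finset.range (n + 1), 1 / (((max n l : ℕ) : ℝ) + 1) =
        (n + 1) * (1 / ((n : ℝ) + 1)) := by
      rw [Finset.sum_congr rfl (g := fun _ => 1 / ((n : ℝ) + 1))]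
      · simp
      · intro r hr
        rw [Finset.mem_range] at hr
        rw [max_eq_left (by omega)]
    rw [Finset.sum_range_succ, h1, h2]
    have h3 : (n : ℝ) * (1 / ((n : ℝ) + 1)) ≤ 1 := by
      rw [mul_one_div, div_le_one h0]; linarith
    have h4 : ((n : ℝ) + 1) * (1 / ((n : ℝ) + 1)) = 1 := by field_simp
    have h5 : ((n + 1 : ℕ) : ℝ) = (n : ℝ) + 1 := by push_cast; ring
    rw [h4, h5]
    linarith

lemma w_sum (L : ℕ) : ∑ m ∈ Finset.range L, ∑ r ∈ Finset.range L,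
    ∑ l ∈ Finset.range (m + 1), w r l m ≤ 3 * ∑ m ∈ Finset.range L, 1 / ((m : ℝ) + 1) := by
  have key : ∀ m ∈ Finset.range L, ∑ r ∈ Finset.range L, ∑ l ∈ Finset.range (m + 1), w r l m ≤
      2 * (1 / ((m : ℝ) + 1)) +
        ∑ r ∈ Finset.range L, (if m < r then 1 / ((r : ℝ) + 1) ^ 2 else 0) := by
    intro m hm
    rw [Finset.mem_range] at hm
    have hm0 : (0 : ℝ) < (m : ℝ) + 1 := by positivity
    have hsub : Finset.range (m + 1) ⊆ Finset.range L := by
      intro x hx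
      rw [Finset.mem_range] at hx ⊢
      omega
    have h1 : ∀ r ∈ Finset.range L, ∑ l ∈ Finset.range (m + 1), w r l m ≤
        (if r < m + 1 then ∑ l ∈ Finset.range (m + 1),
          1 / (((max r l : ℕ) : ℝ) + 1) / ((m : ℝ) + 1) / ((m : ℝ) + 1) else 0) +
        (if m < r then 1 / ((r : ℝ) + 1) ^ 2 else 0) := by
      intro r _
      by_cases hr : r < m + 1
      · rw [if_pos hr, if_neg (by omega), add_zero]
        apply Finset.sum_le_sum
        intro l _
        unfold w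
        apply div_le_div_of_nonneg_left (by positivity) hm0
        have : (0 : ℝ) ≤ r := by positivity
        linarith
      · rw [if_neg hr, if_pos (by omega), zero_add]
        have hr0 : (0 : ℝ) < (r : ℝ) + 1 := by positivity
        calc ∑ l ∈ Finset.range (m + 1), w r l m ≤
            ∑ l ∈ Finset.range (m + 1), 1 / ((r : ℝ) + 1) ^ 2 / ((m : ℝ) + 1) := by
              apply Finset.sum_le_sum
              intro l hl
              rw [Finset.mem_range] at hl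
              unfold w
              rw [max_eq_left (by omega)]
              calc 1 / ((r : ℝ) + 1) / ((m : ℝ) + 1) / ((r : ℝ) + m + 1) ≤
                  1 / ((r : ℝ) + 1) / ((m : ℝ) + 1) / ((r : ℝ) + 1) := by
                    apply div_le_div_of_nonneg_left (by positivity) hr0
                    have : (0 : ℝ) ≤ m := by positivity
                    linarith
                _ = 1 / ((r : ℝ) + 1) ^ 2 / ((m : ℝ) + 1) := by
                    field_simp
          _ = 1 / ((r : ℝ) + 1) ^ 2 := by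
              rw [Finset.sum_const, Finset.card_range, nsmul_eq_mul]
              push_cast
              field_simp
    refine (Finset.sum_le_sum h1).trans ?_
    rw [Finset.sum_add_distrib]
    apply add_le_add_left
    rw [← Finset.sum_filter]
    have h2 : (Finset.range L).filter (fun r => r < m + 1) = Finset.range (m + 1) := by
      ext x
      rw [Finset.mem_filter, Finset.mem_range, Finset.mem_range]
      omega
    rw [h2]
    have h3 : ∑ r ∈ Finset.range (m + 1), ∑ l ∈ Finset.range (m + 1),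
        1 / (((max r l : ℕ) : ℝ) + 1) / ((m : ℝ) + 1) / ((m : ℝ) + 1) =
        (∑ r ∈ Finset.range (m + 1), ∑ l ∈ Finset.range (m + 1),
        1 / (((max r l : ℕ) : ℝ) + 1)) / ((m : ℝ) + 1) / ((m : ℝ) + 1) := by
      simp only [Finset.sum_div]
    rw [h3]
    have h4 := sq_sum (m + 1)
    push_cast at h4
    calc (∑ r ∈ Finset.range (m + 1), ∑ l ∈ Finset.range (m + 1),
        1 / (((max r l : ℕ) : ℝ) + 1)) / ((m : ℝ) + 1) / ((m : ℝ) + 1) ≤
        (2 * ((m : ℝ) + 1)) / ((m : ℝ) + 1) / ((m : ℝ) + 1) := by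
          push_cast
          gcongr
      _ = 2 * (1 / ((m : ℝ) + 1)) := by field_simp
  refine (Finset.sum_le_sum key).trans ?_
  rw [Finset.sum_add_distrib, ← Finset.mul_sum, Finset.sum_comm]
  have h5 : ∑ r ∈ Finset.range L, ∑ m ∈ Finset.range L,
      (if m < r then 1 / ((r : ℝ) + 1) ^ 2 else 0) ≤ ∑ r ∈ Finset.range L, 1 / ((r : ℝ) + 1) := by
    apply Finset.sum_le_sum
    intro r hr
    rw [Finset.mem_range] at hr
    rw [← Finset.sum_filter]
    have h2 : (Finset.range L).filter (fun m => m < r) = Finset.range r := by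
      ext x
      rw [Finset.mem_filter, Finset.mem_range, Finset.mem_range]
      omega
    rw [h2, Finset.sum_const, Finset.card_range, nsmul_eq_mul]
    have hr0 : (0 : ℝ) < (r : ℝ) + 1 := by positivity
    rw [mul_one_div, div_le_div_iff₀ (by positivity) hr0]
    nlinarith
  linarith

lemma harm (L : ℕ) : ∑ m ∈ Finset.range L, 1 / ((m : ℝ) + 1) ≤ 1 + Real.log ((L : ℝ) + 1) := by
  have h1 := harmonic_le_one_add_log L
  have h2 : ((harmonic L : ℚ) : ℝ) = ∑ m ∈ Finset.range L, 1 / ((m : ℝ) + 1) := by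
    unfold harmonic
    push_cast
    apply Finset.sum_congr rfl
    intro i _
    rw [one_div]
  rw [h2] at h1
  refine h1.trans ?_
  rcases Nat.eq_zero_or_pos L with h | h
  · subst h; simp
  · have : (0 : ℝ) < L := by exact_mod_cast h
    have := Real.log_le_log this (by linarith : (L : ℝ) ≤ (L : ℝ) + 1)
    linarith

/-- target index set -/
def B (L : ℕ) : Finset (ℕ × ℕ × ℕ) :=
  (Finset.range L ×ˢ Finset.range L ×ˢ Finset.range L).filter (fun x => x.2.2 ≤ x.1)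

lemma B_sum (L : ℕ) (F : ℕ → ℕ → ℕ → ℝ) : ∑ x ∈ B L, F x.2.1 x.2.2 x.1 =
    ∑ m ∈ Finset.range L, ∑ r ∈ Finset.range L, ∑ l ∈ Finset.range (m + 1), F r l m := by
  unfold B
  rw [Finset.sum_filter, Finset.sum_product]
  apply Finset.sum_congr rfl
  intro m hm
  rw [Finset.sum_product]
  apply Finset.sum_congr rfl
  intro r hr
  simp only
  rw [← Finset.sum_filter]
  apply Finset.sum_congr _ (fun _ _ => rfl)
  ext x
  rw [Finset.mem_range] at hm
  rw [Finset.mem_filter, Finset.mem_range, Finset.mem_range]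
  omega

lemma pair_sum (L : ℕ) :
    ∑ p' ∈ (Finset.range (2 ^ L)).filter Nat.Prime, ∑ p ∈ (Finset.range p').filter Nat.Prime,
    ((Nat.gcd (p - 1) (p' - 1) : ℕ) : ℝ) /
      (((p : ℝ) - 1) * ((p' : ℝ) - 1) * ((Nat.log 2 p' : ℝ) + 1)) ≤
    ∑ x ∈ B L, Bl x.2.1 x.2.2 x.1 / ((x.2.1 : ℝ) + x.1 + 1) := by
  have hL : ∑ p' ∈ (Finset.range (2 ^ L)).filter Nat.Prime,
      ∑ p ∈ (Finset.range p').filter Nat.Prime,
      ((Nat.gcd (p - 1) (p' - 1) : ℕ) : ℝ) /
        (((p : ℝ) - 1) * ((p' : ℝ) - 1) * ((Nat.log 2 p' : ℝ) + 1)) =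
      ∑ x ∈ ((Finset.range (2 ^ L)).filter Nat.Prime).sigma (fun p' =>
        ((Finset.range p').filter Nat.Prime).sigma (fun p =>
          (Nat.gcd (p - 1) (p' - 1)).divisors)),
        (Nat.totient x.2.2 : ℝ) /
          (((x.2.1 : ℝ) - 1) * ((x.1 : ℝ) - 1) * ((Nat.log 2 x.1 : ℝ) + 1)) := by
    rw [Finset.sum_sigma]
    apply Finset.sum_congr rfl
    intro p' _
    rw [Finset.sum_sigma]
    apply Finset.sum_congr rfl
    intro p _
    simp only
    rw [← Finset.sum_div]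
    congr 1
    conv_lhs => rw [← Nat.sum_totient (Nat.gcd (p - 1) (p' - 1))]
    push_cast
    rfl
  have hR : ∑ x ∈ B L, Bl x.2.1 x.2.2 x.1 / ((x.2.1 : ℝ) + x.1 + 1) =
      ∑ y ∈ (B L).sigma (fun x => D x.2.1 ×ˢ D x.2.2 ×ˢ D x.1),
        h y.2.1 y.2.2.1 y.2.2.2 / ((y.1.2.1 : ℝ) + y.1.1 + 1) := by
    rw [Finset.sum_sigma]
    apply Finset.sum_congr rfl
    intro x _
    unfold Bl
    rw [Finset.sum_product, Finset.sum_div]
    apply Finset.sum_congr rfl
    intro d _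
    rw [Finset.sum_product, Finset.sum_div]
    apply Finset.sum_congr rfl
    intro a _
    rw [Finset.sum_div]
  rw [hL, hR]
  have hfact : ∀ x ∈ ((Finset.range (2 ^ L)).filter Nat.Prime).sigma (fun p' =>
        ((Finset.range p').filter Nat.Prime).sigma (fun p =>
          (Nat.gcd (p - 1) (p' - 1)).divisors)),
      x.1 < 2 ^ L ∧ x.1.Prime ∧ x.2.1 < x.1 ∧ x.2.1.Prime ∧ 1 ≤ x.2.2 ∧
        x.2.2 * ((x.2.1 - 1) / x.2.2) = x.2.1 - 1 ∧ x.2.2 * ((x.1 - 1) / x.2.2) = x.1 - 1 := by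
    intro x hx
    rw [Finset.mem_sigma, Finset.mem_sigma, Finset.mem_filter, Finset.mem_range,
      Finset.mem_filter, Finset.mem_range, Nat.mem_divisors] at hx
    obtain ⟨⟨h1, h2⟩, ⟨h3, h4⟩, h5, h6⟩ := hx
    have h7 := Nat.dvd_gcd_iff.1 h5
    refine ⟨h1, h2, h3, h4, Nat.pos_of_ne_zero ?_, Nat.mul_div_cancel' h7.1,
      Nat.mul_div_cancel' h7.2⟩
    intro h8
    rw [h8] at h5
    exact h6 (Nat.eq_zero_of_zero_dvd h5)
  refine sum_le_inj _ _ (fun x => ⟨(Nat.log 2 ((x.1 - 1) / x.2.2), Nat.log 2 x.2.2,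
    Nat.log 2 ((x.2.1 - 1) / x.2.2)), (x.2.2, (x.2.1 - 1) / x.2.2, (x.1 - 1) / x.2.2)⟩)
    _ _ ?_ ?_ ?_ ?_
  · intro x hx
    obtain ⟨h1, h2, h3, h4, h5, h6, h7⟩ := hfact x hx
    have hp := h4.two_le
    have hp' := h2.two_le
    generalize (x.2.1 - 1) / x.2.2 = a at h6
    generalize (x.1 - 1) / x.2.2 = b at h7
    have ha : 1 ≤ a := by
      rcases Nat.eq_zero_or_pos a with h | h
      · rw [h] at h6; omega
      · exact h
    have hab : a < b := by
      have : x.2.2 * a < x.2.2 * b := by omega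
      exact lt_of_mul_lt_mul_left this (Nat.zero_le _)
    have hb : 1 ≤ b := by omega
    have hbl : b < 2 ^ L := by
      have : b ≤ x.2.2 * b := Nat.le_mul_of_pos_left b h5
      omega
    have hdl : x.2.2 < 2 ^ L := by
      have : x.2.2 ≤ x.2.2 * b := Nat.le_mul_of_pos_right _ hb
      omega
    rw [Finset.mem_sigma]
    refine ⟨?_, ?_⟩
    · unfold B
      rw [Finset.mem_filter, Finset.mem_product, Finset.mem_product, Finset.mem_range,
        Finset.mem_range, Finset.mem_range]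
      simp only
      have e1 : Nat.log 2 b < L := Nat.log_lt_of_lt_pow (by omega) hbl
      have e2 : Nat.log 2 a ≤ Nat.log 2 b := Nat.log_mono_right hab.le
      exact ⟨⟨e1, Nat.log_lt_of_lt_pow (by omega) hdl, by omega⟩, e2⟩
    · rw [Finset.mem_product, Finset.mem_product]
      exact ⟨mem_D_log h5, mem_D_log ha, mem_D_log hb⟩
  · intro x hx y hy hxy
    obtain ⟨h1, h2, h3, h4, h5, h6, h7⟩ := hfact x hx
    obtain ⟨g1, g2, g3, g4, g5, g6, g7⟩ := hfact y hy
    simp only [Sigma.mk.injEq, heq_eq_eq, Prod.mk.injEq] at hxy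
    obtain ⟨_, k1, k2, k3⟩ := hxy
    rw [k2, k1, g6] at h6
    rw [k3, k1, g7] at h7
    have hp := h4.two_le
    have hp' := h2.two_le
    have gp := g4.two_le
    have gp' := g2.two_le
    have e1 : x.1 = y.1 := by omega
    have e2 : x.2.1 = y.2.1 := by omega
    rcases x with ⟨x1, x2, x3⟩
    rcases y with ⟨y1, y2, y3⟩
    simp only at e1 e2 k1
    subst e1 e2 k1
    rfl
  · intro y _
    have := h_nonneg y.2.1 y.2.2.1 y.2.2.2
    positivity
  · intro x hx
    obtain ⟨h1, h2, h3, h4, h5, h6, h7⟩ := hfact x hx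
    have hp := h4.two_le
    have hp' := h2.two_le
    simp only
    generalize hae : (x.2.1 - 1) / x.2.2 = a at h6
    generalize hbe : (x.1 - 1) / x.2.2 = b at h7
    have ha : 1 ≤ a := by
      rcases Nat.eq_zero_or_pos a with h | h
      · rw [h] at h6; omega
      · exact h
    have hab : a < b := by
      have : x.2.2 * a < x.2.2 * b := by omega
      exact lt_of_mul_lt_mul_left this (Nat.zero_le _)
    have hb : 1 ≤ b := by omega
    have e1 : x.2.2 * a + 1 = x.2.1 := by omega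
    have e2 : x.2.2 * b + 1 = x.1 := by omega
    have e3 : (x.2.1 : ℝ) - 1 = (x.2.2 : ℝ) * a := by
      rw [← e1]; push_cast; ring
    have e4 : (x.1 : ℝ) - 1 = (x.2.2 : ℝ) * b := by
      have : (x.1 : ℝ) = ((x.2.2 * b + 1 : ℕ) : ℝ) := by rw [e2]
      rw [this]; push_cast; ring
    unfold h
    rw [e1, e2, e3, e4]
    unfold ind
    rw [if_pos h4, if_pos h2, one_mul, one_mul, div_div]
    have hlog : Nat.log 2 x.2.2 + Nat.log 2 b ≤ Nat.log 2 x.1 := by
      apply Nat.le_log_of_pow_le (by norm_num)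
      rw [pow_add]
      calc 2 ^ Nat.log 2 x.2.2 * 2 ^ Nat.log 2 b ≤ x.2.2 * b :=
            Nat.mul_le_mul (Nat.pow_log_le_self 2 (by omega)) (Nat.pow_log_le_self 2 (by omega))
        _ ≤ x.1 := by omega
    have hlog' : (Nat.log 2 x.2.2 : ℝ) + (Nat.log 2 b : ℝ) ≤ (Nat.log 2 x.1 : ℝ) := by
      exact_mod_cast hlog
    have hd0 : (0 : ℝ) < x.2.2 := by exact_mod_cast h5
    have ha0 : (0 : ℝ) < a := by exact_mod_cast ha
    have hb0 : (0 : ℝ) < b := by exact_mod_cast hb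
    apply div_le_div_of_nonneg_left (by positivity) (by positivity)
    apply mul_le_mul_of_nonneg_left _ (by positivity)
    linarith

end Pool.Agent.TH997.US.A2

namespace Pool.Agent.TH997.US

open Polynomial Finset Pool.Agent.H692R2.USS
open scoped Classical

theorem a2 : A2 := by
  intro hBT hIT
  obtain ⟨C, hC0, hC⟩ := hBT
  obtain ⟨C', hC'0, hI⟩ := hIT
  refine ⟨3 * (C ^ 2 * C'), by positivity, fun L => ?_⟩
  have hC2 : 0 ≤ C ^ 2 * C' := by positivity
  have hC1 : ∀ q l : ℕ, 1 ≤ q →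
    (((Finset.Ico (2 ^ l) (2 ^ (l + 1))).filter (fun k => (q * k + 1).Prime)).card : ℝ) ≤
      C * ((q : ℝ) / (Nat.totient q)) * 2 ^ l / ((l : ℝ) + 1) := by
    intro q l hq
    refine le_trans (le_of_eq ?_) (hC q l hq)
    congr!
  have h1 : ∑ p' ∈ (Finset.range (2 ^ L)).filter Nat.Prime,
      ∑ p ∈ (Finset.range p').filter Nat.Prime,
    ((Nat.gcd (p - 1) (p' - 1) : ℕ) : ℝ) /
      (((p : ℝ) - 1) * ((p' : ℝ) - 1) * ((Nat.log 2 p' : ℝ) + 1)) ≤
      3 * (C ^ 2 * C') * (1 + Real.log ((L : ℝ) + 1)) := by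
    refine (A2.pair_sum L).trans ?_
    calc ∑ x ∈ A2.B L, A2.Bl x.2.1 x.2.2 x.1 / ((x.2.1 : ℝ) + x.1 + 1) ≤
        ∑ x ∈ A2.B L, C ^ 2 * C' * A2.w x.2.1 x.2.2 x.1 := by
          apply Finset.sum_le_sum
          intro x _
          have h3 : A2.Bl x.2.1 x.2.2 x.1 ≤
              C ^ 2 * C' / (((max x.2.1 x.2.2 : ℕ) : ℝ) + 1) / ((x.1 : ℝ) + 1) := by
            rw [div_div]
            rcases le_total x.2.1 x.2.2 with h4 | h4
            · rw [max_eq_right h4]
              exact A2.Bl1 hC0 hC1 hI _ _ _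
            · rw [max_eq_left h4]
              exact A2.Bl2 hC0 hC1 hI _ _ _
          calc A2.Bl x.2.1 x.2.2 x.1 / ((x.2.1 : ℝ) + x.1 + 1) ≤
              C ^ 2 * C' / (((max x.2.1 x.2.2 : ℕ) : ℝ) + 1) / ((x.1 : ℝ) + 1) /
                ((x.2.1 : ℝ) + x.1 + 1) := div_le_div_of_nonneg_right h3 (by positivity)
            _ = C ^ 2 * C' * A2.w x.2.1 x.2.2 x.1 := by
              unfold A2.w
              ring
      _ = C ^ 2 * C' * ∑ x ∈ A2.B L, A2.w x.2.1 x.2.2 x.1 := by rw [Finset.mul_sum]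
      _ ≤ C ^ 2 * C' * (3 * ∑ m ∈ Finset.range L, 1 / ((m : ℝ) + 1)) := by
          apply mul_le_mul_of_nonneg_left _ hC2
          rw [A2.B_sum L A2.w]
          exact A2.w_sum L
      _ ≤ C ^ 2 * C' * (3 * (1 + Real.log ((L : ℝ) + 1))) := by
          apply mul_le_mul_of_nonneg_left _ hC2
          apply mul_le_mul_of_nonneg_left (A2.harm L) (by norm_num)
      _ = 3 * (C ^ 2 * C') * (1 + Real.log ((L : ℝ) + 1)) := by ring
  refine le_trans (le_of_eq ?_) h1
  congr!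

end Pool.Agent.TH997.US
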