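import Pool.Agent.TH997.US.Stm
import Pool.Agent.H692R2.USS.T1
import Pool.Agent.H692R2.USS.T5
import Pool.Agent.H692R2.USS.SplitField

set_option autoImplicit false

/-!
# Universal Skolem sets of density one: primes splitting all small polynomials have mass
-/

namespace Pool.Agent.TH997.US

open Polynomial Finset Pool.Agent.H692R2.USS
open scoped Classical

theorem mass (k : ℕ) : Mass k := by
  obtain ⟨K, iF, iN, hK⟩ := splitField k
  obtain ⟨c, C, hc, h⟩ := massK bt K
  refine ⟨c, C, hc, fun L hL => (h L hL).trans ?_⟩
  apply Finset.sum_le_sum_of_subset_of_nonneg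
  · intro p hp
    simp only [Finset.mem_filter] at hp ⊢
    exact ⟨hp.1, hp.2.1, hK p hp.2.1 hp.2.2⟩
  · intro p _ _
    positivity

end Pool.Agent.TH997.US
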