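import Pool.Agent.TH997.US.Stm

set_option autoImplicit false

/-!
# One block of primes catches almost all integers (second moment)
-/

namespace Pool.Agent.TH997.US.A4

open Finset
open scoped Classical

/-- the number of `n < M` in a residue class modulo a divisor of `M` -/
theorem card_class (M q r : ℕ) (hq : 0 < q) (hM : q ∣ M) :
    ((range M).filter (fun n => n ≡ r [MOD q])).card = M / q := by
  rw [← Nat.count_eq_card_filter_range, Nat.count_modEq_card _ hq]
  have : M % q = 0 := Nat.mod_eq_zero_of_dvd hM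
  simp [this]

theorem single (M d : ℕ) (I : Finset ℕ) (hd : 0 < d) (hM : d ∣ M) (hI : ∀ b ∈ I, b < d) :
    (((range M).filter (fun n => n % d ∈ I)).card : ℝ) = M * ((I.card : ℝ) / d) := by
  have h1 : (range M).filter (fun n => n % d ∈ I) =
      I.biUnion (fun b => (range M).filter (fun n => n ≡ b [MOD d])) := by
    ext n
    simp only [mem_filter, mem_biUnion]
    constructor
    · rintro ⟨h, h'⟩
      exact ⟨n % d, h', h, (Nat.mod_modEq n d).symm⟩
    · rintro ⟨b, hb, h, h'⟩
      refine ⟨h, ?_⟩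
      have : n % d = b := by
        rw [Nat.ModEq] at h'
        rw [h', Nat.mod_eq_of_lt (hI b hb)]
      rwa [this]
  rw [h1, card_biUnion]
  · rw [sum_congr rfl (fun b _ => card_class M d b hd hM), sum_const, smul_eq_mul]
    have : ((M / d : ℕ) : ℝ) = (M : ℝ) / d := Nat.cast_div_charZero hM
    push_cast [this]
    ring
  · intro b hb c hc hbc
    simp only [Function.onFun]
    rw [Finset.disjoint_left]
    intro n hn hn'
    simp only [mem_filter] at hn hn'
    apply hbc
    have h2 : b ≡ c [MOD d] := hn.2.symm.trans hn'.2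
    rw [Nat.ModEq, Nat.mod_eq_of_lt (hI b hb), Nat.mod_eq_of_lt (hI c hc)] at h2
    exact h2

theorem pair_class (M d d' b b' : ℕ) (hd : 0 < d) (hd' : 0 < d') (hM : d ∣ M) (hM' : d' ∣ M) :
    ((range M).filter (fun n => n % d = b ∧ n % d' = b')).card ≤
      if b ≡ b' [MOD Nat.gcd d d'] then M / Nat.lcm d d' else 0 := by
  by_cases hne : ((range M).filter (fun n => n % d = b ∧ n % d' = b')).Nonempty
  · obtain ⟨m, hm⟩ := hne
    simp only [mem_filter] at hm
    have hb : b ≡ b' [MOD Nat.gcd d d'] := by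
      have h1 : m ≡ b [MOD Nat.gcd d d'] := by
        have : m ≡ b [MOD d] := by rw [← hm.2.1]; exact (Nat.mod_modEq m d).symm
        exact this.of_dvd (Nat.gcd_dvd_left d d')
      have h2 : m ≡ b' [MOD Nat.gcd d d'] := by
        have : m ≡ b' [MOD d'] := by rw [← hm.2.2]; exact (Nat.mod_modEq m d').symm
        exact this.of_dvd (Nat.gcd_dvd_right d d')
      exact h1.symm.trans h2
    rw [if_pos hb, ← card_class M (Nat.lcm d d') m (Nat.lcm_pos hd hd') (Nat.lcm_dvd hM hM')]
    apply card_le_card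
    intro n hn
    simp only [mem_filter] at hn ⊢
    refine ⟨hn.1, ?_⟩
    have h1 : n ≡ m [MOD d] := by
      rw [Nat.ModEq, hn.2.1, hm.2.1]
    have h2 : n ≡ m [MOD d'] := by
      rw [Nat.ModEq, hn.2.2, hm.2.2]
    rw [← Int.natCast_modEq_iff] at h1 h2 ⊢
    rw [Int.modEq_iff_dvd] at h1 h2 ⊢
    have h3 : ((Nat.lcm d d' : ℕ) : ℤ) = lcm (d : ℤ) (d' : ℤ) := by
      rw [← Int.coe_lcm]
      simp [Int.lcm]
    rw [h3]
    exact lcm_dvd h1 h2
  · rw [Finset.not_nonempty_iff_eq_empty] at hne
    rw [hne]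
    simp

theorem ico_class (β m g b : ℕ) (_ : 0 < g) :
    ((Ico β m).filter (fun c => b ≡ c [MOD g])).card ≤ (m - β) / g + 1 := by
  have h : ((Ico β m).filter (fun c => b ≡ c [MOD g])).card ≤
      (range ((m - β) / g + 1)).card := by
    apply card_le_card_of_injOn (fun c => (c - β) / g)
    · intro c hc
      simp only [coe_filter, mem_Ico, Set.mem_ofPred_eq, coe_range, Set.mem_Iio] at hc ⊢
      have : (c - β) / g ≤ (m - β) / g := Nat.div_le_div_right (by omega)
      omega
    · intro c hc c' hc' h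
      simp only [coe_filter, mem_Ico, Set.mem_ofPred_eq] at hc hc' h
      have h1 : c ≡ c' [MOD g] := hc.2.symm.trans hc'.2
      have h2 : (c - β) ≡ (c' - β) [MOD g] := by
        have e1 : c - β + β = c := by omega
        have e2 : c' - β + β = c' := by omega
        apply Nat.ModEq.add_right_cancel' β
        rw [e1, e2]
        exact h1
      have h3 := Nat.div_add_mod (c - β) g
      have h4 := Nat.div_add_mod (c' - β) g
      rw [Nat.ModEq] at h2
      rw [h, h2, h4] at h3
      omega
  simpa using h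

theorem pair (M d d' : ℕ) (β m m' : ℕ) (hd : 0 < d) (hd' : 0 < d') (hM : d ∣ M) (hM' : d' ∣ M) :
    (((range M).filter (fun n => n % d ∈ Ico β m ∧ n % d' ∈ Ico β m')).card : ℝ) ≤
      M * (((m - β : ℕ) : ℝ) / d) * (((m' - β : ℕ) : ℝ) / d') +
      M * (((m - β : ℕ) : ℝ) * (Nat.gcd d d' : ℕ) / ((d : ℝ) * d')) := by
  set g := Nat.gcd d d'
  have hgp : 0 < g := Nat.gcd_pos_of_pos_left _ hd
  have h1 : (range M).filter (fun n => n % d ∈ Ico β m ∧ n % d' ∈ Ico β m') ⊆
      (Ico β m).biUnion (fun b => (Ico β m').biUnion (fun b' =>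
        (range M).filter (fun n => n % d = b ∧ n % d' = b'))) := by
    intro n hn
    simp only [mem_filter, mem_biUnion] at hn ⊢
    exact ⟨n % d, hn.2.1, n % d', hn.2.2, hn.1, rfl, rfl⟩
  have h2 : ((range M).filter (fun n => n % d ∈ Ico β m ∧ n % d' ∈ Ico β m')).card ≤
      ∑ b ∈ Ico β m, ∑ b' ∈ Ico β m', (if b ≡ b' [MOD g] then M / Nat.lcm d d' else 0) := by
    refine (card_le_card h1).trans (card_biUnion_le.trans (sum_le_sum fun b _ => ?_))
    exact card_biUnion_le.trans (sum_le_sum fun b' _ => pair_class M d d' b b' hd hd' hM hM')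
  have h3 : ∑ b ∈ Ico β m, ∑ b' ∈ Ico β m', (if b ≡ b' [MOD g] then M / Nat.lcm d d' else 0) ≤
      (m - β) * (((m' - β) / g + 1) * (M / Nat.lcm d d')) := by
    calc _ ≤ ∑ b ∈ Ico β m, (((m' - β) / g + 1) * (M / Nat.lcm d d')) := by
          apply sum_le_sum
          intro b _
          rw [← sum_filter, sum_const, smul_eq_mul]
          exact Nat.mul_le_mul_right _ (ico_class β m' g b hgp)
      _ = _ := by rw [sum_const, Nat.card_Ico, smul_eq_mul]
  have h4 : (((range M).filter (fun n => n % d ∈ Ico β m ∧ n % d' ∈ Ico β m')).card : ℝ) ≤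
      ((m - β : ℕ) : ℝ) * ((((m' - β) / g : ℕ) : ℝ) + 1) * ((M / Nat.lcm d d' : ℕ) : ℝ) := by
    have := h2.trans h3
    calc _ ≤ (((m - β) * (((m' - β) / g + 1) * (M / Nat.lcm d d')) : ℕ) : ℝ) := by
          exact_mod_cast this
      _ = _ := by push_cast; ring
  have h5 : ((M / Nat.lcm d d' : ℕ) : ℝ) = M * g / (d * d') := by
    have hl : ((M / Nat.lcm d d' : ℕ) : ℝ) = (M : ℝ) / (Nat.lcm d d' : ℕ) :=
      Nat.cast_div_charZero (Nat.lcm_dvd hM hM')
    rw [hl]
    have hgl : (g : ℝ) * (Nat.lcm d d' : ℕ) = d * d' := by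
      exact_mod_cast Nat.gcd_mul_lcm d d'
    have hd1 : (0 : ℝ) < d := by exact_mod_cast hd
    have hd2 : (0 : ℝ) < d' := by exact_mod_cast hd'
    have hl0 : (0 : ℝ) < (Nat.lcm d d' : ℕ) := by exact_mod_cast Nat.lcm_pos hd hd'
    rw [div_eq_div_iff hl0.ne' (mul_pos hd1 hd2).ne', ← hgl]
    ring
  have h6 : ((((m' - β) / g : ℕ) : ℝ)) ≤ ((m' - β : ℕ) : ℝ) / g := Nat.cast_div_le
  have hg0 : (0 : ℝ) < g := by exact_mod_cast hgp
  have hd1 : (0 : ℝ) < d := by exact_mod_cast hd
  have hd2 : (0 : ℝ) < d' := by exact_mod_cast hd'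
  calc _ ≤ _ := h4
    _ ≤ ((m - β : ℕ) : ℝ) * (((m' - β : ℕ) : ℝ) / g + 1) * (M * g / (d * d')) := by
        rw [h5]
        gcongr
    _ = _ := by
        field_simp

/-- second moment inequality -/
theorem cheb (P : Finset ℕ) (M : ℕ) (A : ℕ → ℕ → Prop) (w a : ℕ → ℝ) (R : ℝ)
    (hw : ∀ p ∈ P, 0 ≤ w p) (hw1 : ∀ p ∈ P, w p ≤ 1) (ha : ∀ p ∈ P, 0 ≤ a p)
    (h1 : ∀ p ∈ P, (((range M).filter (fun n => A p n)).card : ℝ) = M * a p)
    (Ee : ℕ → ℕ → ℝ)
    (h2 : ∀ p ∈ P, ∀ p' ∈ P, p < p' →
      w p * w p' * (((range M).filter (fun n => A p n ∧ A p' n)).card : ℝ) ≤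
        w p * w p' * (M * a p * a p') + M * Ee p p')
    (hR : ∑ p' ∈ P, ∑ p ∈ P, (if p < p' then Ee p p' else 0) ≤ R) :
    (((range M).filter (fun n => ∀ p ∈ P, ¬ A p n)).card : ℝ) * (∑ p ∈ P, w p * a p) ^ 2 ≤
      M * (∑ p ∈ P, w p * a p + 2 * R) := by
  set μ := ∑ p ∈ P, w p * a p with hμ
  set f : ℕ → ℝ := fun n => ∑ p ∈ P, w p * (if A p n then (1 : ℝ) else 0) with hf
  have hM0 : (0 : ℝ) ≤ M := Nat.cast_nonneg M
  have hsum1 : ∑ n ∈ range M, f n = M * μ := by
    rw [hf, sum_comm, hμ, mul_sum]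
    apply sum_congr rfl
    intro p hp
    rw [← mul_sum, sum_boole, h1 p hp]
    ring
  have hsum2 : ∑ n ∈ range M, f n ^ 2 =
      ∑ p' ∈ P, ∑ p ∈ P, w p * w p' * (((range M).filter (fun n => A p n ∧ A p' n)).card : ℝ) := by
    have : ∀ n, f n ^ 2 = ∑ p' ∈ P, ∑ p ∈ P, w p * w p' * (if A p n ∧ A p' n then (1 : ℝ) else 0) := by
      intro n
      rw [hf, pow_two, sum_mul_sum, sum_comm]
      apply sum_congr rfl
      intro p' _
      apply sum_congr rfl
      intro p _
      by_cases h : A p n <;> by_cases h' : A p' n <;> simp [h, h']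
    rw [sum_congr rfl (fun n _ => this n), sum_comm]
    apply sum_congr rfl
    intro p' _
    rw [sum_comm]
    apply sum_congr rfl
    intro p _
    rw [← mul_sum, sum_boole]
  have hE : ∀ p' ∈ P, ∀ p ∈ P,
      w p * w p' * (((range M).filter (fun n => A p n ∧ A p' n)).card : ℝ) ≤
      M * (w p * a p * (w p' * a p')) + (if p = p' then M * (w p * a p) else 0) +
        M * (if p < p' then Ee p p' else 0) + M * (if p' < p then Ee p' p else 0) := by
    intro p' hp' p hp
    rcases lt_trichotomy p p' with h | h | h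
    · have := h2 p hp p' hp' h
      rw [if_neg h.ne, if_pos h, if_neg (by omega)]
      linarith
    · subst h
      rw [if_pos rfl, if_neg (lt_irrefl _)]
      have e1 : ((range M).filter (fun n => A p n ∧ A p n)) = (range M).filter (fun n => A p n) := by
        congr 1
        ext n
        simp
      rw [e1, h1 p hp]
      have h3 := hw p hp
      have h4 := hw1 p hp
      have h5 := ha p hp
      have h6 : w p * w p * (M * a p) ≤ 1 * w p * (M * a p) := by gcongr
      have h7 : 0 ≤ (M : ℝ) * (w p * a p * (w p * a p)) := by positivity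
      linarith
    · have := h2 p' hp' p hp h
      have e1 : ((range M).filter (fun n => A p n ∧ A p' n)) =
          (range M).filter (fun n => A p' n ∧ A p n) := by
        congr 1
        ext n
        exact and_comm
      rw [e1, if_neg (by omega), if_neg (by omega), if_pos h]
      linarith
  have hsum3 : ∑ n ∈ range M, f n ^ 2 ≤ M * μ ^ 2 + M * μ + 2 * (M * R) := by
    rw [hsum2]
    calc _ ≤ ∑ p' ∈ P, ∑ p ∈ P, (M * (w p * a p * (w p' * a p')) +
          (if p = p' then M * (w p * a p) else 0) +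
          M * (if p < p' then Ee p p' else 0) + M * (if p' < p then Ee p' p else 0)) :=
          sum_le_sum fun p' hp' => sum_le_sum fun p hp => hE p' hp' p hp
      _ = M * μ ^ 2 + M * μ + M * (∑ p' ∈ P, ∑ p ∈ P, (if p < p' then Ee p p' else 0)) +
          M * (∑ p' ∈ P, ∑ p ∈ P, (if p' < p then Ee p' p else 0)) := by
          simp only [sum_add_distrib]
          congr 1
          congr 1
          congr 1
          · rw [pow_two, hμ, sum_mul_sum, mul_sum, sum_comm]
            apply sum_congr rfl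
            intro p' _
            rw [mul_sum]
          · rw [hμ, mul_sum]
            apply sum_congr rfl
            intro p' hp'
            rw [sum_ite_eq' P p' (fun p => (M : ℝ) * (w p * a p)), if_pos hp']
          · rw [mul_sum]
            apply sum_congr rfl
            intro p' _
            rw [mul_sum]
          · rw [mul_sum]
            apply sum_congr rfl
            intro p' _
            rw [mul_sum]
      _ ≤ _ := by
          have e2 : ∑ p' ∈ P, ∑ p ∈ P, (if p' < p then Ee p' p else 0) =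
              ∑ p' ∈ P, ∑ p ∈ P, (if p < p' then Ee p p' else 0) := sum_comm
          rw [e2]
          have := mul_le_mul_of_nonneg_left hR hM0
          linarith
  have hvar : ∑ n ∈ range M, (f n - μ) ^ 2 ≤ M * (μ + 2 * R) := by
    have e3 : ∑ n ∈ range M, (f n - μ) ^ 2 =
        ∑ n ∈ range M, f n ^ 2 - 2 * μ * ∑ n ∈ range M, f n + M * μ ^ 2 := by
      rw [mul_sum, ← sum_sub_distrib]
      have : (M : ℝ) * μ ^ 2 = ∑ n ∈ range M, μ ^ 2 := by simp
      rw [this, ← sum_add_distrib]
      apply sum_congr rfl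
      intro n _
      ring
    rw [e3, hsum1]
    nlinarith [hsum3]
  refine le_trans ?_ hvar
  calc _ = ∑ n ∈ (range M).filter (fun n => ∀ p ∈ P, ¬ A p n), (f n - μ) ^ 2 := by
        rw [sum_congr rfl (g := fun _ => μ ^ 2)]
        · simp
        · intro n hn
          simp only [mem_filter] at hn
          have : f n = 0 := by
            rw [hf]
            apply sum_eq_zero
            intro p hp
            rw [if_neg (hn.2 p hp), mul_zero]
          rw [this]
          ring
    _ ≤ _ := by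
        apply sum_le_sum_of_subset_of_nonneg (filter_subset _ _)
        intro n _ _
        positivity

/-- choice of the length of the block -/
theorem choice (c C G ε : ℝ) (hc : 0 < c) (hG : 0 < G) (hε : 0 < ε) :
    ∃ L : ℕ, 1 ≤ L ∧ ∀ μ : ℝ, c * Real.log L - C ≤ μ →
      0 < μ ∧ μ + 2 * (G * (1 + Real.log ((L : ℝ) + 1))) ≤ ε * μ ^ 2 := by
  set b : ℝ := 1 + 2 * G / c + 2 * G * (2 + |C| / c) with hb
  have hb1 : 1 ≤ b := by
    rw [hb]
    have : 0 ≤ 2 * G / c + 2 * G * (2 + |C| / c) := by positivity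
    linarith
  set m0 : ℝ := 1 + b / ε with hm0
  obtain ⟨L, hL⟩ := exists_nat_ge (Real.exp ((m0 + |C|) / c))
  have hL0 : (0 : ℝ) < L := lt_of_lt_of_le (Real.exp_pos _) hL
  have hm00 : 0 < m0 := by rw [hm0]; positivity
  have hL1 : (1 : ℝ) ≤ L := by
    refine le_trans ?_ hL
    apply Real.one_le_exp
    positivity
  refine ⟨L, by exact_mod_cast hL1, fun μ hμ => ?_⟩
  have hlog : (m0 + |C|) / c ≤ Real.log L := by
    rw [Real.le_log_iff_exp_le hL0]
    exact hL
  have hlog2 : m0 + |C| ≤ c * Real.log L := by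
    rw [div_le_iff₀ hc] at hlog
    linarith
  have hmm : m0 ≤ c * Real.log L - C := by
    have := le_abs_self C
    linarith
  have hμm : m0 ≤ μ := hmm.trans hμ
  have hμ0 : 0 < μ := hm00.trans_le hμm
  have hμ1 : 1 ≤ μ := by
    refine le_trans ?_ hμm
    rw [hm0]
    have : 0 ≤ b / ε := by positivity
    linarith
  have hlog1 : Real.log ((L : ℝ) + 1) ≤ 1 + Real.log L := by
    have h1 : (L : ℝ) + 1 ≤ 2 * L := by linarith
    calc Real.log ((L : ℝ) + 1) ≤ Real.log (2 * L) := Real.log_le_log (by positivity) h1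
      _ = Real.log 2 + Real.log L := Real.log_mul (by norm_num) hL0.ne'
      _ ≤ _ := by
        have := Real.log_two_lt_d9
        linarith
  have hlogμ : Real.log L ≤ (μ + |C|) / c := by
    rw [le_div_iff₀ hc]
    have := le_abs_self C
    linarith
  refine ⟨hμ0, ?_⟩
  have h1 : μ + 2 * (G * (1 + Real.log ((L : ℝ) + 1))) ≤ b * μ := by
    have h2 : 1 + Real.log ((L : ℝ) + 1) ≤ 2 + (μ + |C|) / c := by linarith
    have h3 : 2 * (G * (1 + Real.log ((L : ℝ) + 1))) ≤ 2 * (G * (2 + (μ + |C|) / c)) := by gcongr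
    have h4 : 2 * (G * (2 + (μ + |C|) / c)) = 2 * G / c * μ + 2 * G * (2 + |C| / c) * 1 := by
      field_simp
      ring
    have h5 : 2 * G * (2 + |C| / c) * 1 ≤ 2 * G * (2 + |C| / c) * μ := by
      have : 0 ≤ 2 * G * (2 + |C| / c) := by positivity
      gcongr
    rw [hb]
    nlinarith
  have h6 : b ≤ ε * μ := by
    have : b / ε ≤ μ := by
      refine le_trans ?_ hμm
      rw [hm0]
      linarith
    rw [div_le_iff₀ hε] at this
    linarith
  calc _ ≤ b * μ := h1
    _ ≤ ε * μ * μ := by gcongr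
    _ = _ := by ring

end Pool.Agent.TH997.US.A4

namespace Pool.Agent.TH997.US

open Polynomial Finset Pool.Agent.H692R2.USS
open scoped Classical

theorem a4 : A4 := by
  intro k hk hMass hGcd β x ε hε
  obtain ⟨c, C, hc, hm⟩ := hMass
  obtain ⟨G, hG, hg⟩ := hGcd
  set K := 4 * k * (k + 1) with hK
  have hK8 : 8 ≤ K := by
    rw [hK]
    nlinarith
  have hKp : 0 < K := by omega
  have hKr : (0 : ℝ) < K := by exact_mod_cast hKp
  set X0 : ℕ := max x (2 ^ (2 * K * (β + 2))) with hX0
  obtain ⟨L, hL1, hL⟩ := A4.choice (c / (4 * K)) ((C + X0) / (4 * K)) G ε (by positivity) hG hε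
  refine ⟨L, fun M hM0 hM => ?_⟩
  set P : Finset ℕ := (range (2 ^ L)).filter (fun p => p.Prime ∧ SplitAll k p ∧ X0 ≤ p) with hP
  set w : ℕ → ℝ := fun p => 1 / ((Nat.log 2 p : ℝ) + 1) with hw
  set N : ℕ → ℕ := fun p => Nat.log 2 p / K - β with hN
  set a : ℕ → ℝ := fun p => (N p : ℝ) / ((p - 1 : ℕ) : ℝ) with ha
  obtain ⟨A, hA⟩ : ∃ A : ℕ → ℕ → Prop, ∀ p n, A p n ↔ n % (p - 1) ∈ Ico β (Nat.log 2 p / K) :=
    ⟨fun p n => n % (p - 1) ∈ Ico β (Nat.log 2 p / K), fun _ _ => Iff.rfl⟩
  set Ee : ℕ → ℕ → ℝ := fun p p' => ((Nat.gcd (p - 1) (p' - 1) : ℕ) : ℝ) /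
      (((p : ℝ) - 1) * ((p' : ℝ) - 1) * ((Nat.log 2 p' : ℝ) + 1)) with hEe
  have hPp : ∀ p ∈ P, p.Prime := fun p hp => by
    rw [hP, mem_filter] at hp
    exact hp.2.1
  have hPd : ∀ p ∈ P, (p - 1) ∣ M := fun p hp => by
    have := hp
    rw [hP, mem_filter, mem_range] at this
    exact hM p this.2.1 this.1
  have hp1 : ∀ p ∈ P, 0 < p - 1 := fun p hp => by
    have := (hPp p hp).two_le
    omega
  have hp1r : ∀ p ∈ P, (0 : ℝ) < (p : ℝ) - 1 := fun p hp => by
    have : (1 : ℝ) < p := by exact_mod_cast (hPp p hp).one_lt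
    linarith
  have hcast : ∀ p ∈ P, ((p - 1 : ℕ) : ℝ) = (p : ℝ) - 1 := fun p hp => by
    rw [Nat.cast_sub (hPp p hp).one_lt.le, Nat.cast_one]
  have hw0 : ∀ p ∈ P, 0 ≤ w p := fun p _ => by
    rw [hw]
    positivity
  have hw1 : ∀ p ∈ P, w p ≤ 1 := fun p _ => by
    rw [hw]
    simp only
    rw [div_le_one (by positivity)]
    have : (0 : ℝ) ≤ (Nat.log 2 p : ℝ) := Nat.cast_nonneg _
    linarith
  have hwN : ∀ p ∈ P, w p * N p ≤ 1 := fun p _ => by
    rw [hw, hN]
    simp only
    rw [one_div, inv_mul_le_iff₀ (by positivity), mul_one]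
    have h1 : Nat.log 2 p / K - β ≤ Nat.log 2 p := (Nat.sub_le _ _).trans (Nat.div_le_self _ _)
    have h2 : ((Nat.log 2 p / K - β : ℕ) : ℝ) ≤ (Nat.log 2 p : ℝ) := by exact_mod_cast h1
    linarith
  have ha0 : ∀ p ∈ P, 0 ≤ a p := fun p _ => by
    rw [ha]
    positivity
  have h1 : ∀ p ∈ P, (((range M).filter (fun n => A p n)).card : ℝ) = M * a p := by
    intro p hp
    have := A4.single M (p - 1) (Ico β (Nat.log 2 p / K)) (hp1 p hp) (hPd p hp) (by
      intro b hb
      rw [mem_Ico] at hb
      have h3 : Nat.log 2 p < p := Nat.log_lt_self 2 (hPp p hp).ne_zero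
      have h4 : Nat.log 2 p / K ≤ Nat.log 2 p := Nat.div_le_self _ _
      omega)
    rw [Nat.card_Ico] at this
    have e : (range M).filter (fun n => A p n) =
        (range M).filter (fun n => n % (p - 1) ∈ Ico β (Nat.log 2 p / K)) := by
      ext n
      simp only [mem_filter, hA]
    rw [e]
    exact this
  have h2 : ∀ p ∈ P, ∀ p' ∈ P, p < p' →
      w p * w p' * (((range M).filter (fun n => A p n ∧ A p' n)).card : ℝ) ≤
        w p * w p' * (M * a p * a p') + M * Ee p p' := by
    intro p hp p' hp' _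
    have h3 := A4.pair M (p - 1) (p' - 1) β (Nat.log 2 p / K) (Nat.log 2 p' / K)
      (hp1 p hp) (hp1 p' hp') (hPd p hp) (hPd p' hp')
    have h4 : w p * w p' * (((range M).filter (fun n => A p n ∧ A p' n)).card : ℝ) ≤
        w p * w p' * (M * a p * a p' +
          M * ((N p : ℝ) * (Nat.gcd (p - 1) (p' - 1) : ℕ) /
            (((p - 1 : ℕ) : ℝ) * ((p' - 1 : ℕ) : ℝ)))) := by
      have e : (range M).filter (fun n => A p n ∧ A p' n) =
          (range M).filter (fun n => n % (p - 1) ∈ Ico β (Nat.log 2 p / K) ∧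
            n % (p' - 1) ∈ Ico β (Nat.log 2 p' / K)) := by
        ext n
        simp only [mem_filter, hA]
      rw [e]
      apply mul_le_mul_of_nonneg_left h3
      exact mul_nonneg (hw0 p hp) (hw0 p' hp')
    refine h4.trans ?_
    rw [mul_add]
    apply add_le_add le_rfl
    rw [hcast p hp, hcast p' hp']
    have e1 : w p * w p' * (M * ((N p : ℝ) * (Nat.gcd (p - 1) (p' - 1) : ℕ) /
            (((p : ℝ) - 1) * ((p' : ℝ) - 1)))) = (w p * N p) * (M * Ee p p') := by
      have q1 := hp1r p hp
      have q2 := hp1r p' hp'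
      have q3 : (0 : ℝ) < (Nat.log 2 p' : ℝ) + 1 := by positivity
      have e2 : w p' = 1 / ((Nat.log 2 p' : ℝ) + 1) := rfl
      rw [hEe, e2]
      simp only
      field_simp
    rw [e1]
    have h5 : 0 ≤ (M : ℝ) * Ee p p' := by
      rw [hEe]
      have q1 := hp1r p hp
      have q2 := hp1r p' hp'
      positivity
    calc _ ≤ 1 * (M * Ee p p') := by
          gcongr
          exact hwN p hp
      _ = _ := one_mul _
  have hR : ∑ p' ∈ P, ∑ p ∈ P, (if p < p' then Ee p p' else 0) ≤
      G * (1 + Real.log ((L : ℝ) + 1)) := by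
    refine le_trans ?_ (hg L)
    calc ∑ p' ∈ P, ∑ p ∈ P, (if p < p' then Ee p p' else 0)
        ≤ ∑ p' ∈ P, ∑ p ∈ (range p').filter Nat.Prime, Ee p p' := by
          apply sum_le_sum
          intro p' hp'
          rw [← sum_filter]
          apply sum_le_sum_of_subset_of_nonneg
          · intro p hp
            simp only [mem_filter, mem_range] at hp ⊢
            exact ⟨hp.2, hPp p hp.1⟩
          · intro p hp _
            simp only [mem_filter, mem_range] at hp
            rw [hEe]
            have q1 : (0 : ℝ) < (p : ℝ) - 1 := by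
              have : (1 : ℝ) < p := by exact_mod_cast hp.2.one_lt
              linarith
            have q2 := hp1r p' hp'
            positivity
      _ ≤ _ := by
          apply sum_le_sum_of_subset_of_nonneg
          · intro p' hp'
            have := hp'
            rw [hP, mem_filter] at this
            rw [mem_filter]
            exact ⟨this.1, this.2.1⟩
          · intro p' hp' _
            rw [mem_filter] at hp'
            apply sum_nonneg
            intro p hp
            simp only [mem_filter, mem_range] at hp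
            have q1 : (0 : ℝ) < (p : ℝ) - 1 := by
              have : (1 : ℝ) < p := by exact_mod_cast hp.2.one_lt
              linarith
            have q2 : (0 : ℝ) < (p' : ℝ) - 1 := by
              have : (1 : ℝ) < p' := by exact_mod_cast hp'.2.one_lt
              linarith
            positivity
  have hmain := A4.cheb P M A w a (G * (1 + Real.log ((L : ℝ) + 1))) hw0 hw1 ha0 h1 Ee h2 hR
  -- lower bound for the mean
  have hterm : ∀ p ∈ P, 1 / (4 * (K : ℝ)) * (1 / p) ≤ w p * a p := by
    intro p hp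
    have hpP := hp
    rw [hP, mem_filter] at hpP
    have hX : 2 ^ (2 * K * (β + 2)) ≤ p := le_trans (le_max_right _ _) hpP.2.2.2
    have hl : 2 * K * (β + 2) ≤ Nat.log 2 p :=
      Nat.le_log_of_pow_le (by norm_num) hX
    set l := Nat.log 2 p with hl'
    have hNl : l + 1 ≤ 4 * K * N p := by
      have e1 : l < K * (l / K + 1) := by
        have h3 := Nat.div_add_mod l K
        have h4 := Nat.mod_lt l hKp
        rw [mul_add, mul_one]
        omega
      have e2 : 2 * (β + 2) ≤ l / K := by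
        rw [Nat.le_div_iff_mul_le hKp]
        calc 2 * (β + 2) * K = 2 * K * (β + 2) := by ring
          _ ≤ l := hl
      have e3 : N p = l / K - β := rfl
      have e4 : l / K + 1 ≤ 4 * N p := by
        rw [e3]
        omega
      calc l + 1 ≤ K * (l / K + 1) := e1
        _ ≤ K * (4 * N p) := Nat.mul_le_mul_left _ e4
        _ = 4 * K * N p := by ring
    have hNlr : (l : ℝ) + 1 ≤ 4 * K * N p := by exact_mod_cast hNl
    have q1 := hp1r p hp
    have q0 : (0 : ℝ) < p := by linarith
    have e5 : w p * a p = N p / (((l : ℝ) + 1) * ((p : ℝ) - 1)) := by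
      rw [ha, hw]
      simp only
      rw [hcast p hp]
      field_simp
      ring_nf
      try rfl
    rw [e5]
    have e6 : 1 / (4 * (K : ℝ)) * (1 / p) = 1 / (4 * K * p) := by
      field_simp
    rw [e6, div_le_div_iff₀ (by positivity) (by positivity), one_mul]
    calc ((l : ℝ) + 1) * ((p : ℝ) - 1) ≤ (4 * K * N p) * p := by
          apply mul_le_mul hNlr (by linarith) q1.le (by positivity)
      _ = N p * (4 * K * p) := by ring
  have hmean : c / (4 * K) * Real.log L - (C + X0) / (4 * K) ≤ ∑ p ∈ P, w p * a p := by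
    have h3 := hm L hL1
    have h4 : ∑ p ∈ (range (2 ^ L)).filter (fun p => p.Prime ∧ SplitAll k p), (1 : ℝ) / p ≤
        X0 + ∑ p ∈ P, (1 : ℝ) / p := by
      calc _ ≤ ∑ p ∈ (range X0) ∪ P, (1 : ℝ) / p := by
            apply sum_le_sum_of_subset_of_nonneg
            · intro p hp
              rw [mem_filter] at hp
              rw [mem_union, mem_range, hP, mem_filter]
              rcases lt_or_ge p X0 with h | h
              · exact Or.inl h
              · exact Or.inr ⟨hp.1, hp.2.1, hp.2.2, h⟩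
            · intro p _ _
              positivity
        _ ≤ ∑ p ∈ range X0, (1 : ℝ) / p + ∑ p ∈ P, (1 : ℝ) / p := by
            rw [← sum_union_inter]
            have : 0 ≤ ∑ p ∈ range X0 ∩ P, (1 : ℝ) / p := sum_nonneg fun p _ => by positivity
            linarith
        _ ≤ _ := by
            apply add_le_add _ le_rfl
            calc ∑ p ∈ range X0, (1 : ℝ) / p ≤ ∑ p ∈ range X0, (1 : ℝ) := by
                  apply sum_le_sum
                  intro p _
                  rcases Nat.eq_zero_or_pos p with h | h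
                  · simp [h]
                  · rw [div_le_one (by exact_mod_cast h)]
                    exact_mod_cast h
              _ = X0 := by simp
    have h5 : 1 / (4 * (K : ℝ)) * ∑ p ∈ P, (1 : ℝ) / p ≤ ∑ p ∈ P, w p * a p := by
      rw [mul_sum]
      exact sum_le_sum hterm
    have h6 : c * Real.log L - C - X0 ≤ ∑ p ∈ P, (1 : ℝ) / p := by linarith
    calc _ = 1 / (4 * (K : ℝ)) * (c * Real.log L - C - X0) := by
          field_simp
          ring
      _ ≤ 1 / (4 * (K : ℝ)) * ∑ p ∈ P, (1 : ℝ) / p := by gcongr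
      _ ≤ _ := h5
  obtain ⟨hμ0, hμ⟩ := hL _ hmean
  have hsub : ((range M).filter (fun n => ∀ p, p.Prime → SplitAll k p → x ≤ p → p < 2 ^ L →
      ¬ (β ≤ n % (p - 1) ∧ K * (n % (p - 1) + 1) ≤ Nat.log 2 p))).card ≤
      ((range M).filter (fun n => ∀ p ∈ P, ¬ A p n)).card := by
    apply card_le_card
    intro n hn
    rw [mem_filter] at hn ⊢
    refine ⟨hn.1, fun p hp hAp => ?_⟩
    have hpP := hp
    rw [hP, mem_filter, mem_range] at hpP
    apply hn.2 p hpP.2.1 hpP.2.2.1 ((le_max_left _ _).trans hpP.2.2.2) hpP.1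
    rw [hA] at hAp
    simp only [mem_Ico] at hAp
    refine ⟨hAp.1, ?_⟩
    have := hAp.2
    rw [← Nat.succ_le_iff, Nat.le_div_iff_mul_le hKp] at this
    rw [mul_comm]
    exact this
  have hsubr : (((range M).filter (fun n => ∀ p, p.Prime → SplitAll k p → x ≤ p → p < 2 ^ L →
      ¬ (β ≤ n % (p - 1) ∧ K * (n % (p - 1) + 1) ≤ Nat.log 2 p))).card : ℝ) ≤
      (((range M).filter (fun n => ∀ p ∈ P, ¬ A p n)).card : ℝ) := by exact_mod_cast hsub
  refine hsubr.trans ?_
  have hsq : 0 < (∑ p ∈ P, w p * a p) ^ 2 := by positivity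
  have hfin : (((range M).filter (fun n => ∀ p ∈ P, ¬ A p n)).card : ℝ) *
      (∑ p ∈ P, w p * a p) ^ 2 ≤ ε * M * (∑ p ∈ P, w p * a p) ^ 2 := by
    refine hmain.trans ?_
    calc _ ≤ (M : ℝ) * (ε * (∑ p ∈ P, w p * a p) ^ 2) := by gcongr
      _ = _ := by ring
  exact le_of_mul_le_mul_right hfin hsq

end Pool.Agent.TH997.US
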