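import Pool.Agent.TH997.US.Stm

set_option autoImplicit false

/-!
# Few `n` are non-generic for large primes

For a prime `p` the event depends on `n` modulo `p - 1` (at most `log2 p` classes) and on `n`
modulo `p` (the roots of few polynomials, about `p ^ (1/4)` classes).
-/

namespace Pool.Agent.TH997.US.A5

open Polynomial Finset Pool.Agent.H692R2.USS
open scoped Classical

/-- the polynomial over `ZMod p` with coefficient vector `v` -/
noncomputable def pol (k p : ℕ) (v : Fin (k + 1) → ℤ) : (ZMod p)[X] :=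
  ∑ i : Fin (k + 1), C ((v i : ℤ) : ZMod p) * X ^ (i : ℕ)

lemma pol_coeff (k p : ℕ) (v : Fin (k + 1) → ℤ) (i : Fin (k + 1)) :
    (pol k p v).coeff i = ((v i : ℤ) : ZMod p) := by
  unfold pol
  rw [finsetSum_coeff]
  simp only [coeff_C_mul, coeff_X_pow]
  rw [Finset.sum_eq_single i]
  · simp
  · intro j _ hj
    rw [if_neg (fun h => hj (Fin.ext h.symm)), mul_zero]
  · simp

lemma pol_deg (k p : ℕ) (v : Fin (k + 1) → ℤ) : (pol k p v).natDegree ≤ k := by
  unfold pol
  apply natDegree_sum_le_of_forall_le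
  intro i _
  refine (natDegree_C_mul_X_pow_le _ _).trans ?_
  have := i.2
  omega

/-- exceptional residues modulo `p` -/
noncomputable def R2 (k p : ℕ) [Fact p.Prime] : Finset (ZMod p) :=
  (Fintype.piFinset (fun _ : Fin (k + 1) => Finset.Ioo (-(2 : ℤ) ^ (Nat.log 2 p / (4 * (k + 1))))
    ((2 : ℤ) ^ (Nat.log 2 p / (4 * (k + 1)))))).biUnion (fun v => (pol k p v).roots.toFinset)

lemma R2_card (k p : ℕ) [Fact p.Prime] :
    (R2 k p).card ≤ 2 ^ (k + 1) * 2 ^ ((Nat.log 2 p / (4 * (k + 1))) * (k + 1)) * k := by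
  unfold R2
  refine Finset.card_biUnion_le.trans ?_
  refine (Finset.sum_le_card_nsmul _ _ k ?_).trans ?_
  · intro v _
    calc (pol k p v).roots.toFinset.card ≤ Multiset.card (pol k p v).roots :=
          Multiset.toFinset_card_le _
      _ ≤ (pol k p v).natDegree := card_roots' _
      _ ≤ k := pol_deg k p v
  · rw [smul_eq_mul]
    apply Nat.mul_le_mul_right
    rw [Fintype.card_piFinset, Finset.prod_const, Finset.card_univ, Fintype.card_fin,
      Int.card_Ioo]
    set t := Nat.log 2 p / (4 * (k + 1)) with ht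
    have h1 : ((2 : ℤ) ^ t - -(2 : ℤ) ^ t - 1).toNat ≤ 2 * 2 ^ t := by
      have h2 : ((2 : ℤ) ^ t - -(2 : ℤ) ^ t - 1) ≤ ((2 * 2 ^ t : ℕ) : ℤ) := by
        push_cast
        linarith
      exact Int.toNat_le.2 h2
    calc ((2 : ℤ) ^ t - -(2 : ℤ) ^ t - 1).toNat ^ (k + 1) ≤ (2 * 2 ^ t) ^ (k + 1) :=
          Nat.pow_le_pow_left h1 _
      _ = 2 ^ (k + 1) * 2 ^ (t * (k + 1)) := by rw [mul_pow, pow_mul]

lemma mem_R2 (k p n : ℕ) [hp : Fact p.Prime] (hn : ¬ Generic k p n) : (n : ZMod p) ∈ R2 k p := by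
  unfold Generic at hn
  push Not at hn
  obtain ⟨f, hf0, hfd, hfc, hfe⟩ := hn
  unfold R2
  rw [Finset.mem_biUnion]
  refine ⟨fun i => f.coeff i, ?_, ?_⟩
  · rw [Fintype.mem_piFinset]
    intro i
    rw [Finset.mem_Ioo]
    exact abs_lt.1 (hfc i)
  · rw [Multiset.mem_toFinset]
    have hne : pol k p (fun i => f.coeff i) ≠ 0 := by
      intro h0
      have hlc : f.leadingCoeff ≠ 0 := leadingCoeff_ne_zero.2 hf0
      have h1 := pol_coeff k p (fun i => f.coeff i) ⟨f.natDegree, by omega⟩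
      rw [h0, coeff_zero] at h1
      simp only at h1
      have h2 : ((p : ℕ) : ℤ) ∣ f.coeff f.natDegree := (ZMod.intCast_zmod_eq_zero_iff_dvd _ _).1 h1.symm
      have h3 : |f.coeff f.natDegree| < (p : ℤ) := by
        refine lt_of_lt_of_le (hfc _) ?_
        have h4 : 2 ^ (Nat.log 2 p / (4 * (k + 1))) ≤ p :=
          (Nat.pow_le_pow_right (by norm_num) (Nat.div_le_self _ _)).trans
            (Nat.pow_log_le_self 2 hp.out.ne_zero)
        exact_mod_cast h4
      have h5 := Int.eq_zero_of_abs_lt_dvd h2 h3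
      exact hlc h5
    rw [mem_roots hne, IsRoot.def]
    unfold pol
    rw [eval_finsetSum]
    simp only [eval_mul, eval_C, eval_pow, eval_X]
    have h6 : f.eval (n : ℤ) = ∑ i : Fin (k + 1), f.coeff i * (n : ℤ) ^ (i : ℕ) := by
      rw [eval_eq_sum_range' (n := k + 1) (by omega), Finset.sum_range]
    have h7 : ((f.eval (n : ℤ) : ℤ) : ZMod p) = 0 :=
      (ZMod.intCast_zmod_eq_zero_iff_dvd _ _).2 hfe
    rw [h6] at h7
    push_cast at h7
    exact h7

lemma card_prime (k p M : ℕ) (hk : 1 ≤ k) (hp : p.Prime) (hM : p * (p - 1) ∣ M) :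
    ((Finset.range M).filter (fun n => 4 * k * (k + 1) * (n % (p - 1) + 1) ≤ Nat.log 2 p ∧
      ¬ Generic k p n)).card ≤ (M / (p * (p - 1))) * (Nat.log 2 p *
        (2 ^ (k + 1) * 2 ^ ((Nat.log 2 p / (4 * (k + 1))) * (k + 1)) * k)) := by
  have : Fact p.Prime := ⟨hp⟩
  have hp2 := hp.two_le
  have hq : 0 < p * (p - 1) := Nat.mul_pos (by omega) (by omega)
  calc _ ≤ (Finset.range (M / (p * (p - 1))) ×ˢ (Finset.range (Nat.log 2 p) ×ˢ R2 k p)).card := by
        apply Finset.card_le_card_of_injOn (fun n => (n / (p * (p - 1)), (n % (p - 1), (n : ZMod p))))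
        · intro n hn
          rw [Finset.mem_coe, Finset.mem_filter, Finset.mem_range] at hn
          obtain ⟨h1, h2, h3⟩ := hn
          rw [Finset.mem_coe, Finset.mem_product, Finset.mem_product, Finset.mem_range,
            Finset.mem_range]
          refine ⟨?_, ?_, mem_R2 k p n h3⟩
          · exact Nat.div_lt_div_of_lt_of_dvd hM h1
          · simp only
            have h4 : 1 * (n % (p - 1) + 1) ≤ 4 * k * (k + 1) * (n % (p - 1) + 1) := by
              apply Nat.mul_le_mul_right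
              nlinarith
            omega
        · intro n _ m _ hnm
          simp only [Prod.mk.injEq] at hnm
          obtain ⟨h1, h2, h3⟩ := hnm
          have h4 : n ≡ m [MOD p] := (ZMod.natCast_eq_natCast_iff _ _ _).1 h3
          have h5 : n ≡ m [MOD (p - 1)] := h2
          have hco : Nat.Coprime p (p - 1) := by
            have := (Nat.coprime_self_add_right (m := p - 1) (n := 1)).2 (by simp)
            rw [Nat.coprime_comm]
            have e : p = p - 1 + 1 := by omega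
            rw [e]
            simp
          have h6 : n ≡ m [MOD p * (p - 1)] := (Nat.modEq_and_modEq_iff_modEq_mul hco).1 ⟨h4, h5⟩
          have h7 : n % (p * (p - 1)) = m % (p * (p - 1)) := h6
          rw [← Nat.div_add_mod n (p * (p - 1)), ← Nat.div_add_mod m (p * (p - 1)), h1, h7]
    _ = (M / (p * (p - 1))) * (Nat.log 2 p * (R2 k p).card) := by
        rw [Finset.card_product, Finset.card_product, Finset.card_range, Finset.card_range]
    _ ≤ _ := Nat.mul_le_mul_left _ (Nat.mul_le_mul_left _ (R2_card k p))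

lemma log_bd (p : ℕ) (hp : 1 ≤ p) : (Nat.log 2 p : ℝ) ≤ 8 * (p : ℝ) ^ (1 / 4 : ℝ) := by
  have hp0 : (0 : ℝ) < p := by exact_mod_cast hp
  have h1 : (2 : ℝ) ^ (Nat.log 2 p) ≤ p := by exact_mod_cast Nat.pow_log_le_self 2 (by omega)
  have h2 : (Nat.log 2 p : ℝ) * Real.log 2 ≤ Real.log p := by
    rw [← Real.log_pow]
    exact Real.log_le_log (by positivity) h1
  have h3 : Real.log p ≤ (p : ℝ) ^ (1 / 4 : ℝ) / (1 / 4) := Real.log_le_rpow_div hp0.le (by norm_num)
  have h4 : (1 / 2 : ℝ) ≤ Real.log 2 := by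
    have := Real.log_two_gt_d9
    linarith
  have h5 : (0 : ℝ) ≤ (Nat.log 2 p : ℝ) := by positivity
  have h6 : (0 : ℝ) ≤ (p : ℝ) ^ (1 / 4 : ℝ) := by positivity
  nlinarith

lemma pow_bd (k p : ℕ) (hp : 1 ≤ p) :
    (2 : ℝ) ^ ((Nat.log 2 p / (4 * (k + 1))) * (k + 1)) ≤ (p : ℝ) ^ (1 / 4 : ℝ) := by
  have h1 : ((2 ^ ((Nat.log 2 p / (4 * (k + 1))) * (k + 1)) : ℕ)) ^ 4 ≤ p := by
    rw [← pow_mul]
    refine le_trans (Nat.pow_le_pow_right (by norm_num) ?_) (Nat.pow_log_le_self 2 (by omega))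
    have := Nat.div_mul_le_self (Nat.log 2 p) (4 * (k + 1))
    linarith
  have h2 : (((2 : ℝ) ^ ((Nat.log 2 p / (4 * (k + 1))) * (k + 1))) ^ 4) ≤ p := by exact_mod_cast h1
  have h3 : (2 : ℝ) ^ ((Nat.log 2 p / (4 * (k + 1))) * (k + 1)) =
      ((((2 : ℝ) ^ ((Nat.log 2 p / (4 * (k + 1))) * (k + 1))) ^ 4)) ^ (1 / 4 : ℝ) := by
    have := Real.pow_rpow_inv_natCast (x := (2 : ℝ) ^ ((Nat.log 2 p / (4 * (k + 1))) * (k + 1)))
      (by positivity) (n := 4) (by norm_num)
    norm_num at this ⊢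
    exact this.symm
  rw [h3]
  exact Real.rpow_le_rpow (by positivity) h2 (by norm_num)

/-- the summable majorant -/
noncomputable def F (k : ℕ) (p : ℕ) : ℝ := (k : ℝ) * 2 ^ (k + 5) * (1 / (p : ℝ) ^ (3 / 2 : ℝ))

lemma F_summable (k : ℕ) : Summable (F k) := by
  unfold F
  apply Summable.mul_left
  exact Real.summable_one_div_nat_rpow.2 (by norm_num)

lemma F_nonneg (k p : ℕ) : 0 ≤ F k p := by
  unfold F
  positivity

lemma card_prime' (k p M : ℕ) (hk : 1 ≤ k) (hp : p.Prime) (hM : p * (p - 1) ∣ M) :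
    (((Finset.range M).filter (fun n => 4 * k * (k + 1) * (n % (p - 1) + 1) ≤ Nat.log 2 p ∧
      ¬ Generic k p n)).card : ℝ) ≤ M * F k p := by
  have h1 := card_prime k p M hk hp hM
  have hp2 := hp.two_le
  have hp0 : (0 : ℝ) < p := by exact_mod_cast (by omega : 0 < p)
  have hp1 : (2 : ℝ) ≤ p := by exact_mod_cast hp2
  have h2 : (((Finset.range M).filter (fun n => 4 * k * (k + 1) * (n % (p - 1) + 1) ≤ Nat.log 2 p ∧
      ¬ Generic k p n)).card : ℝ) ≤ (((M / (p * (p - 1))) * (Nat.log 2 p *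
        (2 ^ (k + 1) * 2 ^ ((Nat.log 2 p / (4 * (k + 1))) * (k + 1)) * k)) : ℕ) : ℝ) := by
    exact_mod_cast h1
  refine h2.trans ?_
  rw [Nat.cast_mul, Nat.cast_mul, Nat.cast_mul, Nat.cast_mul, Nat.cast_pow, Nat.cast_pow]
  have h3 : ((M / (p * (p - 1)) : ℕ) : ℝ) ≤ M / ((p : ℝ) ^ 2 / 2) := by
    refine Nat.cast_div_le.trans ?_
    apply div_le_div_of_nonneg_left (by positivity) (by positivity)
    rw [Nat.cast_mul, Nat.cast_sub (by omega)]
    push_cast
    nlinarith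
  have h4 := log_bd p (by omega)
  have h5 := pow_bd k p (by omega)
  have h6 : (p : ℝ) ^ (3 / 2 : ℝ) * (p : ℝ) ^ (1 / 4 : ℝ) * (p : ℝ) ^ (1 / 4 : ℝ) = (p : ℝ) ^ 2 := by
    rw [← Real.rpow_add hp0, ← Real.rpow_add hp0, ← Real.rpow_natCast]
    norm_num
  have h7 : (0 : ℝ) < (p : ℝ) ^ (3 / 2 : ℝ) := by positivity
  have h8 : (0 : ℝ) < (p : ℝ) ^ (1 / 4 : ℝ) := by positivity
  calc ((M / (p * (p - 1)) : ℕ) : ℝ) * ((Nat.log 2 p : ℝ) *
        (((2 : ℕ) : ℝ) ^ (k + 1) * ((2 : ℕ) : ℝ) ^ ((Nat.log 2 p / (4 * (k + 1))) * (k + 1)) * k))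
      ≤ (M / ((p : ℝ) ^ 2 / 2)) * ((8 * (p : ℝ) ^ (1 / 4 : ℝ)) *
        ((2 : ℝ) ^ (k + 1) * (p : ℝ) ^ (1 / 4 : ℝ) * k)) := by
        push_cast
        gcongr
    _ = M * F k p := by
        unfold F
        rw [← h6]
        field_simp
        ring

end Pool.Agent.TH997.US.A5

namespace Pool.Agent.TH997.US

open Polynomial Finset Pool.Agent.H692R2.USS
open scoped Classical

theorem a5 : A5 := by
  intro k hk ε hε
  obtain ⟨s, hs⟩ := summable_iff_vanishing_norm.1 (A5.F_summable k) ε hε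
  refine ⟨s.sup id + 1, fun L M hM hdiv => ?_⟩
  set Q : Finset ℕ := (Finset.range (2 ^ L)).filter (fun p => p.Prime ∧ s.sup id + 1 ≤ p) with hQ
  have hsub : (Finset.range M).filter (fun n => ∃ p, p.Prime ∧ s.sup id + 1 ≤ p ∧ p < 2 ^ L ∧
      4 * k * (k + 1) * (n % (p - 1) + 1) ≤ Nat.log 2 p ∧ ¬ Generic k p n) ⊆
      Q.biUnion (fun p => (Finset.range M).filter (fun n =>
        4 * k * (k + 1) * (n % (p - 1) + 1) ≤ Nat.log 2 p ∧ ¬ Generic k p n)) := by
    intro n hn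
    rw [Finset.mem_filter] at hn
    obtain ⟨h1, p, h2, h3, h4, h5, h6⟩ := hn
    rw [Finset.mem_biUnion]
    refine ⟨p, ?_, ?_⟩
    · rw [hQ, Finset.mem_filter, Finset.mem_range]
      exact ⟨h4, h2, h3⟩
    · rw [Finset.mem_filter]
      exact ⟨h1, h5, h6⟩
  have h1 : (((Finset.range M).filter (fun n => ∃ p, p.Prime ∧ s.sup id + 1 ≤ p ∧ p < 2 ^ L ∧
      4 * k * (k + 1) * (n % (p - 1) + 1) ≤ Nat.log 2 p ∧ ¬ Generic k p n)).card : ℝ) ≤
      ∑ p ∈ Q, (M : ℝ) * A5.F k p := by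
    have h2 := (Finset.card_le_card hsub).trans Finset.card_biUnion_le
    have h3 : (((Finset.range M).filter (fun n => ∃ p, p.Prime ∧ s.sup id + 1 ≤ p ∧ p < 2 ^ L ∧
      4 * k * (k + 1) * (n % (p - 1) + 1) ≤ Nat.log 2 p ∧ ¬ Generic k p n)).card : ℝ) ≤
      ∑ p ∈ Q, (((Finset.range M).filter (fun n =>
        4 * k * (k + 1) * (n % (p - 1) + 1) ≤ Nat.log 2 p ∧ ¬ Generic k p n)).card : ℝ) := by
      exact_mod_cast h2
    refine h3.trans (Finset.sum_le_sum ?_)
    intro p hp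
    rw [hQ, Finset.mem_filter, Finset.mem_range] at hp
    exact A5.card_prime' k p M hk hp.2.1 (hdiv p hp.2.1 hp.1)
  refine h1.trans ?_
  rw [← Finset.mul_sum, mul_comm]
  apply mul_le_mul_of_nonneg_right _ (by positivity)
  have h4 : Disjoint Q s := by
    rw [Finset.disjoint_left]
    intro p hp hps
    rw [hQ, Finset.mem_filter] at hp
    have h5 : id p ≤ s.sup id := Finset.le_sup hps
    have h6 := hp.2.2
    simp only [id] at h5
    omega
  have h5 := hs Q h4
  exact (Real.le_norm_self _).trans h5.le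

end Pool.Agent.TH997.US
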