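import Pool.Agent.TH997.US.Stm

set_option autoImplicit false

namespace Pool.Agent.TH997.US

open Polynomial Finset Pool.Agent.H692R2.USS
open scoped Classical

namespace A6

/-- the partial sums of the lengths of the blocks -/
def be (F : ℕ → ℕ) : ℕ → ℕ
  | 0 => 0
  | j + 1 => be F j + F (be F j)

theorem be_mono (F : ℕ → ℕ) : Monotone (be F) :=
  monotone_nat_of_le_succ fun _ => Nat.le_add_right _ _

theorem dvd_fact {p i : ℕ} (hp : p.Prime) (hi : p ≤ i) : p * (p - 1) ∣ i.factorial := by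
  refine dvd_trans ?_ (Nat.factorial_dvd_factorial hi)
  obtain ⟨q, rfl⟩ : ∃ q, p = q + 1 := ⟨p - 1, by have := hp.two_le; omega⟩
  rw [Nat.factorial_succ, Nat.add_sub_cancel]
  refine Nat.mul_dvd_mul_left _ (Nat.dvd_factorial ?_ le_rfl)
  have := hp.two_le
  omega

theorem good_of {k x : ℕ} (hk : 1 ≤ k) (F : ℕ → ℕ) {i n : ℕ} (hi : 2 ^ be F k ≤ i)
    (h1 : ∀ j < k, ∃ p, p.Prime ∧ SplitAll k p ∧ x ≤ p ∧ p < 2 ^ F (be F j) ∧
      be F j ≤ n % (p - 1) ∧ 4 * k * (k + 1) * (n % (p - 1) + 1) ≤ Nat.log 2 p)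
    (h2 : ∀ p, p.Prime → x ≤ p → p < 2 ^ be F k →
      4 * k * (k + 1) * (n % (p - 1) + 1) ≤ Nat.log 2 p → Generic k p n) : Good i k n := by
  have h1' : ∀ j, ∃ p, j < k → p.Prime ∧ SplitAll k p ∧ x ≤ p ∧ p < 2 ^ F (be F j) ∧
      be F j ≤ n % (p - 1) ∧ 4 * k * (k + 1) * (n % (p - 1) + 1) ≤ Nat.log 2 p := by
    intro j
    by_cases hj : j < k
    · obtain ⟨p, hp⟩ := h1 j hj
      exact ⟨p, fun _ => hp⟩
    · exact ⟨0, fun h => absurd h hj⟩
  choose p hp using h1'
  have hlt : ∀ j < k, n % (p j - 1) < be F (j + 1) := by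
    intro j hj
    obtain ⟨ha, -, -, hd, -, hf⟩ := hp j hj
    have h3 : Nat.log 2 (p j) < F (be F j) := Nat.log_lt_of_lt_pow ha.pos.ne' hd
    have h4 : n % (p j - 1) + 1 ≤ 4 * k * (k + 1) * (n % (p j - 1) + 1) :=
      Nat.le_mul_of_pos_left _ (by positivity)
    show n % (p j - 1) < be F j + F (be F j)
    omega
  have hpk : ∀ j < k, p j < 2 ^ be F k := by
    intro j hj
    obtain ⟨-, -, -, hd, -⟩ := hp j hj
    refine hd.trans_le (Nat.pow_le_pow_right (by norm_num) ?_)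
    have h3 : be F (j + 1) ≤ be F k := be_mono F (by omega)
    have h4 : be F (j + 1) = be F j + F (be F j) := rfl
    omega
  refine ⟨(range k).image fun j => n % (p j - 1), ?_, ?_⟩
  · rw [card_image_of_injOn, card_range]
    have key : ∀ a < k, ∀ c < k, a < c → n % (p a - 1) < n % (p c - 1) := by
      intro a ha c hc hac
      have h3 := hlt a ha
      obtain ⟨-, -, -, -, h4, -⟩ := hp c hc
      have h5 : be F (a + 1) ≤ be F c := be_mono F (by omega)
      omega
    intro a ha c hc hac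
    simp only [coe_range, Set.mem_Iio] at ha hc
    have hac' : n % (p a - 1) = n % (p c - 1) := hac
    rcases lt_trichotomy a c with h | h | h
    · exact absurd hac' (key a ha c hc h).ne
    · exact h
    · exact absurd hac' (key c hc a ha h).ne'
  · intro b hb
    rw [mem_image] at hb
    obtain ⟨j, hj, rfl⟩ := hb
    rw [mem_range] at hj
    obtain ⟨ha, hs, hx, hd, he, hf⟩ := hp j hj
    exact ⟨p j, (hpk j hj).le.trans hi, ha, hs, hf, Nat.mod_modEq _ _,
      h2 _ ha hx (hpk j hj) hf⟩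

end A6

open A6 in
theorem a6 : A6 := by
  intro hB hN k ε hε
  rcases Nat.eq_zero_or_pos k with hk | hk
  · subst hk
    refine ⟨0, fun i _ => ?_⟩
    have h1 : (Finset.range i.factorial).filter (fun n => ¬ Good i 0 n) = ∅ := by
      rw [filter_eq_empty_iff]
      intro n _ h
      exact h ⟨∅, by simp, by simp⟩
    rw [h1]
    simp only [card_empty, Nat.cast_zero]
    positivity
  obtain ⟨x, hx⟩ := hN k hk (ε / 2) (by positivity)
  have hkR : (0 : ℝ) < k := by exact_mod_cast hk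
  have hε' : 0 < ε / (2 * k) := by positivity
  have hB' : ∀ β : ℕ, ∃ L : ℕ, ∀ M : ℕ, 0 < M → (∀ p, p.Prime → p < 2 ^ L → (p - 1) ∣ M) →
      (((Finset.range M).filter (fun n => ∀ p, p.Prime → SplitAll k p → x ≤ p → p < 2 ^ L →
        ¬ (β ≤ n % (p - 1) ∧ 4 * k * (k + 1) * (n % (p - 1) + 1) ≤ Nat.log 2 p))).card : ℝ) ≤
        ε / (2 * k) * M := fun β => hB k hk β x _ hε'
  choose F hF using hB'
  refine ⟨2 ^ be F k, fun i hi => ?_⟩
  obtain ⟨M, hM⟩ : ∃ M, M = i.factorial := ⟨_, rfl⟩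
  have hM0 : 0 < M := by rw [hM]; exact Nat.factorial_pos i
  have hdvd : ∀ p, p.Prime → p < 2 ^ be F k → p * (p - 1) ∣ M := by
    intro p hp hlt
    rw [hM]
    exact dvd_fact hp (hlt.le.trans hi)
  have hFle : ∀ j < k, F (be F j) ≤ be F k := by
    intro j hj
    have h3 : be F (j + 1) ≤ be F k := be_mono F (by omega)
    have h4 : be F (j + 1) = be F j + F (be F j) := rfl
    omega
  rw [← hM]
  obtain ⟨Q, hQ⟩ : ∃ Q : ℕ → Finset ℕ, Q = fun j => (Finset.range M).filter (fun n => ∀ p,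
    p.Prime → SplitAll k p → x ≤ p → p < 2 ^ F (be F j) →
      ¬ (be F j ≤ n % (p - 1) ∧ 4 * k * (k + 1) * (n % (p - 1) + 1) ≤ Nat.log 2 p)) := ⟨_, rfl⟩
  obtain ⟨R, hR⟩ : ∃ R : Finset ℕ, R = (Finset.range M).filter (fun n => ∃ p, p.Prime ∧ x ≤ p ∧
    p < 2 ^ be F k ∧ 4 * k * (k + 1) * (n % (p - 1) + 1) ≤ Nat.log 2 p ∧ ¬ Generic k p n) :=
      ⟨_, rfl⟩
  have hsub : (Finset.range M).filter (fun n => ¬ Good i k n) ⊆ (range k).biUnion Q ∪ R := by
    intro n hn
    rw [mem_filter] at hn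
    rw [mem_union, mem_biUnion]
    by_contra hcon
    rw [not_or] at hcon
    obtain ⟨hc1, hc2⟩ := hcon
    apply hn.2
    refine good_of (x := x) hk F hi ?_ ?_
    · intro j hj
      by_contra hno
      apply hc1
      refine ⟨j, mem_range.2 hj, ?_⟩
      rw [hQ]
      simp only
      rw [mem_filter]
      refine ⟨hn.1, fun p hp hs hxp hlt hh => hno ⟨p, hp, hs, hxp, hlt, hh.1, hh.2⟩⟩
    · intro p hp hxp hlt hlog
      by_contra hg
      apply hc2
      rw [hR, mem_filter]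
      exact ⟨hn.1, p, hp, hxp, hlt, hlog, hg⟩
  have hQc : ∀ j ∈ range k, ((Q j).card : ℝ) ≤ ε / (2 * k) * M := by
    intro j hj
    rw [mem_range] at hj
    rw [hQ]
    refine hF (be F j) M hM0 fun p hp hlt => ?_
    exact dvd_trans (dvd_mul_left _ _) (hdvd p hp (hlt.trans_le
      (Nat.pow_le_pow_right (by norm_num) (hFle j hj))))
  have hRc : (R.card : ℝ) ≤ ε / 2 * M := by
    rw [hR]
    exact hx (be F k) M hM0 hdvd
  have hcard : (((Finset.range M).filter (fun n => ¬ Good i k n)).card : ℝ) ≤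
      ∑ j ∈ range k, ((Q j).card : ℝ) + R.card := by
    have h1 : ((Finset.range M).filter (fun n => ¬ Good i k n)).card ≤
        ∑ j ∈ range k, (Q j).card + R.card :=
      (card_le_card hsub).trans ((card_union_le _ _).trans
        (Nat.add_le_add_right card_biUnion_le _))
    exact_mod_cast h1
  have hsum : ∑ j ∈ range k, ((Q j).card : ℝ) ≤ k * (ε / (2 * k) * M) := by
    refine (sum_le_sum hQc).trans ?_
    rw [sum_const, card_range, nsmul_eq_mul]
  calc (((Finset.range M).filter (fun n => ¬ Good i k n)).card : ℝ)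
      ≤ k * (ε / (2 * k) * M) + ε / 2 * M := by linarith
    _ = ε * M := by
      field_simp
      ring

end Pool.Agent.TH997.US
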