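import Pool.Agent.TH997.US.Stm
import Pool.Agent.H692R2.USS.W1

set_option autoImplicit false

/-! The set `S` and the thresholds are computable (job 2908, US-B1). -/

namespace Pool.Agent.TH997.US

open Polynomial Finset Pool.Agent.H692R2.USS
open scoped Classical

namespace B1

open Pool.Agent.Helper446.RE (cp_eq cp_le cp_lt cp_comp cp_of_re computable_of_graph)

theorem cfac0 : Computable Nat.factorial := by
  have h := cprod (α := ℕ) (g := fun _ i => i + 1) (f := fun n => n) (by fun_prop) (by fun_prop)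
  exact h.of_eq fun n => Finset.prod_range_add_one_eq_factorial n

theorem cfac {α : Type} [Primcodable α] {f : α → ℕ} (hf : Computable f) :
    Computable (fun x => (f x).factorial) := cfac0.comp hf

/-- the predicate in the definition of `iSeq` -/
def Q (i k : ℕ) : Prop :=
  (k + 1) * ((Finset.range i.factorial).filter (fun n => ¬ Good i k n)).card ≤ i.factorial

theorem cQ : ComputablePred (fun x : ℕ × ℕ => Q x.1 x.2) := by
  unfold Q
  have hfac : Computable (fun x : ℕ × ℕ => (x.1).factorial) := cfac (by fun_prop)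
  have hc : Computable (fun x : ℕ × ℕ =>
      ((Finset.range (x.1).factorial).filter (fun n => ¬ Good x.1 x.2 n)).card) := by
    refine ccount (p := fun (x : ℕ × ℕ) n => ¬ Good x.1 x.2 n) ?_ hfac
    refine ComputablePred.not ?_
    exact cp_comp good_computable (f := fun x : (ℕ × ℕ) × ℕ => (x.1.1, x.1.2, x.2)) (by fun_prop)
  exact cp_le (by fun_prop) hfac

theorem exQ (h : GoodDensity) (k : ℕ) : ∃ i, Q i k := by
  obtain ⟨i0, hi0⟩ := h k (1 / ((k : ℝ) + 1)) (by positivity)
  refine ⟨i0, ?_⟩
  have h1 := hi0 i0 le_rfl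
  unfold Q
  have hk : (0 : ℝ) < (k : ℝ) + 1 := by positivity
  rw [div_mul_eq_mul_div, one_mul, le_div_iff₀ hk] at h1
  have h2 : (((k + 1) * ((Finset.range i0.factorial).filter
      (fun n => ¬ Good i0 k n)).card : ℕ) : ℝ) ≤ (i0.factorial : ℝ) := by
    push_cast
    linarith
  exact_mod_cast h2

theorem iSeq_iff (h : GoodDensity) (k i : ℕ) : iSeq k = i ↔ Q i k ∧ ∀ j < i, ¬ Q j k := by
  have hne : ({i | (k + 1) * ((Finset.range i.factorial).filter (fun n => ¬ Good i k n)).card ≤
    i.factorial} : Set ℕ).Nonempty := exQ h k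
  have hmem : Q (iSeq k) k := Nat.sInf_mem hne
  have hlt : ∀ j < iSeq k, ¬ Q j k := by
    intro j hj hQ
    have h3 : iSeq k ≤ j := Nat.sInf_le (s := {i | (k + 1) * ((Finset.range i.factorial).filter
      (fun n => ¬ Good i k n)).card ≤ i.factorial}) hQ
    omega
  constructor
  · rintro rfl
    exact ⟨hmem, hlt⟩
  · rintro ⟨h1, h2⟩
    rcases lt_trichotomy (iSeq k) i with h3 | h3 | h3
    · exact absurd hmem (h2 _ h3)
    · exact h3
    · exact absurd h1 (hlt _ h3)

theorem ciSeq (h : GoodDensity) : Computable iSeq := by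
  refine computable_of_graph (ComputablePred.to_re ?_)
  have h1 : ComputablePred (fun x : ℕ × ℕ => Q x.2 x.1 ∧ ∀ j < x.2, ¬ Q j x.1) := by
    refine cp_and ?_ ?_
    · exact cp_comp cQ (f := fun x : ℕ × ℕ => (x.2, x.1)) (by fun_prop)
    · refine cp_all (p := fun (x : ℕ × ℕ) j => ¬ Q j x.1) ?_ (by fun_prop)
      refine ComputablePred.not ?_
      exact cp_comp cQ (f := fun x : (ℕ × ℕ) × ℕ => (x.2, x.1.1)) (by fun_prop)
  exact h1.of_eq fun x => (iSeq_iff h x.1 x.2).symm

theorem cNSeq (h : GoodDensity) : Computable NSeq := by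
  have hi := ciSeq h
  have h1 := Computable.nat_rec (α := ℕ) (f := fun n => n) (g := fun _ => (0 : ℕ))
    (h := fun (_ : ℕ) (y : ℕ × ℕ) => (y.1 + 1) * (y.2 + (iSeq y.1).factorial +
      (iSeq (y.1 + 1)).factorial + 1)) (by fun_prop) (by fun_prop) (by
        have e1 : Computable (fun x : ℕ × (ℕ × ℕ) => (iSeq x.2.1).factorial) :=
          cfac (hi.comp (by fun_prop))
        have e2 : Computable (fun x : ℕ × (ℕ × ℕ) => (iSeq (x.2.1 + 1)).factorial) :=
          cfac (hi.comp (by fun_prop))
        show Computable (fun x : ℕ × (ℕ × ℕ) => (x.2.1 + 1) * (x.2.2 + (iSeq x.2.1).factorial +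
          (iSeq (x.2.1 + 1)).factorial + 1))
        fun_prop)
  refine h1.of_eq fun n => ?_
  induction n with
  | zero => rfl
  | succ n ih =>
    simp only at ih ⊢
    rw [NSeq, ← ih]

theorem lev_iff (n m : ℕ) : lev n = m ↔
    m ≤ n ∧ (m = 0 ∨ NSeq m ≤ n) ∧ ∀ j < n + 1, j ≤ m ∨ ¬ NSeq j ≤ n := by
  unfold lev
  rw [Nat.findGreatest_eq_iff]
  refine and_congr_right fun _ => and_congr ?_ ?_
  · constructor
    · intro h
      by_cases h0 : m = 0
      · exact Or.inl h0
      · exact Or.inr (h h0)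
    · rintro (h | h) h0
      · exact absurd h h0
      · exact h
  · constructor
    · intro h j hj
      by_cases hjm : j ≤ m
      · exact Or.inl hjm
      · exact Or.inr (h (by omega) (by omega))
    · intro h j hj hjn
      rcases h j (by omega) with h1 | h1
      · omega
      · exact h1

theorem clev (h : GoodDensity) : Computable lev := by
  have hN := cNSeq h
  refine computable_of_graph (ComputablePred.to_re ?_)
  have h1 : ComputablePred (fun x : ℕ × ℕ => x.2 ≤ x.1 ∧ (x.2 = 0 ∨ NSeq x.2 ≤ x.1) ∧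
      ∀ j < x.1 + 1, j ≤ x.2 ∨ ¬ NSeq j ≤ x.1) := by
    refine cp_and (cp_le (by fun_prop) (by fun_prop)) (cp_and (cp_or
      (cp_eq (by fun_prop) (by fun_prop)) (cp_le (hN.comp (by fun_prop)) (by fun_prop))) ?_)
    refine cp_all (p := fun (x : ℕ × ℕ) j => j ≤ x.2 ∨ ¬ NSeq j ≤ x.1) ?_ (by fun_prop)
    exact cp_or (cp_le (by fun_prop) (by fun_prop)) (ComputablePred.not
      (cp_le (hN.comp (by fun_prop)) (by fun_prop)))
  exact h1.of_eq fun x => (lev_iff x.1 x.2).symm

theorem cS (h : GoodDensity) : ComputablePred (fun n : ℕ => n ∈ S) := by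
  have hl := clev h
  have hi := ciSeq h
  have h1 : ComputablePred (fun n : ℕ => Good (iSeq (lev n)) (lev n) n) := by
    refine cp_comp good_computable (f := fun n : ℕ => (iSeq (lev n), lev n, n)) ?_
    exact (hi.comp hl).pair (hl.pair Computable.id)
  exact h1

end B1

theorem b1 : B1 := fun h => ⟨B1.cNSeq h, B1.cS h⟩

end Pool.Agent.TH997.US
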