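import Pool.Agent.TH997.US.Stm

set_option autoImplicit false

namespace Pool.Agent.TH997.US

open Polynomial Finset Pool.Agent.H692R2.USS
open scoped Classical

namespace B2

lemma good_of_modEq {i k n n' : ℕ} (h : n ≡ n' [MOD i.factorial]) (hg : Good i k n) :
    Good i k n' := by
  obtain ⟨B, hB, h1⟩ := hg
  refine ⟨B, hB, fun b hb => ?_⟩
  obtain ⟨p, hpi, hp, hs, h2, h3, h4⟩ := h1 b hb
  have hp2 := hp.two_le
  have hd1 : p - 1 ∣ i.factorial := Nat.dvd_factorial (by omega) (by omega)
  have hd2 : p ∣ i.factorial := Nat.dvd_factorial (by omega) hpi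
  refine ⟨p, hpi, hp, hs, h2, h3.trans (h.of_dvd hd1), ?_⟩
  intro f hf hdeg hco hdvd
  apply h4 f hf hdeg hco
  have h5 : (p : ℤ) ∣ (n' : ℤ) - n := by
    have := (h.of_dvd hd2)
    exact (Nat.modEq_iff_dvd).1 this
  have h6 : (n' : ℤ) - n ∣ f.eval (n' : ℤ) - f.eval (n : ℤ) := Polynomial.sub_dvd_eval_sub _ _ _
  have h7 : (p : ℤ) ∣ f.eval (n' : ℤ) - f.eval (n : ℤ) := h5.trans h6
  exact (dvd_sub_right hdvd).1 h7

lemma good_periodic (i k : ℕ) : Function.Periodic (fun n => ¬ Good i k n) i.factorial := by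
  intro n
  have h1 : n ≡ n + i.factorial [MOD i.factorial] := by
    unfold Nat.ModEq; simp
  apply propext
  exact not_congr ⟨good_of_modEq h1.symm, good_of_modEq h1⟩

/-- counting in intervals -/
lemma count_le (P : ℕ → Prop) (m : ℕ) (hm : 0 < m) (hP : Function.Periodic P m) (a len : ℕ) :
    ((Ico a (a + len)).filter P).card ≤ (len / m + 1) * ((range m).filter P).card := by
  have h0 : ∀ q, ((Ico a (a + q * m)).filter P).card = q * ((range m).filter P).card := by
    intro q
    induction q with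
    | zero => simp
    | succ q ih =>
      have h1 : Ico a (a + (q + 1) * m) = Ico a (a + q * m) ∪ Ico (a + q * m) (a + q * m + m) := by
        rw [Finset.Ico_union_Ico_eq_Ico (by omega) (by omega)]
        congr 1
        ring
      rw [h1, Finset.filter_union, Finset.card_union_of_disjoint, ih,
        Nat.filter_Ico_card_eq_of_periodic _ _ _ hP, Nat.count_eq_card_filter_range]
      · ring
      · apply Finset.disjoint_filter_filter
        exact Finset.Ico_disjoint_Ico_consecutive _ _ _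
  rw [← h0]
  apply Finset.card_le_card
  apply Finset.filter_subset_filter
  apply Finset.Ico_subset_Ico_right
  have := Nat.div_add_mod len m
  have h2 := Nat.mod_lt len hm
  have h3 : (len / m + 1) * m = m * (len / m) + m := by ring
  omega

lemma iSeq_spec (hG : GoodDensity) (k : ℕ) :
    (k + 1) * ((Finset.range (iSeq k).factorial).filter (fun n => ¬ Good (iSeq k) k n)).card ≤
      (iSeq k).factorial := by
  obtain ⟨i0, h0⟩ := hG k (1 / ((k : ℝ) + 1)) (by positivity)
  have h1 := h0 i0 le_rfl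
  have hne : {i | (k + 1) * ((Finset.range i.factorial).filter (fun n => ¬ Good i k n)).card ≤
    i.factorial}.Nonempty := by
    refine ⟨i0, ?_⟩
    have h2 : (0 : ℝ) < (k : ℝ) + 1 := by positivity
    rw [div_mul_eq_mul_div, one_mul, le_div_iff₀ h2] at h1
    have h3 : (((k + 1) * ((Finset.range i0.factorial).filter (fun n => ¬ Good i0 k n)).card : ℕ) :
      ℝ) ≤ (i0.factorial : ℝ) := by
      push_cast
      linarith
    exact_mod_cast h3
  exact Nat.sInf_mem hne

lemma bad_le (hG : GoodDensity) (k a len : ℕ) :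
    (k + 1) * ((Ico a (a + len)).filter (fun n => ¬ Good (iSeq k) k n)).card ≤
      len + (iSeq k).factorial := by
  have hm : 0 < (iSeq k).factorial := Nat.factorial_pos _
  have h1 : ((Ico a (a + len)).filter (fun n => ¬ Good (iSeq k) k n)).card ≤
      (len / (iSeq k).factorial + 1) *
        ((range (iSeq k).factorial).filter (fun n => ¬ Good (iSeq k) k n)).card := by
    convert! count_le (fun n => ¬ Good (iSeq k) k n) (iSeq k).factorial hm
      (good_periodic _ _) a len
  have h2 := iSeq_spec hG k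
  calc (k + 1) * ((Ico a (a + len)).filter (fun n => ¬ Good (iSeq k) k n)).card
      ≤ (k + 1) * ((len / (iSeq k).factorial + 1) *
        ((range (iSeq k).factorial).filter (fun n => ¬ Good (iSeq k) k n)).card) :=
        Nat.mul_le_mul_left _ h1
    _ = (len / (iSeq k).factorial + 1) * ((k + 1) *
        ((range (iSeq k).factorial).filter (fun n => ¬ Good (iSeq k) k n)).card) := by ring
    _ ≤ (len / (iSeq k).factorial + 1) * (iSeq k).factorial := Nat.mul_le_mul_left _ h2
    _ = len / (iSeq k).factorial * (iSeq k).factorial + (iSeq k).factorial := by ring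
    _ ≤ len + (iSeq k).factorial := by
        have := Nat.div_mul_le_self len (iSeq k).factorial
        omega

lemma NSeq_succ (k : ℕ) : NSeq (k + 1) =
    (k + 1) * (NSeq k + (iSeq k).factorial + (iSeq (k + 1)).factorial + 1) := rfl

lemma NSeq_mono : StrictMono NSeq := by
  apply strictMono_nat_of_lt_succ
  intro k
  rw [NSeq_succ]
  nlinarith [Nat.zero_le (NSeq k), Nat.zero_le (iSeq k).factorial,
    Nat.zero_le (iSeq (k + 1)).factorial,
    Nat.zero_le (k * (NSeq k + (iSeq k).factorial + (iSeq (k + 1)).factorial + 1))]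

lemma lev_le (n : ℕ) : NSeq (lev n) ≤ n := by
  have h0 : NSeq 0 ≤ n := by
    have : NSeq 0 = 0 := rfl
    omega
  exact Nat.findGreatest_spec (P := fun k => NSeq k ≤ n) (Nat.zero_le n) h0

lemma lt_lev (n : ℕ) : n < NSeq (lev n + 1) := by
  by_contra h
  push Not at h
  have h1 : lev n + 1 ≤ n := (NSeq_mono.id_le _).trans h
  exact Nat.findGreatest_is_greatest (P := fun k => NSeq k ≤ n) (Nat.lt_succ_self _) h1 h

lemma lev_eq {n k : ℕ} (h1 : NSeq k ≤ n) (h2 : n < NSeq (k + 1)) : lev n = k := by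
  have h3 := lev_le n
  have h4 := lt_lev n
  have h5 : lev n < k + 1 := NSeq_mono.lt_iff_lt.1 (h3.trans_lt h2)
  have h6 : k < lev n + 1 := NSeq_mono.lt_iff_lt.1 (h1.trans_lt h4)
  omega

lemma le_lev {n k : ℕ} (h : NSeq k ≤ n) : k ≤ lev n :=
  Nat.le_findGreatest ((NSeq_mono.id_le k).trans h) h

/-- the elements outside `S` of level `k` in an interval -/
lemma lev_count (hG : GoodDensity) (k b : ℕ) (hb : NSeq k ≤ b) (hb2 : b ≤ NSeq (k + 1)) :
    (k + 1) * ((Ico (NSeq k) b).filter (fun n => n ∉ S)).card ≤ b + (iSeq k).factorial := by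
  have h1 : (Ico (NSeq k) b).filter (fun n => n ∉ S) =
      (Ico (NSeq k) (NSeq k + (b - NSeq k))).filter (fun n => ¬ Good (iSeq k) k n) := by
    rw [Nat.add_sub_cancel' hb]
    apply Finset.filter_congr
    intro n hn
    rw [Finset.mem_Ico] at hn
    have h2 := lev_eq hn.1 (hn.2.trans_le hb2)
    change ¬ Good (iSeq (lev n)) (lev n) n ↔ _
    rw [h2]
  rw [h1]
  have h3 := bad_le hG k (NSeq k) (b - NSeq k)
  omega

lemma total (hG : GoodDensity) (K N : ℕ) (h1 : NSeq (K + 1) ≤ N) (h2 : N < NSeq (K + 2)) :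
    (K + 1) * ((Finset.range N).filter (fun n => n ∉ S)).card ≤ 6 * N := by
  have h3 : (Finset.range N).filter (fun n => n ∉ S) ⊆ Finset.range (NSeq K) ∪
      ((Ico (NSeq K) (NSeq (K + 1))).filter (fun n => n ∉ S) ∪
        (Ico (NSeq (K + 1)) N).filter (fun n => n ∉ S)) := by
    intro n hn
    rw [Finset.mem_filter, Finset.mem_range] at hn
    simp only [Finset.mem_union, Finset.mem_range, Finset.mem_filter, Finset.mem_Ico]
    by_cases ha : n < NSeq K
    · exact Or.inl ha
    · by_cases hb : n < NSeq (K + 1)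
      · exact Or.inr (Or.inl ⟨⟨by omega, hb⟩, hn.2⟩)
      · exact Or.inr (Or.inr ⟨⟨by omega, hn.1⟩, hn.2⟩)
  have h4 := (Finset.card_le_card h3).trans (Finset.card_union_le _ _)
  have h5 := Finset.card_union_le ((Ico (NSeq K) (NSeq (K + 1))).filter (fun n => n ∉ S))
    ((Ico (NSeq (K + 1)) N).filter (fun n => n ∉ S))
  rw [Finset.card_range] at h4
  have h6 := lev_count hG K (NSeq (K + 1)) (NSeq_mono.monotone (Nat.le_succ K)) le_rfl
  have h7 := lev_count hG (K + 1) N h1 h2.le
  have h8 := NSeq_succ K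
  set c := ((Finset.range N).filter (fun n => n ∉ S)).card
  set c1 := ((Ico (NSeq K) (NSeq (K + 1))).filter (fun n => n ∉ S)).card
  set c2 := ((Ico (NSeq (K + 1)) N).filter (fun n => n ∉ S)).card
  have h9 : c ≤ NSeq K + (c1 + c2) := h4.trans (by omega)
  have h10 : (K + 1) * c2 ≤ (K + 1 + 1) * c2 := Nat.mul_le_mul_right _ (by omega)
  have h11 : (K + 1) * NSeq K + (K + 1) * (iSeq K).factorial +
    (K + 1) * (iSeq (K + 1)).factorial ≤ NSeq (K + 1) := by
    rw [h8]; nlinarith
  have h12 : (iSeq K).factorial ≤ (K + 1) * (iSeq K).factorial :=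
    Nat.le_mul_of_pos_left _ (by omega)
  have h13 : (iSeq (K + 1)).factorial ≤ (K + 1) * (iSeq (K + 1)).factorial :=
    Nat.le_mul_of_pos_left _ (by omega)
  calc (K + 1) * c ≤ (K + 1) * (NSeq K + (c1 + c2)) := Nat.mul_le_mul_left _ h9
    _ = (K + 1) * NSeq K + (K + 1) * c1 + (K + 1) * c2 := by ring
    _ ≤ 6 * N := by omega

end B2

theorem b2 : B2 := by
  intro hG
  rw [Metric.tendsto_atTop]
  intro ε hε
  obtain ⟨K0, hK0⟩ := exists_nat_gt (6 / ε)
  refine ⟨NSeq (K0 + 1), fun N hN => ?_⟩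
  have hlev : K0 + 1 ≤ lev N := B2.le_lev hN
  obtain ⟨K, hK⟩ : ∃ K, lev N = K + 1 := ⟨lev N - 1, by omega⟩
  have h1 : NSeq (K + 1) ≤ N := by rw [← hK]; exact B2.lev_le N
  have h2 : N < NSeq (K + 2) := by
    have := B2.lt_lev N
    rwa [hK] at this
  have h3 := B2.total hG K N h1 h2
  have hN0 : 0 < N := by
    have := B2.NSeq_mono.id_le (K0 + 1)
    simp only [id] at this
    omega
  have hN1 : (0 : ℝ) < N := by exact_mod_cast hN0
  have h4 : ((K : ℝ) + 1) * (((Finset.range N).filter (fun n => n ∉ S)).card : ℝ) ≤ 6 * N := by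
    exact_mod_cast h3
  have h5 : (K0 : ℝ) ≤ K := by
    have : K0 ≤ K := by omega
    exact_mod_cast this
  rw [Real.dist_eq, sub_zero, abs_of_nonneg (by positivity), div_lt_iff₀ hN1]
  have h6 : (0 : ℝ) < (K : ℝ) + 1 := by positivity
  have h7 : 6 < ε * ((K : ℝ) + 1) := by
    rw [div_lt_iff₀ hε] at hK0
    nlinarith
  have h8 : ((K : ℝ) + 1) * (((Finset.range N).filter (fun n => n ∉ S)).card : ℝ) <
      ((K : ℝ) + 1) * (ε * N) := by
    calc _ ≤ 6 * (N : ℝ) := h4
      _ < (ε * ((K : ℝ) + 1)) * N := by gcongr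
      _ = _ := by ring
  exact lt_of_mul_lt_mul_left h8 h6.le

end Pool.Agent.TH997.US
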