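import Pool.Agent.TH997.US.Stm

set_option autoImplicit false

/-!
# The key lemma: a good `n` is not a nontrivial zero
-/

namespace Pool.Agent.TH997.US

open Polynomial Finset Pool.Agent.H692R2.USS
open scoped Classical

namespace D0

theorem step {v : ℕ → ℤ} {p : ℕ} (h : ∀ n, (p : ℤ) ∣ v (n + (p - 1)) - v n) (x c : ℕ) :
    (p : ℤ) ∣ v (x + (p - 1) * c) - v x := by
  induction c with
  | zero => simp
  | succ c ih =>
    have h1 := h (x + (p - 1) * c)
    have e : x + (p - 1) * (c + 1) = x + (p - 1) * c + (p - 1) := by ring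
    rw [e]
    have h2 := dvd_add h1 ih
    rwa [sub_add_sub_cancel] at h2

theorem cong {v : ℕ → ℤ} {p : ℕ} (h : ∀ n, (p : ℤ) ∣ v (n + (p - 1)) - v n) {b n : ℕ}
    (hbn : b ≡ n [MOD p - 1]) : (p : ℤ) ∣ v n - v b := by
  rcases le_total b n with hle | hle
  · obtain ⟨c, hc⟩ := (Nat.modEq_iff_dvd' hle).1 hbn
    have e : n = b + (p - 1) * c := by omega
    rw [e]
    exact step h b c
  · obtain ⟨c, hc⟩ := (Nat.modEq_iff_dvd' hle).1 hbn.symm
    have e : b = n + (p - 1) * c := by omega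
    rw [← dvd_neg, neg_sub, e]
    exact step h n c

theorem vanish {m : ℕ} {x : ℕ → ℤ}
    (h : ∀ i : ℕ, ∑ j ∈ Finset.range m, ((i.choose j : ℕ) : ℤ) * x j = 0) :
    ∀ i < m, x i = 0 := by
  intro i
  induction i using Nat.strong_induction_on with
  | _ i ih =>
    intro hi
    have h1 := h i
    rw [Finset.sum_eq_single i] at h1
    · simpa using h1
    · intro j hj hji
      rw [Finset.mem_range] at hj
      rcases lt_or_gt_of_ne hji with hlt | hgt
      · rw [ih j hlt hj, mul_zero]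
      · rw [Nat.choose_eq_zero_of_lt hgt]
        simp
    · intro hni
      exact absurd (Finset.mem_range.2 hi) hni

theorem key (hDa : Da) (hDb : Db) (hDc : Dc) {u : ℕ → ℤ} {k : ℕ} {g s t q w : ℤ[X]} {rr : ℤ}
    {m D p0 T : ℕ} {v : ℕ → ℕ → ℤ} {n : ℕ} (h : CD u k g s t q w rr m D p0 T v) (hu : u n = 0)
    {p b : ℕ} (hg : GoodPair k p n b) : (∀ j < m, v j b = 0) ∧ b % T = n % T := by
  obtain ⟨hpp, hsplit, hlog, hmod, hgen⟩ := hg
  have hk : 1 ≤ k := h.m1.trans h.mle
  have hklog : k ≤ Nat.log 2 p := by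
    refine le_trans ?_ hlog
    nlinarith [Nat.zero_le b, Nat.zero_le k, Nat.zero_le (k * k), Nat.zero_le (k * b),
      Nat.zero_le (k * k * b)]
  have hkp : k < p := by
    calc k < 2 ^ k := Nat.lt_two_pow_self
      _ ≤ 2 ^ Nat.log 2 p := Nat.pow_le_pow_right (by norm_num) hklog
      _ ≤ p := Nat.pow_log_le_self 2 hpp.ne_zero
  have hT : T ∣ p - 1 := hDb k p T hpp hsplit hkp h.T1 h.Tk
  refine ⟨?_, Nat.ModEq.of_dvd hT hmod⟩
  obtain ⟨f, hfdeg, hfev, hfco⟩ := hDc m (fun j => v j b)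
  -- p divides f n
  have hdiv : (p : ℤ) ∣ f.eval (n : ℤ) := by
    rw [hfev n]
    have h1 : (p : ℤ) ∣ ∑ j ∈ Finset.range m, (n.choose j : ℤ) * v j n -
        ∑ j ∈ Finset.range m, (n.choose j : ℤ) * v j b := by
      rw [← Finset.sum_sub_distrib]
      refine Finset.dvd_sum fun j hj => ?_
      rw [← mul_sub]
      refine Dvd.dvd.mul_left ?_ _
      exact cong (hDa k p g s t rr (v j) hpp hsplit hkp h.monic h.deg h.coeff h.coeff0 h.bez
        h.rr0 h.rrk (h.ann j (Finset.mem_range.1 hj))) hmod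
    rw [← h.dec n, hu, mul_zero, zero_sub, dvd_neg] at h1
    exact Dvd.dvd.mul_left h1 _
  -- the coefficients are small
  have hsmall : ∑ j ∈ Finset.range m, (m.factorial : ℤ) * |v j b| < 2 ^ (k * (b + 1)) := by
    have hm0 : (0 : ℤ) < m := by
      have := h.m1
      exact_mod_cast this
    have h1 : ∑ j ∈ Finset.range m, (m : ℤ) * m.factorial * |v j b| <
        ∑ j ∈ Finset.range m, (2 : ℤ) ^ (k * (b + 1)) := by
      refine Finset.sum_lt_sum_of_nonempty ?_ ?_
      · rw [Finset.nonempty_range_iff]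
        have := h.m1
        omega
      · intro j hj
        exact h.gro j (Finset.mem_range.1 hj) b
    rw [Finset.sum_const, Finset.card_range, nsmul_eq_mul] at h1
    have h2 : ∑ j ∈ Finset.range m, (m : ℤ) * m.factorial * |v j b| =
        m * ∑ j ∈ Finset.range m, (m.factorial : ℤ) * |v j b| := by
      rw [Finset.mul_sum]
      refine Finset.sum_congr rfl fun j _ => ?_
      ring
    rw [h2] at h1
    exact lt_of_mul_lt_mul_left h1 hm0.le
  have hexp : k * (b + 1) ≤ Nat.log 2 p / (4 * (k + 1)) := by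
    rw [Nat.le_div_iff_mul_le (by positivity)]
    calc k * (b + 1) * (4 * (k + 1)) = 4 * k * (k + 1) * (b + 1) := by ring
      _ ≤ _ := hlog
  have hf0 : f = 0 := by
    by_contra hf
    refine hgen f hf ?_ ?_ hdiv
    · have := h.mle
      omega
    · intro i
      calc |f.coeff i| ≤ _ := hfco i
        _ < 2 ^ (k * (b + 1)) := hsmall
        _ ≤ 2 ^ (Nat.log 2 p / (4 * (k + 1))) := pow_le_pow_right₀ (by norm_num) hexp
  refine vanish (x := fun j => v j b) ?_
  intro i
  have h1 := hfev i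
  rw [hf0, eval_zero] at h1
  have hm : (m.factorial : ℤ) ≠ 0 := by exact_mod_cast m.factorial_ne_zero
  exact (mul_eq_zero.1 h1.symm).resolve_left hm

end D0

theorem d0 : D0 := by
  intro hC9 hDa hDb hDc u k g s t q w rr m D p0 T v i n h hgood hu j hj l
  obtain ⟨B, hB, hBp⟩ := hgood
  have hkey : ∀ b ∈ B, (∀ j < m, v j b = 0) ∧ b % T = n % T := by
    intro b hb
    obtain ⟨p, -, hp⟩ := hBp b hb
    exact D0.key hDa hDb hDc h hu hp
  have hT1 := h.T1
  refine hC9 g q w p0 T (v j) (n % T) k (B.image (fun b => b / T)) h.monic h.p0p h.p03 h.T1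
    h.per (h.ann j hj) ?_ ?_ l
  · rw [Finset.card_image_of_injOn]
    · exact hB
    · intro a ha b hb hab
      have ha' := (hkey a (Finset.mem_coe.1 ha)).2
      have hb' := (hkey b (Finset.mem_coe.1 hb)).2
      have h1 := Nat.mod_add_div a T
      have h2 := Nat.mod_add_div b T
      have hab' : a / T = b / T := hab
      rw [ha', hab'] at h1
      rw [hb'] at h2
      exact h1.symm.trans h2
  · intro l hl
    rw [Finset.mem_image] at hl
    obtain ⟨b, hb, rfl⟩ := hl
    obtain ⟨h1, h2⟩ := hkey b hb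
    rw [← h2, Nat.mod_add_div]
    exact h1 j hj

end Pool.Agent.TH997.US
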