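import Pool.Agent.TH997.US.Stm
import Pool.Agent.H884R2.Sko.Local

set_option autoImplicit false

namespace Pool.Agent.TH997.US

open Polynomial Finset Pool.Agent.H692R2.USS
open scoped Classical

namespace Da

/-- a nonzero small integer is a unit modulo a prime `p > k`. -/
theorem cast_ne {k p : ℕ} (hk : k < p) {a : ℤ} (ha : a ≠ 0) (hak : |a| ≤ k) :
    (a : ZMod p) ≠ 0 := by
  intro h
  rw [ZMod.intCast_zmod_eq_zero_iff_dvd] at h
  have := Int.le_of_dvd (abs_pos.2 ha) ((dvd_abs _ _).2 h)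
  omega

/-- a split separable monic polynomial with nonzero constant term divides `X^(p-1) - 1`. -/
theorem dvd_of {p : ℕ} [Fact p.Prime] {f : (ZMod p)[X]} (hs : f.Splits) (hm : f.Monic)
    (hsep : f.Separable) (h0 : f.coeff 0 ≠ 0) : f ∣ X ^ (p - 1) - 1 := by
  have hn := nodup_roots hsep
  have h1 : f = Pool.Agent.H884R2.Sko.poly f.roots.toFinset := by
    conv_lhs => rw [hs.eq_prod_roots_of_monic hm]
    unfold Pool.Agent.H884R2.Sko.poly
    rw [Finset.prod_eq_multiset_prod, Multiset.toFinset_val, hn.dedup]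
  rw [h1]
  apply Pool.Agent.H884R2.Sko.poly_dvd
  intro a ha
  rw [Multiset.mem_toFinset] at ha
  have ha1 := isRoot_of_mem_roots ha
  apply ZMod.pow_card_sub_one_eq_one
  rintro rfl
  apply h0
  rw [coeff_zero_eq_eval_zero]
  exact ha1

end Da

theorem da : Da := by
  intro k p g s t rr v hp hspl hkp hgm hgd hgc hg0 hbez hrr hrrk hann n
  have : Fact p.Prime := ⟨hp⟩
  set φ : ℤ →+* ZMod p := Int.castRingHom (ZMod p) with hφ
  have hsep : (g.map φ).Separable := by
    have h1 := congrArg (Polynomial.map φ) hbez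
    rw [Polynomial.map_add, Polynomial.map_mul, Polynomial.map_mul, ← derivative_map, map_C] at h1
    have hu : φ rr ≠ 0 := by
      have := Da.cast_ne hkp hrr hrrk
      simpa [hφ] using this
    refine ⟨C (φ rr)⁻¹ * s.map φ, C (φ rr)⁻¹ * t.map φ, ?_⟩
    rw [mul_assoc, mul_assoc, ← mul_add, h1, ← C_mul, inv_mul_cancel₀ hu, C_1]
  have h0 : (g.map φ).coeff 0 ≠ 0 := by
    rw [coeff_map]
    have := Da.cast_ne hkp hg0 (hgc 0)
    simpa [hφ] using this
  have hs : (g.map φ).Splits := hspl g hgm hgd hgc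
  have hd := Da.dvd_of hs (hgm.map φ) hsep h0
  have h2 := (hann.map φ).of_dvd hd
  unfold Ann at h2
  have h3 := congrFun h2 n
  rw [map_sub, map_pow, aeval_X, map_one, LinearMap.sub_apply, Pi.sub_apply, E_pow_apply,
    Module.End.one_apply, Pi.zero_apply] at h3
  rw [← ZMod.intCast_zmod_eq_zero_iff_dvd, Int.cast_sub]
  simpa [hφ] using h3

end Pool.Agent.TH997.US
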