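import Pool.Agent.TH997.US.Stm

set_option autoImplicit false

/-!
`T` divides `p - 1` for split primes; interpolation polynomials (helper713).
-/

namespace Pool.Agent.TH997.US

open Polynomial Finset Pool.Agent.H692R2.USS
open scoped Classical

namespace Dbc

theorem dp_coeff (j : ℕ) : ∀ i, |(descPochhammer ℤ j).coeff i| ≤ (j.factorial : ℤ) := by
  induction j with
  | zero =>
    intro i
    rw [descPochhammer_zero, coeff_one]
    split_ifs <;> simp
  | succ j ih =>
    intro i
    have e : descPochhammer ℤ (j + 1) = descPochhammer ℤ j * X - C (j : ℤ) * descPochhammer ℤ j := by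
      rw [descPochhammer_succ_right]
      simp only [map_natCast]
      ring
    rw [e, coeff_sub, coeff_C_mul, Nat.factorial_succ]
    have h1 : |(descPochhammer ℤ j * X).coeff i| ≤ (j.factorial : ℤ) := by
      rcases i with _ | i
      · rw [mul_coeff_zero, coeff_X_zero, mul_zero, abs_zero]; positivity
      · rw [coeff_mul_X]; exact ih i
    have h2 : |(j : ℤ) * (descPochhammer ℤ j).coeff i| ≤ j * (j.factorial : ℤ) := by
      rw [abs_mul, Nat.abs_cast]
      exact mul_le_mul_of_nonneg_left (ih i) (by positivity)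
    refine (abs_sub _ _).trans ?_
    push_cast
    linarith

end Dbc

open Dbc

theorem db : Db := by
  intro k p T hp hs hkp hT hTk
  haveI : Fact p.Prime := ⟨hp⟩
  haveI : NeZero T := ⟨by omega⟩
  have hmon : (X ^ T - 1 : ℤ[X]).Monic := by
    have := monic_X_pow_sub_C (1 : ℤ) (by omega : T ≠ 0)
    rwa [C_1] at this
  have hdeg : (X ^ T - 1 : ℤ[X]).natDegree ≤ k := by
    have := natDegree_X_pow_sub_C (n := T) (r := (1 : ℤ))
    rw [C_1] at this
    omega
  have hco : ∀ i, |(X ^ T - 1 : ℤ[X]).coeff i| ≤ k := by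
    intro i
    have hk : (1 : ℤ) ≤ k := by exact_mod_cast (by omega : 1 ≤ k)
    rw [coeff_sub, coeff_X_pow, coeff_one]
    split_ifs <;> simp <;> omega
  have hsp := hs _ hmon hdeg hco
  have hmap : (X ^ T - 1 : ℤ[X]).map (Int.castRingHom (ZMod p)) = X ^ T - C 1 := by
    simp
  rw [hmap] at hsp
  have hTp : ((T : ℕ) : ZMod p) ≠ 0 := by
    intro h
    rw [ZMod.natCast_eq_zero_iff] at h
    have := Nat.le_of_dvd (by omega) h
    omega
  have hsep : (X ^ T - C 1 : (ZMod p)[X]).Separable := by
    rw [C_1]
    exact X_pow_sub_one_separable_iff.mpr hTp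
  have hnd : (X ^ T - C 1 : (ZMod p)[X]).roots.Nodup := nodup_roots hsep
  have hcard : Multiset.card (X ^ T - C 1 : (ZMod p)[X]).roots = T := by
    rw [← hsp.natDegree_eq_card_roots, natDegree_X_pow_sub_C]
  have h1 : Nat.card (rootsOfUnity T (ZMod p)) = T := by
    rw [Nat.card_congr (rootsOfUnityEquivNthRoots (ZMod p) T)]
    unfold nthRoots
    rw [Nat.card_eq_fintype_card, Fintype.card_of_subtype
      ((X ^ T - C 1 : (ZMod p)[X]).roots.toFinset) (by intro x; simp),
      Multiset.toFinset_card_of_nodup hnd, hcard]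
  have h2 := Subgroup.card_subgroup_dvd_card (rootsOfUnity T (ZMod p))
  rw [h1, Nat.card_eq_fintype_card, ZMod.card_units] at h2
  exact h2

theorem dc : Dc := by
  intro m x
  refine ⟨∑ j ∈ range m, C (((m.factorial / j.factorial : ℕ) : ℤ) * x j) * descPochhammer ℤ j,
    ?_, ?_, ?_⟩
  · apply natDegree_sum_le_of_forall_le
    intro j hj
    rw [mem_range] at hj
    refine (natDegree_C_mul_le _ _).trans ?_
    rw [descPochhammer_natDegree]
    omega
  · intro n
    rw [eval_finset_sum, mul_sum]
    apply sum_congr rfl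
    intro j hj
    rw [mem_range] at hj
    rw [eval_mul, eval_C, descPochhammer_eval_eq_descFactorial,
      Nat.descFactorial_eq_factorial_mul_choose]
    have h := Nat.div_mul_cancel (Nat.factorial_dvd_factorial hj.le)
    have h' : (((m.factorial / j.factorial : ℕ) : ℤ)) * (j.factorial : ℤ) = m.factorial := by
      exact_mod_cast h
    rw [← h']
    push_cast
    ring
  · intro i
    rw [finset_sum_coeff]
    refine (abs_sum_le_sum_abs _ _).trans ?_
    apply sum_le_sum
    intro j hj
    rw [mem_range] at hj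
    rw [coeff_C_mul, abs_mul, abs_mul, Nat.abs_cast]
    have h := Nat.div_mul_cancel (Nat.factorial_dvd_factorial hj.le)
    have h' : (((m.factorial / j.factorial : ℕ) : ℤ)) * (j.factorial : ℤ) = m.factorial := by
      exact_mod_cast h
    calc ((m.factorial / j.factorial : ℕ) : ℤ) * |x j| * |(descPochhammer ℤ j).coeff i| ≤
        ((m.factorial / j.factorial : ℕ) : ℤ) * |x j| * (j.factorial : ℤ) :=
          mul_le_mul_of_nonneg_left (dp_coeff j i) (by positivity)
      _ = (((m.factorial / j.factorial : ℕ) : ℤ)) * (j.factorial : ℤ) * |x j| := by ring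
      _ = m.factorial * |x j| := by rw [h']

end Pool.Agent.TH997.US
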