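import Pool.Agent.TH997.US.Stm
import Mathlib

set_option autoImplicit false

/-! E1: decomposition of a linear recurrence sequence (helper751 for helper997) -/

namespace Pool.Agent.TH997.US.E1

open Polynomial Finset Pool.Agent.H692R2.USS
open scoped Classical

/-- evaluation of `f(E) u` at `0` -/
noncomputable def Phi (u : ℕ → ℚ) : ℚ[X] →ₗ[ℚ] ℚ where
  toFun f := aeval (Pool.Agent.H692R2.USS.E ℚ) f u 0
  map_add' f g := by simp
  map_smul' c f := by simp

lemma Phi_X_pow (u : ℕ → ℚ) (n : ℕ) : Phi u (X ^ n) = u n := by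
  change aeval (Pool.Agent.H692R2.USS.E ℚ) (X ^ n) u 0 = u n
  rw [map_pow, aeval_X, E_pow_apply, zero_add]

lemma Phi_of_dvd {u : ℕ → ℚ} {G f : ℚ[X]} (hu : Ann G u) (h : G ∣ f) : Phi u f = 0 := by
  have h2 : aeval (Pool.Agent.H692R2.USS.E ℚ) f u = 0 := hu.of_dvd h
  change aeval (Pool.Agent.H692R2.USS.E ℚ) f u 0 = 0
  rw [h2]
  rfl

theorem decomp (g : ℚ[X]) (hsep : g.Separable) (hg0 : g.coeff 0 ≠ 0) (M : ℕ) (u : ℕ → ℚ)
    (hu : Ann (g ^ M) u) :
    ∃ (m : ℕ) (v : ℕ → ℕ → ℚ), 1 ≤ m ∧ (∀ j, Ann g (v j)) ∧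
      ∀ n : ℕ, u n = ∑ j ∈ Finset.range m, (n.choose j : ℚ) * v j n := by
  obtain ⟨s, t, hst⟩ := hsep
  obtain ⟨I, hI⟩ : ∃ I : Ideal ℚ[X], I = Ideal.span {g ^ M} := ⟨_, rfl⟩
  obtain ⟨q, hqd⟩ : ∃ q : ℚ[X] →ₐ[ℚ] ℚ[X] ⧸ I, q = Ideal.Quotient.mkₐ ℚ I := ⟨_, rfl⟩
  have hq : ∀ f, q f = 0 → g ^ M ∣ f := fun f hf => by
    rw [hqd, Ideal.Quotient.mkₐ_eq_mk, Ideal.Quotient.eq_zero_iff_mem, hI,
      Ideal.mem_span_singleton] at hf
    exact hf
  have hqg : q (g ^ M) = 0 := by
    rw [hqd, Ideal.Quotient.mkₐ_eq_mk, Ideal.Quotient.eq_zero_iff_mem, hI]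
    exact Ideal.mem_span_singleton_self _
  have hqs : Function.Surjective q := by
    rw [hqd]
    exact Ideal.Quotient.mkₐ_surjective ℚ I
  have hx : ∀ f : ℚ[X], aeval (q X) f = q f := by
    intro f
    rw [aeval_algHom_apply, aeval_X_left_apply]
  have hnil : IsNilpotent (aeval (q X) g) := ⟨M, by rw [hx, ← map_pow, hqg]⟩
  have hunit : IsUnit (aeval (q X) (derivative g)) := by
    have e1 : q t * q (derivative g) = 1 - q s * q g := by
      rw [← map_mul, ← map_mul, ← map_one q, ← map_sub, ← hst]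
      congr 1
      ring
    have e2 : IsNilpotent (q s * q g) := by
      rw [hx] at hnil
      exact (Commute.all _ _).isNilpotent_mul_left hnil
    have e3 : IsUnit (q t * q (derivative g)) := by
      rw [e1]
      exact e2.isUnit_one_sub
    rw [hx]
    exact isUnit_of_mul_isUnit_right e3
  obtain ⟨y, ⟨⟨m0, hm0⟩, hy⟩, -⟩ := existsUnique_nilpotent_sub_and_aeval_eq_zero hnil hunit
  obtain ⟨Y, hY⟩ := hqs y
  obtain ⟨z, hz⟩ : ∃ z, y * z = 1 := by
    have e1 : aeval y (divX g) * y + algebraMap ℚ _ (g.coeff 0) = 0 := by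
      have := congrArg (aeval y) (divX_mul_X_add g)
      rw [map_add, map_mul, aeval_X, aeval_C, hy] at this
      exact this
    refine ⟨-(algebraMap ℚ _ (g.coeff 0)⁻¹ * aeval y (divX g)), ?_⟩
    have e2 : (algebraMap ℚ (ℚ[X] ⧸ I) (g.coeff 0)⁻¹) * (algebraMap ℚ (ℚ[X] ⧸ I) (g.coeff 0)) = 1 := by
      rw [← map_mul, inv_mul_cancel₀ hg0, map_one]
    have e3 : aeval y (divX g) * y = - algebraMap ℚ _ (g.coeff 0) := by
      linear_combination e1
    calc y * -(algebraMap ℚ _ (g.coeff 0)⁻¹ * aeval y (divX g)) =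
          -(algebraMap ℚ _ (g.coeff 0)⁻¹ * (aeval y (divX g) * y)) := by ring
      _ = algebraMap ℚ _ (g.coeff 0)⁻¹ * algebraMap ℚ _ (g.coeff 0) := by rw [e3]; ring
      _ = 1 := e2
  obtain ⟨Z, hZ⟩ := hqs z
  refine ⟨m0 + 1, fun j n => Phi u (Y ^ n * (Z ^ j * (X - Y) ^ j)), by omega, ?_, ?_⟩
  · intro j
    rw [ann_iff (Nat.lt_succ_self _)]
    intro n
    have e1 : ∑ i ∈ Finset.range (g.natDegree + 1), g.coeff i *
        Phi u (Y ^ (n + i) * (Z ^ j * (X - Y) ^ j)) =
        Phi u ((∑ i ∈ Finset.range (g.natDegree + 1), g.coeff i • Y ^ i) *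
          (Y ^ n * (Z ^ j * (X - Y) ^ j))) := by
      rw [Finset.sum_mul, map_sum]
      refine Finset.sum_congr rfl fun i _ => ?_
      rw [smul_mul_assoc, map_smul, smul_eq_mul, pow_add]
      congr 2
      ring
    refine e1.trans (Phi_of_dvd hu (hq _ ?_))
    have e2 : q (∑ i ∈ Finset.range (g.natDegree + 1), g.coeff i • Y ^ i) = 0 := by
      rw [map_sum, ← hy, aeval_eq_sum_range' (Nat.lt_succ_self _)]
      refine Finset.sum_congr rfl fun i _ => ?_
      rw [map_smul, map_pow, hY]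
    rw [map_mul, e2, zero_mul]
  · intro n
    obtain ⟨F, hF⟩ : ∃ F : ℕ → ℚ[X], F = fun j => (n.choose j : ℚ) • (Y ^ n * (Z ^ j * (X - Y) ^ j)) :=
      ⟨_, rfl⟩
    have hqF : ∀ j, q (F j) = (n.choose j : ℚ) • (y ^ n * (z ^ j * (q X - y) ^ j)) := by
      intro j
      rw [hF]
      simp only
      rw [map_smul, map_mul, map_mul, map_pow, map_pow, map_pow, map_sub, hY, hZ]
    have h1 : q (X ^ n) = q (∑ j ∈ Finset.range (m0 + 1), F j) := by
      rw [map_sum, map_pow]
      have h2 : (q X) ^ n = ∑ j ∈ Finset.range (n + 1), q (F j) := by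
        conv_lhs => rw [show q X = (q X - y) + y by ring]
        rw [add_pow]
        refine Finset.sum_congr rfl fun j hj => ?_
        have hj' : j ≤ n := by
          rw [Finset.mem_range] at hj
          omega
        have h3 : y ^ (n - j) = y ^ n * z ^ j := by
          calc y ^ (n - j) = y ^ (n - j) * (y * z) ^ j := by rw [hz, one_pow, mul_one]
            _ = y ^ (n - j + j) * z ^ j := by rw [mul_pow, ← mul_assoc, pow_add]
            _ = _ := by rw [Nat.sub_add_cancel hj']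
        rw [hqF, h3, Nat.cast_smul_eq_nsmul, nsmul_eq_mul]
        ring
      rw [h2]
      have h4 : ∀ N, n + 1 ≤ N → ∑ j ∈ Finset.range (n + 1), q (F j) =
          ∑ j ∈ Finset.range N, q (F j) := by
        intro N hN
        refine Finset.sum_subset (Finset.range_subset_range.2 hN) fun j _ hj => ?_
        rw [Finset.mem_range, not_lt] at hj
        rw [hqF, Nat.choose_eq_zero_of_lt (by omega), Nat.cast_zero, zero_smul]
      have h5 : ∀ N, m0 + 1 ≤ N → ∑ j ∈ Finset.range (m0 + 1), q (F j) =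
          ∑ j ∈ Finset.range N, q (F j) := by
        intro N hN
        refine Finset.sum_subset (Finset.range_subset_range.2 hN) fun j _ hj => ?_
        rw [Finset.mem_range, not_lt] at hj
        have h6 : (q X - y) ^ j = 0 := pow_eq_zero_of_le (by omega) hm0
        rw [hqF, h6, mul_zero, mul_zero, smul_zero]
      rw [h4 (max (n + 1) (m0 + 1)) (le_max_left _ _), h5 _ (le_max_right _ _)]
    have h7 : Phi u (X ^ n) = Phi u (∑ j ∈ Finset.range (m0 + 1), F j) := by
      rw [← sub_eq_zero, ← map_sub]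
      refine Phi_of_dvd hu (hq _ ?_)
      rw [map_sub, h1, sub_self]
    rw [← Phi_X_pow u n, h7, map_sum]
    refine Finset.sum_congr rfl fun j _ => ?_
    rw [hF]
    simp only
    rw [map_smul, smul_eq_mul]

/-- clearing denominators in the Bezout identity -/
theorem bezout (F : ℤ[X]) (hsep : (F.map (Int.castRingHom ℚ)).Separable) :
    ∃ (s t : ℤ[X]) (rr : ℤ), s * F + t * derivative F = C rr ∧ rr ≠ 0 := by
  obtain ⟨a, b, hab⟩ := hsep
  obtain ⟨na, hna⟩ := IsLocalization.integerNormalization_map_to_map (nonZeroDivisors ℤ) a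
  obtain ⟨nb, hnb⟩ := IsLocalization.integerNormalization_map_to_map (nonZeroDivisors ℤ) b
  set A := IsLocalization.integerNormalization (nonZeroDivisors ℤ) a
  set B := IsLocalization.integerNormalization (nonZeroDivisors ℤ) b
  have hna0 : (na : ℤ) ≠ 0 := nonZeroDivisors.ne_zero na.2
  have hnb0 : (nb : ℤ) ≠ 0 := nonZeroDivisors.ne_zero nb.2
  have halg : algebraMap ℤ ℚ = Int.castRingHom ℚ := rfl
  rw [halg] at hna hnb
  have hinj : Function.Injective (Int.castRingHom ℚ) := Int.cast_injective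
  refine ⟨C (nb : ℤ) * A, C (na : ℤ) * B, (na : ℤ) * nb, ?_, mul_ne_zero hna0 hnb0⟩
  apply Polynomial.map_injective (Int.castRingHom ℚ) hinj
  rw [Polynomial.map_add, Polynomial.map_mul, Polynomial.map_mul, Polynomial.map_mul,
    Polynomial.map_mul, map_C, map_C, map_C, hna, hnb, ← derivative_map]
  have e1 : ((na : ℤ) • a : ℚ[X]) = C (((na : ℤ) : ℚ)) * a := by
    rw [← smul_eq_C_mul, Int.cast_smul_eq_zsmul]
  have e2 : ((nb : ℤ) • b : ℚ[X]) = C (((nb : ℤ) : ℚ)) * b := by
    rw [← smul_eq_C_mul, Int.cast_smul_eq_zsmul]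
  rw [e1, e2]
  simp only [eq_intCast, Int.cast_mul, C_mul]
  linear_combination (C (((na : ℤ) : ℚ)) * C (((nb : ℤ) : ℚ))) * hab

/-- squarefree part with integer coefficients -/
theorem sqfree (χ : ℤ[X]) (hχ : χ.Monic) : ∃ (g : ℤ[X]) (M : ℕ), g.Monic ∧
    (g.map (Int.castRingHom ℚ)).Separable ∧
    g.map (Int.castRingHom ℚ) ∣ χ.map (Int.castRingHom ℚ) ∧
    χ.map (Int.castRingHom ℚ) ∣ (g.map (Int.castRingHom ℚ)) ^ M := by
  have hne : χ.map (Int.castRingHom ℚ) ≠ 0 := (hχ.map _).ne_zero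
  obtain ⟨y, M, hy, hyd, hdy⟩ := exists_squarefree_dvd_pow_of_ne_zero hne
  have hy0 : y ≠ 0 := ne_zero_of_dvd_ne_zero hne hyd
  obtain ⟨g, hg⟩ := IsIntegrallyClosed.eq_map_mul_C_of_dvd ℚ hχ hyd
  have hlc : y.leadingCoeff ≠ 0 := leadingCoeff_ne_zero.2 hy0
  have hg' : g.map (Int.castRingHom ℚ) * C y.leadingCoeff = y := hg
  have hu : IsUnit (C y.leadingCoeff : ℚ[X]) := isUnit_C.2 hlc.isUnit
  have hass : Associated (g.map (Int.castRingHom ℚ)) y := by
    rw [← hg']
    exact (associated_mul_unit_right _ _ hu)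
  have hgm : (g.map (Int.castRingHom ℚ)).Monic := by
    have h1 := congrArg leadingCoeff hg'
    rw [leadingCoeff_mul, leadingCoeff_C] at h1
    exact mul_right_cancel₀ hlc (h1.trans (one_mul _).symm)
  refine ⟨g, M, ?_, ?_, ?_, ?_⟩
  · exact monic_of_injective Int.cast_injective hgm
  · exact PerfectField.separable_iff_squarefree.2 ((hass.squarefree_iff).2 hy)
  · exact hass.dvd.trans hyd
  · exact hdy.trans (hass.symm.pow_pow).dvd

/-- clearing the denominators of finitely many sequences -/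
theorem clear (g : ℤ[X]) (hg : g.Monic) (v : ℕ → ℕ → ℚ)
    (hv : ∀ j, Ann (g.map (Int.castRingHom ℚ)) (v j)) (m : ℕ) :
    ∃ (D : ℕ) (w : ℕ → ℕ → ℤ), 1 ≤ D ∧ ∀ j < m, ∀ n, (w j n : ℚ) = D * v j n := by
  obtain ⟨D, hD⟩ : ∃ D : ℕ, D = ∏ j ∈ Finset.range m, ∏ n ∈ Finset.range g.natDegree,
    (v j n).den := ⟨_, rfl⟩
  have hD1 : 1 ≤ D := by
    rw [hD]
    exact Finset.prod_pos fun j _ => Finset.prod_pos fun n _ => (v j n).den_pos
  have key : ∀ j < m, ∀ n, ∃ w : ℤ, (w : ℚ) = D * v j n := by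
    intro j hj n
    induction n using Nat.strong_induction_on with
    | _ n ih =>
      by_cases hn : n < g.natDegree
      · have h1 : (v j n).den ∣ D := by
          rw [hD]
          exact (Finset.dvd_prod_of_mem (fun n => (v j n).den) (Finset.mem_range.2 hn)).trans
            (Finset.dvd_prod_of_mem (fun j => ∏ n ∈ Finset.range g.natDegree, (v j n).den)
              (Finset.mem_range.2 hj))
        obtain ⟨c, hc⟩ := h1
        refine ⟨c * (v j n).num, ?_⟩
        have h2 : ((v j n).den : ℚ) * v j n = (v j n).num := by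
          rw [mul_comm]; exact Rat.mul_den_eq_num _
        rw [hc]
        push_cast
        calc (c : ℚ) * (v j n).num = c * (((v j n).den : ℚ) * v j n) := by rw [h2]
          _ = _ := by ring
      · push Not at hn
        have hnd : (g.map (Int.castRingHom ℚ)).natDegree = g.natDegree := hg.natDegree_map _
        have h := (ann_iff (Nat.lt_succ_self _)).1 (hv j) (n - g.natDegree)
        rw [hnd, Nat.succ_eq_add_one, Finset.sum_range_succ, coeff_map, hg.coeff_natDegree,
          map_one, one_mul, Nat.sub_add_cancel hn] at h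
        have h3 : ∀ i ∈ Finset.range g.natDegree, ∃ w : ℤ,
            (w : ℚ) = D * v j (n - g.natDegree + i) := by
          intro i hi
          rw [Finset.mem_range] at hi
          exact ih _ (by omega)
        choose! w hw using h3
        refine ⟨-∑ i ∈ Finset.range g.natDegree, g.coeff i * w i, ?_⟩
        have h4 : v j n = -∑ i ∈ Finset.range g.natDegree,
            (g.map (Int.castRingHom ℚ)).coeff i * v j (n - g.natDegree + i) := by
          linear_combination h
        rw [h4, mul_neg, Finset.mul_sum]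
        push_cast
        congr 1
        refine Finset.sum_congr rfl fun i hi => ?_
        rw [hw i hi, coeff_map, eq_intCast]
        ring
  choose! w hw using key
  exact ⟨D, w, hD1, hw⟩

end Pool.Agent.TH997.US.E1

namespace Pool.Agent.TH997.US

open Polynomial Finset Pool.Agent.H692R2.USS
open scoped Classical

theorem e1 : E1 := by
  intro χ u hχ hχ0 hu
  obtain ⟨g, M, hg, hsep, hgd, hdg⟩ := E1.sqfree χ hχ
  obtain ⟨s, t, rr, hb, hrr⟩ := E1.bezout g hsep
  have hc0 : (g.map (Int.castRingHom ℚ)).coeff 0 ≠ 0 := by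
    obtain ⟨f, hf⟩ := hgd
    intro h
    have h1 := congrArg (fun p => p.coeff 0) hf
    simp only [mul_coeff_zero, h, zero_mul, coeff_map, eq_intCast] at h1
    exact hχ0 (by exact_mod_cast h1)
  have huQ : Ann (χ.map (Int.castRingHom ℚ)) (fun n => ((u n : ℤ) : ℚ)) := hu.map (Int.castRingHom ℚ)
  obtain ⟨m, v, hm, hv, hdec⟩ := E1.decomp _ hsep hc0 M _ (huQ.of_dvd hdg)
  obtain ⟨D, w, hD, hw⟩ := E1.clear g hg v hv m
  refine ⟨g, s, t, rr, m, D, w, hg, ?_, hb, hrr, hm, hD, ?_, ?_⟩
  · intro h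
    apply hc0
    rw [coeff_map, h, map_zero]
  · intro j hj
    rw [ann_iff (Nat.lt_succ_self _)]
    intro n
    have h1 := (ann_iff (Nat.lt_succ_self _)).1 (hv j) n
    rw [hg.natDegree_map] at h1
    have h2 : ((∑ i ∈ Finset.range (g.natDegree + 1), g.coeff i * w j (n + i) : ℤ) : ℚ) = 0 := by
      push_cast
      have h3 : ∑ i ∈ Finset.range (g.natDegree + 1), (g.coeff i : ℚ) * (w j (n + i) : ℚ) =
          D * ∑ i ∈ Finset.range (g.natDegree + 1),
            (g.map (Int.castRingHom ℚ)).coeff i * v j (n + i) := by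
        rw [Finset.mul_sum]
        refine Finset.sum_congr rfl fun i _ => ?_
        rw [hw j hj, coeff_map, eq_intCast]
        ring
      rw [h3]
      have h4 : ∑ i ∈ Finset.range (g.natDegree + 1),
            (g.map (Int.castRingHom ℚ)).coeff i * v j (n + i) = 0 := h1
      rw [h4, mul_zero]
    exact_mod_cast h2
  · intro n
    have h1 := hdec n
    have h2 : ((D : ℤ) * u n : ℚ) = ∑ j ∈ Finset.range m, (n.choose j : ℚ) * (w j n : ℚ) := by
      rw [Int.cast_natCast, h1, Finset.mul_sum]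
      refine Finset.sum_congr rfl fun j hj => ?_
      rw [hw j (Finset.mem_range.1 hj)]
      ring
    exact_mod_cast h2

end Pool.Agent.TH997.US
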