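import Pool.Agent.TH997.US.Stm

set_option autoImplicit false

/-!
# Coded certificates are sound (job US-F1, helper699)
-/

namespace Pool.Agent.TH997.US

open Polynomial Finset Pool.Agent.H692R2.USS
open scoped Classical

namespace F1

/-- the polynomial coded by a list -/
noncomputable def PL (A : List Z) : ℤ[X] := ∑ i ∈ range A.length, C (iv (A.getD i (0, 0))) * X ^ i

lemma lc_zero {A : List Z} {i : ℕ} (h : A.length ≤ i) : lc A i = (0, 0) := by
  unfold lc
  rw [List.getD_eq_getElem?_getD, List.getElem?_eq_none h]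
  rfl

lemma PL_coeff (A : List Z) (i : ℕ) : (PL A).coeff i = iv (lc A i) := by
  unfold PL
  rw [finsetSum_coeff]
  simp only [coeff_C_mul, coeff_X_pow]
  by_cases h : i < A.length
  · rw [Finset.sum_eq_single i]
    · simp [lc]
    · intro j _ hj; rw [if_neg (by omega), mul_zero]
    · intro hi; exact absurd (Finset.mem_range.2 h) hi
  · rw [lc_zero (not_lt.1 h), Finset.sum_eq_zero]
    · simp
    · intro j hj
      rw [Finset.mem_range] at hj
      rw [if_neg (by omega), mul_zero]

lemma PG_coeff' (G : List Z) (i : ℕ) : (PG G).coeff i = iv (gc G i) := by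
  rw [PG_coeff]
  unfold gc
  split_ifs <;> simp [iv]

lemma gc_zero {G : List Z} {i : ℕ} (h : G.length < i) : gc G i = (0, 0) := by
  unfold gc
  rw [if_neg (by omega), if_neg (by omega)]

lemma ez_iff {x y : Z} : ez x y ↔ iv x = iv y := by
  unfold ez iv
  omega

lemma lez_iff {x : Z} {k : ℕ} : lez x k ↔ |iv x| ≤ k := by
  unfold lez iv
  rw [abs_le]
  omega

lemma bez {G Sg Tg : List Z} {R : Z}
    (h : ∀ i < G.length + Sg.length + Tg.length + 2, BezAt G Sg Tg R i) :
    PL Sg * PG G + PL Tg * derivative (PG G) = C (iv R) := by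
  ext i
  have e1 : (PL Sg * PG G + PL Tg * derivative (PG G)).coeff i =
      ∑ a ∈ range (i + 1), iv (lc Sg a) * iv (gc G (i - a)) +
      ∑ a ∈ range (i + 1), iv (lc Tg a) * (((i - a : ℕ) + 1 : ℤ) * iv (gc G (i - a + 1))) := by
    rw [coeff_add, coeff_mul, coeff_mul]
    congr 1
    · rw [Finset.Nat.sum_antidiagonal_eq_sum_range_succ
        (fun a b => (PL Sg).coeff a * (PG G).coeff b)]
      exact Finset.sum_congr rfl fun a _ => by rw [PL_coeff, PG_coeff']
    · rw [Finset.Nat.sum_antidiagonal_eq_sum_range_succ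
        (fun a b => (PL Tg).coeff a * (derivative (PG G)).coeff b)]
      exact Finset.sum_congr rfl fun a _ => by
        rw [PL_coeff, coeff_derivative, PG_coeff']
        ring
  rw [e1, coeff_C]
  by_cases hi : i < G.length + Sg.length + Tg.length + 2
  · have h1 := ez_iff.1 (h i hi)
    rw [iv_za, iv_zsum, iv_zsum] at h1
    simp only [iv_zm, iv_nat] at h1
    push_cast at h1
    rw [h1]
    split_ifs <;> simp
  · rw [if_neg (by omega), Finset.sum_eq_zero, Finset.sum_eq_zero, add_zero]
    · intro a _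
      by_cases ha : a < Tg.length
      · rw [gc_zero (G := G) (by omega)]
        simp
      · rw [lc_zero (not_lt.1 ha)]
        simp
    · intro a _
      by_cases ha : a < Sg.length
      · rw [gc_zero (G := G) (by omega)]
        simp
      · rw [lc_zero (not_lt.1 ha)]
        simp

lemma per {G Q W : List Z} {p0 T : ℕ}
    (h : ∀ i < G.length + Q.length + W.length + T + 2, PerAt G Q W p0 T i) :
    (X : ℤ[X]) ^ T - 1 = PG G * PL Q + C (p0 : ℤ) * PL W := by
  have key : (X : ℤ[X]) ^ T = PG G * PL Q + C (p0 : ℤ) * PL W + 1 := by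
    ext i
    have e1 : (PG G * PL Q + C (p0 : ℤ) * PL W + 1).coeff i =
        ∑ a ∈ range (i + 1), iv (gc G a) * iv (lc Q (i - a)) + (p0 : ℤ) * iv (lc W i) +
        (if i = 0 then 1 else 0) := by
      rw [coeff_add, coeff_add, coeff_mul, coeff_C_mul, PL_coeff, coeff_one]
      congr 2
      rw [Finset.Nat.sum_antidiagonal_eq_sum_range_succ
        (fun a b => (PG G).coeff a * (PL Q).coeff b)]
      exact Finset.sum_congr rfl fun a _ => by rw [PL_coeff, PG_coeff']
    rw [e1, coeff_X_pow]
    by_cases hi : i < G.length + Q.length + W.length + T + 2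
    · have h1 := ez_iff.1 (h i hi)
      rw [iv_za, iv_za, iv_zsum, iv_zm, iv_nat] at h1
      simp only [iv_zm] at h1
      have e2 : iv (if i = T then (1, 0) else (0, 0)) = if i = T then 1 else 0 := by
        split_ifs <;> simp [iv]
      have e3 : iv (if i = 0 then (1, 0) else (0, 0)) = if i = 0 then 1 else 0 := by
        split_ifs <;> simp [iv]
      rw [e2, e3] at h1
      exact h1
    · rw [if_neg (by omega), if_neg (by omega), lc_zero (A := W) (by omega),
        Finset.sum_eq_zero]
      · simp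
      · intro a _
        by_cases ha : a ≤ G.length
        · rw [lc_zero (A := Q) (by omega)]
          simp
        · rw [gc_zero (not_le.1 ha)]
          simp
  rw [key]
  ring

/-- multiplying by a binomial coefficient -/
lemma ann_choose {g : ℤ[X]} (j : ℕ) : ∀ {v : ℕ → ℤ}, Ann g v →
    Ann (g ^ (j + 1)) (fun n => (n.choose j : ℤ) * v n) := by
  induction j using Nat.strong_induction_on with
  | _ j ih =>
    intro v hv
    rcases Nat.eq_zero_or_pos j with rfl | hj
    · rw [zero_add, pow_one]
      have e : (fun n => (n.choose 0 : ℤ) * v n) = v := by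
        funext n
        simp
      rw [e]
      exact hv
    · obtain ⟨j, rfl⟩ : ∃ i, j = i + 1 := ⟨j - 1, by omega⟩
      have hw : ∀ b : ℕ, Ann g (∑ i ∈ range (g.natDegree + 1),
          (g.coeff i * (i.choose b : ℤ)) • fun n => v (n + i)) := by
        intro b
        refine Ann.sum _ fun i _ => Ann.smul ?_ _
        have h1 := hv.aeval ((X : ℤ[X]) ^ i)
        have e : Polynomial.aeval (E ℤ) ((X : ℤ[X]) ^ i) v = fun n => v (n + i) := by
          funext n
          rw [map_pow, aeval_X, E_pow_apply]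
        rw [e] at h1
        exact h1
      have e1 : Polynomial.aeval (E ℤ) g (fun n => (n.choose (j + 1) : ℤ) * v n) =
          ∑ a ∈ range (j + 1), fun n => (n.choose a : ℤ) * (∑ i ∈ range (g.natDegree + 1),
          (g.coeff i * (i.choose (j + 1 - a) : ℤ)) • fun n => v (n + i)) n := by
        funext n
        rw [aeval_E_apply g _ n (Nat.lt_succ_self _), Finset.sum_apply]
        have h2 : ∀ i, ((n + i).choose (j + 1) : ℤ) =
            ∑ a ∈ range (j + 1), (n.choose a : ℤ) * (i.choose (j + 1 - a) : ℤ) +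
            (n.choose (j + 1) : ℤ) := by
          intro i
          rw [Nat.add_choose_eq, Finset.Nat.sum_antidiagonal_eq_sum_range_succ
            (fun a b => n.choose a * i.choose b), Finset.sum_range_succ]
          push_cast
          simp
        have h3 := (ann_iff (Nat.lt_succ_self _)).1 hv n
        calc ∑ i ∈ range (g.natDegree + 1), g.coeff i * (((n + i).choose (j + 1) : ℤ) * v (n + i))
            = ∑ i ∈ range (g.natDegree + 1), (∑ a ∈ range (j + 1),
              (n.choose a : ℤ) * (g.coeff i * (i.choose (j + 1 - a) : ℤ) * v (n + i)) +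
              (n.choose (j + 1) : ℤ) * (g.coeff i * v (n + i))) := by
              refine Finset.sum_congr rfl fun i _ => ?_
              rw [h2, add_mul, mul_add, Finset.sum_mul, Finset.mul_sum]
              congr 1
              · exact Finset.sum_congr rfl fun a _ => by ring
              · ring
          _ = ∑ a ∈ range (j + 1), ∑ i ∈ range (g.natDegree + 1),
              (n.choose a : ℤ) * (g.coeff i * (i.choose (j + 1 - a) : ℤ) * v (n + i)) := by
              rw [Finset.sum_add_distrib, ← Finset.mul_sum, h3, mul_zero, add_zero,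
                Finset.sum_comm]
          _ = _ := by
              refine Finset.sum_congr rfl fun a _ => ?_
              rw [Finset.sum_apply, Finset.mul_sum]
              rfl
      have h4 : Ann (g ^ (j + 1)) (Polynomial.aeval (E ℤ) g
          (fun n => (n.choose (j + 1) : ℤ) * v n)) := by
        rw [e1]
        refine Ann.sum _ fun a ha => ?_
        rw [Finset.mem_range] at ha
        exact (ih a (by omega) (hw (j + 1 - a))).of_dvd (pow_dvd_pow _ (by omega))
      unfold Ann at h4 ⊢
      rw [pow_succ, map_mul, Module.End.mul_apply]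
      exact h4

lemma growth_aux {G A : List Z} {k Vb : ℕ} (hk : G.length ≤ k)
    (hG : ∀ i < G.length, lez (lc G i) k) (h1 : 1 ≤ G.length) (hA : A.length = G.length)
    (hAb : ∀ i < G.length, lez (lc A i) Vb) (b : ℕ) :
    |iv (run G A b)| ≤ Vb * ((k : ℤ) ^ 2 + 1) ^ b := by
  induction b using Nat.strong_induction_on with
  | _ b ih =>
    have hk1 : (1 : ℤ) ≤ (k : ℤ) ^ 2 + 1 := by nlinarith [sq_nonneg (k : ℤ)]
    have hV : (0 : ℤ) ≤ Vb := Int.natCast_nonneg _
    by_cases hb : b < G.length
    · rw [run_init (by omega)]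
      have h2 := lez_iff.1 (hAb b hb)
      have h3 : (1 : ℤ) ≤ ((k : ℤ) ^ 2 + 1) ^ b := one_le_pow₀ hk1
      refine h2.trans ?_
      nlinarith
    · have h2 := ann_PG.1 (run_ann (G := G) (a := A) (by omega) hA) (b - G.length)
      rw [Nat.sub_add_cancel (not_lt.1 hb)] at h2
      rw [h2, abs_neg]
      have h3 : ∀ i ∈ range G.length, |iv (G.getD i (0, 0)) * iv (run G A (b - G.length + i))| ≤
          k * (Vb * ((k : ℤ) ^ 2 + 1) ^ (b - 1)) := by
        intro i hi
        rw [Finset.mem_range] at hi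
        rw [abs_mul]
        have h4 := lez_iff.1 (hG i hi)
        have h5 := ih (b - G.length + i) (by omega)
        have h6 : ((k : ℤ) ^ 2 + 1) ^ (b - G.length + i) ≤ ((k : ℤ) ^ 2 + 1) ^ (b - 1) :=
          pow_le_pow_right₀ hk1 (by omega)
        refine mul_le_mul h4 (h5.trans (mul_le_mul_of_nonneg_left h6 hV)) (abs_nonneg _)
          (Int.natCast_nonneg _)
      have hp : (0 : ℤ) ≤ ((k : ℤ) ^ 2 + 1) ^ (b - 1) := by positivity
      have hkc : (G.length : ℤ) ≤ k := by exact_mod_cast hk
      have hk0 : (0 : ℤ) ≤ k := Int.natCast_nonneg _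
      calc |∑ i ∈ range G.length, iv (G.getD i (0, 0)) * iv (run G A (b - G.length + i))| ≤
          ∑ i ∈ range G.length, |iv (G.getD i (0, 0)) * iv (run G A (b - G.length + i))| :=
            Finset.abs_sum_le_sum_abs _ _
        _ ≤ ∑ _i ∈ range G.length, (k : ℤ) * (Vb * ((k : ℤ) ^ 2 + 1) ^ (b - 1)) :=
            Finset.sum_le_sum h3
        _ = G.length * ((k : ℤ) * (Vb * ((k : ℤ) ^ 2 + 1) ^ (b - 1))) := by
            rw [Finset.sum_const, Finset.card_range, nsmul_eq_mul]
        _ ≤ k * ((k : ℤ) * (Vb * ((k : ℤ) ^ 2 + 1) ^ (b - 1))) :=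
            mul_le_mul_of_nonneg_right hkc (by positivity)
        _ = (k : ℤ) ^ 2 * (Vb * ((k : ℤ) ^ 2 + 1) ^ (b - 1)) := by ring
        _ ≤ ((k : ℤ) ^ 2 + 1) * (Vb * ((k : ℤ) ^ 2 + 1) ^ (b - 1)) :=
            mul_le_mul_of_nonneg_right (by linarith) (by positivity)
        _ = Vb * ((k : ℤ) ^ 2 + 1) ^ b := by
            obtain ⟨c, rfl⟩ : ∃ c, b = c + 1 := ⟨b - 1, by omega⟩
            rw [Nat.add_sub_cancel, pow_succ]
            ring

lemma sq_le_two_pow {k : ℕ} (hk : 5 ≤ k) : k ^ 2 + 1 ≤ 2 ^ k := by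
  induction k, hk using Nat.le_induction with
  | base => norm_num
  | succ n hn ih =>
    rw [pow_succ 2 n]
    nlinarith

lemma growth {G A : List Z} {k Vb m : ℕ} (hk5 : 5 ≤ k) (hk : G.length ≤ k)
    (hG : ∀ i < G.length, lez (lc G i) k) (h1 : 1 ≤ G.length) (hA : A.length = G.length)
    (hAb : ∀ i < G.length, lez (lc A i) Vb) (hV : m * m.factorial * Vb < 2 ^ k) (b : ℕ) :
    (m : ℤ) * m.factorial * |iv (run G A b)| < 2 ^ (k * (b + 1)) := by
  have h2 := growth_aux hk hG h1 hA hAb b
  have h3 : ((m : ℤ) * m.factorial * Vb) < 2 ^ k := by exact_mod_cast hV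
  have h4 : ((k : ℤ) ^ 2 + 1) ≤ 2 ^ k := by exact_mod_cast sq_le_two_pow hk5
  have h5 : (0 : ℤ) < ((k : ℤ) ^ 2 + 1) ^ b := by positivity
  have h6 : ((k : ℤ) ^ 2 + 1) ^ b ≤ (2 ^ k) ^ b := pow_le_pow_left₀ (by positivity) h4 b
  calc (m : ℤ) * m.factorial * |iv (run G A b)| ≤
      (m : ℤ) * m.factorial * (Vb * ((k : ℤ) ^ 2 + 1) ^ b) :=
        mul_le_mul_of_nonneg_left h2 (by positivity)
    _ = ((m : ℤ) * m.factorial * Vb) * ((k : ℤ) ^ 2 + 1) ^ b := by ring
    _ < 2 ^ k * ((k : ℤ) ^ 2 + 1) ^ b := mul_lt_mul_of_pos_right h3 h5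
    _ ≤ 2 ^ k * (2 ^ k) ^ b := mul_le_mul_of_nonneg_left h6 (by positivity)
    _ = 2 ^ (k * (b + 1)) := by
        rw [mul_add, mul_one, pow_add, pow_mul]
        ring

lemma dec {p : List Z × List Z} {m D : ℕ} {G : List Z} {V : List (List Z)}
    (hp : p.1.length = p.2.length) (hp1 : 1 ≤ p.1.length)
    (hV : ∀ j < m, Ann (PG G) (fun n => iv (run G (V.getD j []) n)))
    (h : ∀ n < p.1.length + m * G.length, DecAt p m D G V n) (n : ℕ) :
    (D : ℤ) * sq p n = ∑ j ∈ Finset.range m, (n.choose j : ℤ) *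
      iv (run G (V.getD j []) n) := by
  obtain ⟨g, hg⟩ : ∃ g : ℤ[X], g = PG (Pool.Agent.H884R2.Sko.Fq p.1) * PG G ^ m := ⟨_, rfl⟩
  have hm : g.Monic := by
    rw [hg]
    exact (PG_monic _).mul ((PG_monic _).pow _)
  have hd : g.natDegree = p.1.length + m * G.length := by
    rw [hg, (PG_monic _).natDegree_mul ((PG_monic _).pow _), (PG_monic _).natDegree_pow,
      PG_natDegree, PG_natDegree, Pool.Agent.H884R2.Sko.Fq_length]
  have h1 : Ann g ((D : ℤ) • sq p) := by
    refine Ann.smul ?_ _
    rw [hg]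
    refine Ann.mul_right ?_ _
    exact run_ann (by omega) (by rw [Pool.Agent.H884R2.Sko.Fq_length, hp])
  have h2 : Ann g (∑ j ∈ Finset.range m, fun n => (n.choose j : ℤ) *
      iv (run G (V.getD j []) n)) := by
    refine Ann.sum _ fun j hj => ?_
    rw [Finset.mem_range] at hj
    refine (ann_choose j (hV j hj)).of_dvd ?_
    rw [hg]
    exact (pow_dvd_pow _ (by omega)).trans (dvd_mul_left _ _)
  have h3 := Ann.ext hm h1 h2 (fun n hn => by
    rw [hd] at hn
    have h4 := ez_iff.1 (h n hn)
    rw [iv_zm, iv_zsum, iv_nat] at h4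
    simp only [iv_zm, iv_nat] at h4
    rw [Finset.sum_apply]
    exact h4) n
  rw [Finset.sum_apply] at h3
  exact h3

end F1

theorem f1 : F1 := by
  intro p k m D p0 T Vb Bd G Sg Tg Q W R V hp hp1 h
  obtain ⟨hk5, hG1, hGk, hGc, hG0, hbez, hR, hRk, hm1, hmk, hD1, hV, hVb, hdec, hp0, hp03, hT1,
    hTk, hper, hwit⟩ := h
  have hann : ∀ j < m, Ann (PG G) (fun n => iv (run G (V.getD j []) n)) := by
    intro j hj
    obtain ⟨h1, -⟩ := hV j hj
    exact run_ann (by omega) h1
  refine ⟨PG G, F1.PL Sg, F1.PL Tg, F1.PL Q, F1.PL W, iv R,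
    fun j n => iv (run G (V.getD j []) n), ?_, ?_⟩
  · refine
      { monic := PG_monic G
        deg := by rw [PG_natDegree]; exact hGk
        coeff := ?_
        coeff0 := ?_
        bez := F1.bez hbez
        rr0 := ?_
        rrk := F1.lez_iff.1 hRk
        m1 := hm1
        mle := hmk
        D1 := hD1
        ann := hann
        dec := F1.dec hp hp1 hann hdec
        gro := fun j hj b => F1.growth hk5 hGk hGc hG1 (hV j hj).1 (hV j hj).2 hVb b
        p0p := hp0
        p03 := hp03
        T1 := hT1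
        Tk := hTk
        per := F1.per hper }
    · intro i
      rw [PG_coeff]
      split_ifs with h1 h2
      · exact F1.lez_iff.1 (hGc i h1)
      · rw [abs_one]
        exact_mod_cast (by omega : 1 ≤ k)
      · rw [abs_zero]
        exact Int.natCast_nonneg _
    · rw [PG_coeff, if_pos (by omega)]
      have h1 : (lc G 0).1 ≠ (lc G 0).2 := hG0
      unfold lc at h1
      unfold iv
      omega
    · unfold iv
      omega
  · intro r hr
    obtain ⟨j, hj, l, -, h1, h2⟩ := hwit r hr
    refine ⟨j, hj, l, ?_, ?_⟩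
    · show iv _ ≠ 0
      unfold iv
      omega
    · show |iv _| < _
      rw [not_or, not_le, not_le] at h2
      obtain ⟨h3, h4⟩ := h2
      have h3' : ((run G (V.getD j []) (r + T * l)).1 : ℤ) <
        (run G (V.getD j []) (r + T * l)).2 + 3 ^ (k / 2) := by exact_mod_cast h3
      have h4' : ((run G (V.getD j []) (r + T * l)).2 : ℤ) <
        (run G (V.getD j []) (r + T * l)).1 + 3 ^ (k / 2) := by exact_mod_cast h4
      unfold iv
      rw [abs_lt]
      constructor <;> linarith

end Pool.Agent.TH997.US
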