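import Pool.Agent.TH997.US.Stm

set_option autoImplicit false

namespace Pool.Agent.TH997.US

open Polynomial Finset Pool.Agent.H692R2.USS
open scoped Classical

namespace F2

theorem ez_iff (x y : Z) : ez x y ↔ iv x = iv y := by
  unfold ez iv
  constructor <;> intro h <;> omega

theorem lez_iff (x : Z) (k : ℕ) : lez x k ↔ |iv x| ≤ k := by
  unfold lez iv
  rw [abs_le]
  constructor <;> intro h <;> omega

theorem ne_iff (x : Z) : x.1 ≠ x.2 ↔ iv x ≠ 0 := by
  unfold iv
  constructor <;> intro h <;> omega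

/-- list of coded values -/
def ls (e : ℕ) (f : ℕ → ℤ) : List Z := (List.range e).map (fun i => zc (f i))

theorem ls_length (e : ℕ) (f : ℕ → ℤ) : (ls e f).length = e := by simp [ls]

theorem ls_getD {e i : ℕ} (f : ℕ → ℤ) (h : i < e) : (ls e f).getD i (0, 0) = zc (f i) := by
  unfold ls
  rw [List.getD_eq_getElem?_getD, List.getElem?_map, List.getElem?_range h]
  rfl

theorem ls_getD' {e i : ℕ} (f : ℕ → ℤ) (h : e ≤ i) : (ls e f).getD i (0, 0) = (0, 0) := by
  rw [List.getD_eq_default]
  rw [ls_length]; exact h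

theorem iv_lc (f : ℤ[X]) (i : ℕ) : iv (lc (ls (f.natDegree + 1) f.coeff) i) = f.coeff i := by
  unfold lc
  by_cases h : i < f.natDegree + 1
  · rw [ls_getD _ h, iv_zc]
  · rw [ls_getD' _ (by omega), coeff_eq_zero_of_natDegree_lt (by omega)]
    rfl

theorem iv_gc {g : ℤ[X]} (hg : g.Monic) (i : ℕ) :
    iv (gc (ls g.natDegree g.coeff) i) = g.coeff i := by
  unfold gc
  rw [ls_length]
  split_ifs with h1 h2
  · rw [ls_getD _ h1, iv_zc]
  · rw [h2, hg.coeff_natDegree]; rfl
  · rw [coeff_eq_zero_of_natDegree_lt (by omega)]; rfl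

theorem PG_ls {g : ℤ[X]} (hg : g.Monic) : PG (ls g.natDegree g.coeff) = g := by
  ext i
  rw [PG_coeff, ls_length]
  split_ifs with h1 h2
  · rw [ls_getD _ h1, iv_zc]
  · rw [h2, hg.coeff_natDegree]
  · rw [coeff_eq_zero_of_natDegree_lt (by omega)]

theorem bez {g s t : ℤ[X]} {rr : ℤ} (hg : g.Monic) (h : s * g + t * derivative g = C rr) (i : ℕ) :
    BezAt (ls g.natDegree g.coeff) (ls (s.natDegree + 1) s.coeff) (ls (t.natDegree + 1) t.coeff)
      (zc rr) i := by
  unfold BezAt
  rw [ez_iff, iv_za, iv_zsum, iv_zsum]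
  have h1 := congrArg (fun f : ℤ[X] => f.coeff i) h
  simp only [coeff_add, coeff_mul, coeff_C] at h1
  rw [Finset.Nat.sum_antidiagonal_eq_sum_range_succ (fun a b => s.coeff a * g.coeff b),
    Finset.Nat.sum_antidiagonal_eq_sum_range_succ (fun a b => t.coeff a * (derivative g).coeff b)]
    at h1
  have h2 : iv (if i = 0 then zc rr else (0, 0)) = if i = 0 then rr else 0 := by
    split_ifs
    · exact iv_zc _
    · rfl
  rw [h2, ← h1]
  congr 1
  · refine Finset.sum_congr rfl fun a _ => ?_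
    rw [iv_zm, iv_lc, iv_gc hg]
  · refine Finset.sum_congr rfl fun a _ => ?_
    rw [iv_zm, iv_zm, iv_lc, iv_gc hg, iv_nat, coeff_derivative]
    push_cast
    ring

theorem per {g q w : ℤ[X]} {p0 T : ℕ} (hg : g.Monic) (h : X ^ T - 1 = g * q + C (p0 : ℤ) * w)
    (i : ℕ) : PerAt (ls g.natDegree g.coeff) (ls (q.natDegree + 1) q.coeff)
      (ls (w.natDegree + 1) w.coeff) p0 T i := by
  unfold PerAt
  rw [ez_iff, iv_za, iv_za, iv_zsum, iv_zm, iv_lc, iv_nat]
  have h1 := congrArg (fun f : ℤ[X] => f.coeff i) h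
  simp only [coeff_add, coeff_sub, coeff_C_mul, coeff_X_pow, coeff_one] at h1
  rw [coeff_mul, Finset.Nat.sum_antidiagonal_eq_sum_range_succ (fun a b => g.coeff a * q.coeff b)]
    at h1
  have h2 : iv (if i = T then ((1, 0) : Z) else (0, 0)) = if i = T then 1 else 0 := by
    split_ifs <;> rfl
  have h3 : iv (if i = 0 then ((1, 0) : Z) else (0, 0)) = if i = 0 then 1 else 0 := by
    split_ifs <;> rfl
  rw [h2, h3]
  have h4 : ∑ a ∈ range (i + 1), iv (zm (gc (ls g.natDegree g.coeff) a)
      (lc (ls (q.natDegree + 1) q.coeff) (i - a))) =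
      ∑ a ∈ range (i + 1), g.coeff a * q.coeff (i - a) := by
    refine Finset.sum_congr rfl fun a _ => ?_
    rw [iv_zm, iv_lc, iv_gc hg]
  rw [h4]
  linarith

end F2

open F2 in
theorem f2 : F2 := by
  intro p k g s t q w rr m D p0 T v hlen hlen1 h hw
  obtain ⟨monic, deg, coeff, coeff0, hbez, rr0, rrk, m1, mle, D1, ann, dec, gro, p0p, p03, T1, Tk,
    hper⟩ := h
  have he : 1 ≤ g.natDegree := by
    by_contra hcon
    have h0 : g.natDegree = 0 := by omega
    have h1 : g = 1 := monic.natDegree_eq_zero.1 h0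
    obtain ⟨j, hj, l, hl, _⟩ := hw 0 (by omega)
    apply hl
    exact (ann j hj).eq_zero monic (fun n hn => absurd hn (by omega)) _
  choose! jj hjj ll hll hlt using hw
  set e := g.natDegree with hedef
  set Vb : ℕ := ∑ j ∈ range m, ∑ i ∈ range e, (v j i).natAbs with hVb
  set k' : ℕ := k + 5 + m * m.factorial * Vb with hk'
  have hkk : k ≤ k' := by omega
  set V : List (List Z) := (List.range m).map (fun j => ls e (v j)) with hV
  have hVj : ∀ j < m, V.getD j [] = ls e (v j) := by
    intro j hj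
    rw [hV, List.getD_eq_getElem?_getD, List.getElem?_map, List.getElem?_range hj]
    rfl
  have hrun : ∀ j < m, ∀ n, iv (run (ls e g.coeff) (V.getD j []) n) = v j n := by
    intro j hj n
    rw [hVj j hj]
    refine run_eq (by rw [ls_length]; exact he) (by rw [ls_length, ls_length]) ?_ ?_ n
    · rw [PG_ls monic]; exact ann j hj
    · intro i hi
      rw [ls_length] at hi
      rw [ls_getD _ hi, iv_zc]
  have h3 : (3 : ℤ) ^ (k / 2) ≤ 3 ^ (k' / 2) :=
    pow_le_pow_right₀ (by norm_num) (Nat.div_le_div_right hkk)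
  refine ⟨k', Vb, (∑ r ∈ range T, ll r) + 1, ls e g.coeff, ls (s.natDegree + 1) s.coeff,
    ls (t.natDegree + 1) t.coeff, ls (q.natDegree + 1) q.coeff, ls (w.natDegree + 1) w.coeff,
    zc rr, V, by omega, by rw [ls_length]; exact he, by rw [ls_length]; omega, ?_, ?_, ?_, ?_, ?_,
    m1, by omega, D1, ?_, ?_, ?_, p0p, p03, T1, by omega, ?_, ?_⟩
  · intro i hi
    rw [ls_length] at hi
    rw [lez_iff]
    unfold lc
    rw [ls_getD _ hi, iv_zc]
    have := coeff i
    have hc : (k : ℤ) ≤ k' := by exact_mod_cast hkk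
    linarith
  · rw [ne_iff]
    unfold lc
    rw [ls_getD _ (by omega), iv_zc]
    exact coeff0
  · intro i _
    exact bez monic hbez i
  · rw [ne_iff, iv_zc]
    exact rr0
  · rw [lez_iff, iv_zc]
    have hc : (k : ℤ) ≤ k' := by exact_mod_cast hkk
    linarith
  · intro j hj
    rw [hVj j hj]
    refine ⟨by rw [ls_length, ls_length], fun i hi => ?_⟩
    rw [ls_length] at hi
    rw [lez_iff]
    unfold lc
    rw [ls_getD _ hi, iv_zc, Int.abs_eq_natAbs]
    have h4 : (v j i).natAbs ≤ Vb :=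
      (Finset.single_le_sum (f := fun i => (v j i).natAbs) (fun _ _ => Nat.zero_le _)
        (Finset.mem_range.2 hi)).trans
      (Finset.single_le_sum (f := fun j => ∑ i ∈ range e, (v j i).natAbs)
        (fun _ _ => Nat.zero_le _) (Finset.mem_range.2 hj))
    exact_mod_cast h4
  · exact lt_of_lt_of_le Nat.lt_two_pow_self (Nat.pow_le_pow_right (by norm_num) (by omega))
  · intro n _
    unfold DecAt
    rw [ez_iff, iv_zm, iv_nat, iv_zsum]
    have h5 := dec n
    unfold sq at h5
    rw [h5]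
    refine Finset.sum_congr rfl fun j hj => ?_
    rw [iv_zm, iv_nat, hrun j (Finset.mem_range.1 hj)]
  · intro i _
    exact per monic hper i
  · intro r hr
    refine ⟨jj r, hjj r hr, ll r, ?_, ?_, ?_⟩
    · exact Nat.lt_succ_of_le (Finset.single_le_sum (f := ll) (fun _ _ => Nat.zero_le _)
        (Finset.mem_range.2 hr))
    · rw [ne_iff, hrun _ (hjj r hr)]
      exact hll r hr
    · have h6 := hrun _ (hjj r hr) (r + T * ll r)
      have h7 := hlt r hr
      rw [← h6] at h7
      generalize run (ls e g.coeff) (V.getD (jj r) []) (r + T * ll r) = x at h7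
      rw [abs_lt] at h7
      unfold iv at h7
      intro hc
      rcases hc with hc | hc
      · have hc' : (x.2 : ℤ) + 3 ^ (k' / 2) ≤ x.1 := by exact_mod_cast hc
        linarith [h7.2]
      · have hc' : (x.1 : ℤ) + 3 ^ (k' / 2) ≤ x.2 := by exact_mod_cast hc
        linarith [h7.1]

end Pool.Agent.TH997.US
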