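import Pool.Agent.TH997.US.Sem

set_option autoImplicit false

/-!
# The final theorem from the parts
-/

namespace Pool.Agent.TH997.US

open Polynomial Finset Pool.Agent.H692R2.USS Pool.Agent.Helper446
open scoped Classical

theorem re_zero (hS : ComputablePred (fun n : ℕ => n ∈ S)) :
    REPred fun p : List Z × List Z => ∃ n, n ∈ S ∧ sq p n = 0 := by
  refine RE.ex (p := fun (p : List Z × List Z) (n : ℕ) => n ∈ S ∧ sq p n = 0) ?_
  refine RE.and (RE.comp hS.to_re Computable.snd) ?_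
  have h : REPred fun x : (List Z × List Z) × ℕ =>
      (run (Pool.Agent.H884R2.Sko.Fq x.1.1) x.1.2 x.2).1 =
        (run (Pool.Agent.H884R2.Sko.Fq x.1.1) x.1.2 x.2).2 :=
    RE.eq (by fun_prop) (by fun_prop)
  refine h.of_eq fun x => ?_
  exact (sq_eq_zero x.1 x.2).symm

abbrev CT : Type := (ℕ × ℕ × ℕ × ℕ × ℕ × ℕ × ℕ) ×
  (List Z × List Z × List Z × List Z × List Z) × Z × List (List Z)

theorem re_cer (hF3 : F3) (hN : Computable NSeq) (hS : ComputablePred (fun n : ℕ => n ∈ S)) :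
    REPred Cer := by
  unfold Cer
  refine RE.ex (p := fun (p : List Z × List Z) (c : CT) =>
    Chk p c.1.1 c.1.2.1 c.1.2.2.1 c.1.2.2.2.1 c.1.2.2.2.2.1 c.1.2.2.2.2.2.1
      c.1.2.2.2.2.2.2 c.2.1.1 c.2.1.2.1 c.2.1.2.2.1 c.2.1.2.2.2.1 c.2.1.2.2.2.2
      c.2.2.1 c.2.2.2 ∧
    ∀ n < NSeq c.1.1, n ∈ S →
      (run (Pool.Agent.H884R2.Sko.Fq p.1) p.2 n).1 ≠
        (run (Pool.Agent.H884R2.Sko.Fq p.1) p.2 n).2) ?_
  refine RE.and hF3.to_re ?_
  refine RE.all_lt (p := fun (x : (List Z × List Z) × CT) (n : ℕ) => n ∈ S →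
      (run (Pool.Agent.H884R2.Sko.Fq x.1.1) x.1.2 n).1 ≠
        (run (Pool.Agent.H884R2.Sko.Fq x.1.1) x.1.2 n).2) ?_ ?_
  · have h1 : REPred fun y : ((List Z × List Z) × CT) × ℕ => ¬ y.2 ∈ S :=
      RE.comp (p := fun n : ℕ => ¬ n ∈ S) hS.not.to_re Computable.snd
    have h2 : REPred fun y : ((List Z × List Z) × CT) × ℕ =>
        (run (Pool.Agent.H884R2.Sko.Fq y.1.1.1) y.1.1.2 y.2).1 ≠
        (run (Pool.Agent.H884R2.Sko.Fq y.1.1.1) y.1.1.2 y.2).2 :=
      RE.ne (by fun_prop) (by fun_prop)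
    refine (RE.or h1 h2).of_eq fun y => ?_
    exact imp_iff_not_or.symm
  · exact hN.comp (Computable.fst.comp (Computable.fst.comp Computable.snd))

theorem cp_val : ComputablePred Val := by
  unfold Val lc
  refine cp_and (RE.cp_eq (by fun_prop) (by fun_prop))
    (cp_and (RE.cp_le (by fun_prop) (by fun_prop)) ?_)
  exact (RE.cp_eq (f := fun p : List Z × List Z => (p.1.getD (p.1.length - 1) (0, 0)).1)
    (g := fun p : List Z × List Z => (p.1.getD (p.1.length - 1) (0, 0)).2)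
    (by fun_prop) (by fun_prop)).not

theorem getD_map_zc (L : List ℤ) (i : ℕ) : (L.map zc).getD i (0, 0) = zc (L.getD i 0) := by
  rw [List.getD_eq_getElem?_getD, List.getD_eq_getElem?_getD, List.getElem?_map]
  cases L[i]? with
  | none => rfl
  | some z => rfl

theorem val_cv (p : List ℤ × List ℤ) : Val (cv p) ↔ p.1.length = p.2.length ∧ 1 ≤ p.1.length ∧
    p.1.getD (p.1.length - 1) 0 ≠ 0 := by
  unfold Val cv lc
  simp only [List.length_map, getD_map_zc]
  have h : ∀ z : ℤ, (zc z).1 ≠ (zc z).2 ↔ z ≠ 0 := by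
    intro z
    unfold zc
    simp only
    omega
  rw [h]

/-- the recurrence of the frozen statement -/
def Rec (p : List ℤ × List ℤ) (u : ℕ → ℤ) : Prop :=
  (∀ i, i < p.1.length → u i = p.2.getD i 0) ∧
  ∀ n : ℕ, u (n + p.1.length) =
    ∑ j ∈ Finset.range p.1.length, p.1.getD j 0 * u (n + p.1.length - 1 - j)

theorem rec_iff {p : List ℤ × List ℤ} (hp : Val (cv p)) (u : ℕ → ℤ) :
    Rec p u ↔ ∀ n, u n = sq (cv p) n := by
  have hl : (cv p).1.length = p.1.length := by simp [cv]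
  have hl2 : (cv p).2.length = p.2.length := by simp [cv]
  have hlen : p.1.length = p.2.length := by rw [← hl, ← hl2]; exact hp.1
  have hann : ∀ w : ℕ → ℤ, Ann (PG (Pool.Agent.H884R2.Sko.Fq (cv p).1)) w ↔
      ∀ n : ℕ, w (n + p.1.length) =
        ∑ j ∈ Finset.range p.1.length, p.1.getD j 0 * w (n + p.1.length - 1 - j) := by
    intro w
    rw [ann_PG, Pool.Agent.H884R2.Sko.Fq_length, hl]
    refine forall_congr' fun n => ?_
    have e : - ∑ i ∈ range p.1.length,
        iv ((Pool.Agent.H884R2.Sko.Fq (cv p).1).getD i (0, 0)) * w (n + i) =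
        ∑ j ∈ Finset.range p.1.length, p.1.getD j 0 * w (n + p.1.length - 1 - j) := by
      rw [← Finset.sum_neg_distrib, ← Finset.sum_range_reflect]
      refine Finset.sum_congr rfl fun i hi => ?_
      rw [Finset.mem_range] at hi
      rw [Pool.Agent.H884R2.Sko.Fq_getD (by rw [hl]; omega), hl, iv_zn]
      have e2 : (cv p).1.getD (p.1.length - 1 - (p.1.length - 1 - i)) (0, 0) = zc (p.1.getD i 0) := by
        rw [show p.1.length - 1 - (p.1.length - 1 - i) = i by omega]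
        exact getD_map_zc p.1 i
      rw [e2, iv_zc, show n + (p.1.length - 1 - i) = n + p.1.length - 1 - i by omega]
      ring
    rw [e]
  have hs := ann_sq hp
  have hinit : ∀ i < p.1.length, sq (cv p) i = p.2.getD i 0 := by
    intro i hi
    unfold sq
    rw [run_init (by rw [hl2]; omega)]
    have : (cv p).2.getD i (0, 0) = zc (p.2.getD i 0) := getD_map_zc p.2 i
    rw [this, iv_zc]
  constructor
  · rintro ⟨h1, h2⟩ n
    refine ((hann u).2 h2).ext (PG_monic _) hs (fun i hi => ?_) n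
    rw [PG_natDegree, Pool.Agent.H884R2.Sko.Fq_length, hl] at hi
    rw [h1 i hi, hinit i hi]
  · intro h
    have hu : u = sq (cv p) := funext h
    subst hu
    exact ⟨hinit, (hann _).1 hs⟩

theorem final (hgood : GoodDensity) (hB1 : B1) (hB2 : B2) (hC9 : C9) (hDa : Da) (hDb : Db)
    (hDc : Dc) (hD0 : D0) (hE1 : E1) (hE2 : E2) (hF1 : F1) (hF2 : F2) (hF3 : F3) :
    ∃ S : Set ℕ, ComputablePred (fun n : ℕ => n ∈ S) ∧
      Filter.Tendsto (fun N : ℕ => (((Finset.range N).filter (fun n => n ∉ S)).card : ℝ) / N)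
        Filter.atTop (nhds 0) ∧
      ComputablePred (fun p : List ℤ × List ℤ =>
        p.1.length = p.2.length ∧ 1 ≤ p.1.length ∧
        p.1.getD (p.1.length - 1) 0 ≠ 0 ∧
        ∃ u : ℕ → ℤ,
          (∀ i, i < p.1.length → u i = p.2.getD i 0) ∧
          (∀ n : ℕ, u (n + p.1.length) =
            ∑ j ∈ Finset.range p.1.length, p.1.getD j 0 * u (n + p.1.length - 1 - j)) ∧
          ∃ n ∈ S, u n = 0) := by
  obtain ⟨hN, hS⟩ := hB1 hgood
  have hdens := hB2 hgood
  refine ⟨S, hS, hdens, ?_⟩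
  have hiff : ∀ p : List ℤ × List ℤ, (p.1.length = p.2.length ∧ 1 ≤ p.1.length ∧
        p.1.getD (p.1.length - 1) 0 ≠ 0 ∧
        ∃ u : ℕ → ℤ,
          (∀ i, i < p.1.length → u i = p.2.getD i 0) ∧
          (∀ n : ℕ, u (n + p.1.length) =
            ∑ j ∈ Finset.range p.1.length, p.1.getD j 0 * u (n + p.1.length - 1 - j)) ∧
          ∃ n ∈ S, u n = 0) ↔ Val (cv p) ∧ ∃ n, n ∈ S ∧ sq (cv p) n = 0 := by
    intro p
    constructor
    · rintro ⟨h1, h2, h3, u, h4, h5, n, hn, h0⟩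
      have hv : Val (cv p) := (val_cv p).2 ⟨h1, h2, h3⟩
      refine ⟨hv, n, hn, ?_⟩
      rw [← (rec_iff hv u).1 ⟨h4, h5⟩ n]
      exact h0
    · rintro ⟨hv, n, hn, h0⟩
      obtain ⟨h1, h2, h3⟩ := (val_cv p).1 hv
      obtain ⟨h4, h5⟩ := (rec_iff hv (sq (cv p))).2 fun _ => rfl
      exact ⟨h1, h2, h3, _, h4, h5, n, hn, h0⟩
  refine RE.cp_of_re ?_ ?_
  · have h1 : REPred fun p : List ℤ × List ℤ => Val (cv p) ∧ ∃ n, n ∈ S ∧ sq (cv p) n = 0 :=
      RE.comp (p := fun p : List Z × List Z => Val p ∧ ∃ n, n ∈ S ∧ sq p n = 0)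
        (RE.and cp_val.to_re (re_zero hS)) computable_cv
    exact h1.of_eq fun p => (hiff p).symm
  · have h1 : REPred fun p : List ℤ × List ℤ => ¬ Val (cv p) ∨ Cer (cv p) :=
      RE.comp (p := fun p : List Z × List Z => ¬ Val p ∨ Cer p)
        (RE.or cp_val.not.to_re (re_cer hF3 hN hS)) computable_cv
    refine h1.of_eq fun p => ?_
    rw [hiff p]
    by_cases hv : Val (cv p)
    · have h2 := sem hC9 hDa hDb hDc hD0 hE1 hE2 hF1 hF2 hdens hv
      simp only [hv, not_true_eq_false, false_or, true_and]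
      exact h2
    · simp [hv]

end Pool.Agent.TH997.US
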