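import Pool.Agent.TH997.US.Conv

set_option autoImplicit false

/-!
# The semantic equivalence: no zero in `S` iff there is a coded certificate
-/

namespace Pool.Agent.TH997.US

open Polynomial Finset Pool.Agent.H692R2.USS
open scoped Classical

theorem NSeq_succ_lt (k : ℕ) : NSeq k < NSeq (k + 1) := by
  show NSeq k < (k + 1) * (NSeq k + (iSeq k).factorial + (iSeq (k + 1)).factorial + 1)
  have h1 : 1 * (NSeq k + (iSeq k).factorial + (iSeq (k + 1)).factorial + 1) ≤
      (k + 1) * (NSeq k + (iSeq k).factorial + (iSeq (k + 1)).factorial + 1) :=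
    Nat.mul_le_mul_right _ (by omega)
  omega

theorem le_NSeq (k : ℕ) : k ≤ NSeq k := by
  induction k with
  | zero => exact Nat.zero_le _
  | succ k ih => have := NSeq_succ_lt k; omega

theorem le_lev {k n : ℕ} (h : NSeq k ≤ n) : k ≤ lev n :=
  Nat.le_findGreatest ((le_NSeq k).trans h) h

/-- certificate data are monotone in the level -/
theorem CD.mono {u : ℕ → ℤ} {k k' : ℕ} {g s t q w : ℤ[X]} {rr : ℤ} {m D p0 T : ℕ}
    {v : ℕ → ℕ → ℤ} (h : CD u k g s t q w rr m D p0 T v) (hk : k ≤ k') :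
    CD u k' g s t q w rr m D p0 T v := by
  have hk' : (k : ℤ) ≤ k' := by exact_mod_cast hk
  refine ⟨h.monic, h.deg.trans hk, fun i => (h.coeff i).trans hk', h.coeff0, h.bez, h.rr0,
    h.rrk.trans hk', h.m1, h.mle.trans hk, h.D1, h.ann, h.dec, fun j hj b => ?_, h.p0p, h.p03,
    h.T1, h.Tk.trans hk, h.per⟩
  refine (h.gro j hj b).trans_le ?_
  exact pow_le_pow_right₀ (by norm_num) (Nat.mul_le_mul_right _ hk)

/-- `S` meets every residue class -/
theorem meets (hB2 : Filter.Tendsto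
    (fun N : ℕ => (((Finset.range N).filter (fun n => n ∉ S)).card : ℝ) / N) Filter.atTop (nhds 0))
    {T : ℕ} (hT : 1 ≤ T) (r : ℕ) (hr : r < T) : ∃ l, r + T * l ∈ S := by
  by_contra hcon
  push Not at hcon
  have hT0 : (0 : ℝ) < T := by exact_mod_cast hT
  have h1 := (hB2.eventually (gt_mem_nhds (show (0 : ℝ) < 1 / T by positivity)))
  obtain ⟨N0, hN0⟩ := Filter.eventually_atTop.1 h1
  have h2 := hN0 (T * (N0 + 1)) (by nlinarith)
  have h3 : N0 + 1 ≤ ((Finset.range (T * (N0 + 1))).filter (fun n => n ∉ S)).card := by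
    have hinj : Function.Injective (fun l : ℕ => r + T * l) := by
      intro a b hab
      simp only [Nat.add_left_cancel_iff] at hab
      exact Nat.eq_of_mul_eq_mul_left (by omega) hab
    have h4 : (Finset.range (N0 + 1)).image (fun l : ℕ => r + T * l) ⊆
        (Finset.range (T * (N0 + 1))).filter (fun n => n ∉ S) := by
      intro x hx
      rw [Finset.mem_image] at hx
      obtain ⟨l, hl, rfl⟩ := hx
      rw [Finset.mem_range] at hl
      rw [Finset.mem_filter, Finset.mem_range]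
      refine ⟨?_, hcon l⟩
      have : T * (l + 1) ≤ T * (N0 + 1) := Nat.mul_le_mul_left _ (by omega)
      rw [mul_add, mul_one] at this
      omega
    have h5 := Finset.card_le_card h4
    rwa [Finset.card_image_of_injective _ hinj, Finset.card_range] at h5
  have h6 : ((N0 : ℝ) + 1) ≤ (((Finset.range (T * (N0 + 1))).filter (fun n => n ∉ S)).card : ℝ) := by
    exact_mod_cast h3
  rw [div_lt_div_iff₀ (by positivity) hT0] at h2
  push_cast at h2
  have : ((N0 : ℝ) + 1) * T ≤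
      (((Finset.range (T * (N0 + 1))).filter (fun n => n ∉ S)).card : ℝ) * T :=
    mul_le_mul_of_nonneg_right h6 hT0.le
  linarith

/-- valid inputs -/
def Val (p : List Z × List Z) : Prop :=
  p.1.length = p.2.length ∧ 1 ≤ p.1.length ∧
    (lc p.1 (p.1.length - 1)).1 ≠ (lc p.1 (p.1.length - 1)).2

/-- there is a certificate, and no zero at small elements of `S` -/
def Cer (p : List Z × List Z) : Prop :=
  ∃ c : (ℕ × ℕ × ℕ × ℕ × ℕ × ℕ × ℕ) × (List Z × List Z × List Z × List Z × List Z) × Z ×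
      List (List Z),
    Chk p c.1.1 c.1.2.1 c.1.2.2.1 c.1.2.2.2.1 c.1.2.2.2.2.1 c.1.2.2.2.2.2.1
      c.1.2.2.2.2.2.2 c.2.1.1 c.2.1.2.1 c.2.1.2.2.1 c.2.1.2.2.2.1 c.2.1.2.2.2.2
      c.2.2.1 c.2.2.2 ∧
    ∀ n < NSeq c.1.1, n ∈ S →
      (run (Pool.Agent.H884R2.Sko.Fq p.1) p.2 n).1 ≠ (run (Pool.Agent.H884R2.Sko.Fq p.1) p.2 n).2

theorem sq_eq_zero (p : List Z × List Z) (n : ℕ) : sq p n = 0 ↔
    (run (Pool.Agent.H884R2.Sko.Fq p.1) p.2 n).1 = (run (Pool.Agent.H884R2.Sko.Fq p.1) p.2 n).2 := by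
  unfold sq iv
  omega

theorem ann_sq {p : List Z × List Z} (hp : Val p) :
    Ann (PG (Pool.Agent.H884R2.Sko.Fq p.1)) (sq p) :=
  run_ann (by have := hp.1; have := hp.2.1; omega)
    (by rw [Pool.Agent.H884R2.Sko.Fq_length]; exact hp.1.symm)

theorem coeff0_sq {p : List Z × List Z} (hp : Val p) :
    (PG (Pool.Agent.H884R2.Sko.Fq p.1)).coeff 0 ≠ 0 := by
  have h1 := hp.2.1
  rw [PG_coeff, Pool.Agent.H884R2.Sko.Fq_length, if_pos (by omega),
    Pool.Agent.H884R2.Sko.Fq_getD (by omega), iv_zn]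
  have h2 := hp.2.2
  unfold lc at h2
  rw [Nat.sub_zero]
  unfold iv
  omega

theorem sem (hC9 : C9) (hDa : Da) (hDb : Db) (hDc : Dc) (hD0 : D0) (hE1 : E1) (hE2 : E2)
    (hF1 : F1) (hF2 : F2) (hB2 : Filter.Tendsto
    (fun N : ℕ => (((Finset.range N).filter (fun n => n ∉ S)).card : ℝ) / N) Filter.atTop (nhds 0))
    {p : List Z × List Z} (hp : Val p) : Cer p ↔ ¬ ∃ n ∈ S, sq p n = 0 := by
  constructor
  · rintro ⟨c, hc, hsmall⟩ ⟨n, hn, h0⟩
    obtain ⟨g, s, t, q, w, rr, v, hcd, hst⟩ := hF1 _ _ _ _ _ _ _ _ _ _ _ _ _ _ _ hp.1 hp.2.1 hc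
    by_cases hlt : n < NSeq c.1.1
    · exact hsmall n hlt hn ((sq_eq_zero p n).1 h0)
    · have hk := le_lev (not_lt.1 hlt)
      have hcd' := hcd.mono hk
      have hG : Good (iSeq (lev n)) (lev n) n := hn
      have hT := hcd.T1
      obtain ⟨j, hj, l, hl0, hl1⟩ := hst (n % _) (Nat.mod_lt n hT)
      rcases hD0 hC9 hDa hDb hDc _ _ _ _ _ _ _ _ _ _ _ _ _ _ _ hcd' hG h0 j hj l with h | h
      · exact hl0 h
      · have h3 : (3 : ℤ) ^ (c.1.1 / 2) ≤ 3 ^ (lev n / 2) :=
          pow_le_pow_right₀ (by norm_num) (Nat.div_le_div_right hk)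
        omega
  · intro hno
    obtain ⟨k, g, s, t, q, w, rr, m, D, p0, T, v, hcd, hw⟩ :=
      hE2 hE1 _ _ (PG_monic _) (coeff0_sq hp) (ann_sq hp)
    have hst : ∀ r < T, ∃ j < m, ∃ l, v j (r + T * l) ≠ 0 ∧ |v j (r + T * l)| < 3 ^ (k / 2) := by
      intro r hr
      rcases hw r hr with h | h
      · exfalso
        obtain ⟨l, hl⟩ := meets hB2 hcd.T1 r hr
        apply hno
        refine ⟨_, hl, ?_⟩
        have h1 := hcd.dec (r + T * l)
        rw [Finset.sum_eq_zero (fun j hj => by rw [h j (Finset.mem_range.1 hj) l, mul_zero])] at h1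
        rcases mul_eq_zero.1 h1 with h2 | h2
        · have := hcd.D1
          have h3 : (D : ℤ) = 0 := h2
          omega
        · exact h2
      · exact h
    obtain ⟨k', Vb, Bd, G, Sg, Tg, Q, W, R, V, hchk⟩ :=
      hF2 p k g s t q w rr m D p0 T v hp.1 hp.2.1 hcd hst
    refine ⟨((k', m, D, p0, T, Vb, Bd), (G, Sg, Tg, Q, W), R, V), hchk, ?_⟩
    intro n _ hn h0
    exact hno ⟨n, hn, (sq_eq_zero p n).2 h0⟩

end Pool.Agent.TH997.US
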